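import Pool.Agent.Work.MP_60d5ce_nt.AG.SelT
import Pool.Agent.Work.MP_60d5ce_nt.AS.SDefs
import Pool.Agent.Work.MP_60d5ce_nt.Asc.Loc
import Pool.Agent.Work.MP_60d5ce_nt.AS.FMin
import Mathlib
import Pool.Agent.Work.MP_60d5ce_nt.AS.SIdx

-- merged part: Pool.Agent.Work.MP_60d5ce_nt.AG.BrgA
section
/-!
# From Selmer triples over `K(δ) ⊆ Ω` to classes in `Amb`

`Cor j δ c Q n s`: the class `s` corresponds to the triple `(c, Q, n)`.

PLAN.  `σ ∈ Gk k` restricts along `j` to `Ω` (`AlgEquiv.restrictNormal`-type argument: the range of `j` is `Om`), and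
every automorphism of `Ω` over `K` comes from some `σ` (`AlgEquiv.liftNormal`); `σ` fixes `j δ` iff its restriction is
linear over `K⟮δ⟯` (`Hs`, `toH`, `ext0` of `Asc/Cores.lean`).  Points of level `0` are the images of the points over
`Ω` (`mem_lev`).  `cor_ex`: `ξ σ = j (ext0 c (ρ σ))`, `Q'` with `p ^ n Q' = j Q` (`divp`); for the local condition
apply `loc_split` with `Λ = separableClosure (Lv v) (Lb v)` and `ι = j' ∘ j` (`om_map`, `av_nontriv`).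
`cor_same`: the difference of the two pairs is `(∂ P, P + t)` with `P = j P0`.  A given instance
`DecidableEq Ω` can be replaced by the classical one with `Subsingleton.elim` and `subst`.
-/

namespace Pool.Agent.ASel

open Polynomial Pool.Agent.Smith Pool.Agent.ShaAsc WeierstrassCurve WeierstrassCurve.Affine
open scoped Classical IntermediateField

section

variable {R K Ω : Type} [Field R] [Field K] [Field Ω] [Algebra R K] [Algebra K Ω] [Algebra R Ω]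
  [IsScalarTower R K Ω] [DecidableEq Ω] [IsGalois K Ω] {p : ℕ} {W : WeierstrassCurve R}

theorem InSelP.sub {c c' : (Ω ≃ₐ[K] Ω) → Pts W Ω} {Q Q' : Pts W Ω} {n n' : ℕ}
    (h : InSelP p W c Q n) (h' : InSelP p W c' Q' n') :
    InSelP p W (c - c') (p ^ n' • Q - p ^ n • Q') (n + n') := by
  refine ⟨h.1.sub h'.1, fun σ => ?_⟩
  rw [Pi.sub_apply, smul_sub, pow_add, mul_nsmul, mul_nsmul', h.2, h'.2, map_sub, map_nsmul,
    map_nsmul, smul_sub, smul_sub]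
  abel

theorem inSelP_zero : InSelP p W (0 : (Ω ≃ₐ[K] Ω) → Pts W Ω) 0 0 := by
  refine ⟨⟨⟨IsLocallyConstant.const 0, fun _ _ => by simp⟩, fun v _ => ?_⟩, fun _ => by simp⟩
  let _ := Classical.decEq (SeparableClosure v.Completion)
  obtain ⟨ι, hι⟩ := exists_compat (R := R) (K := K) (Ω := Ω) v.Completion
  exact ⟨ι, hι, 0, fun _ _ _ => by rw [Pi.zero_apply, map_zero, map_zero, sub_zero]⟩

end

variable {k : Type} [Field k] {p : ℕ} [Fintype k] [hp : Fact p.Prime] [CharP k p] {a4 a6 : k[X]}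
  {Ω : Type} [Field Ω] [Algebra (RatFunc k) Ω] [IsSepClosure (RatFunc k) Ω] [DecidableEq Ω]

omit [Fintype k] [IsSepClosure (RatFunc k) Ω] in
theorem BrgA_lev {M : Type} [Field M] [Algebra (RatFunc k) M] [CharP M p] (κ : Ω →ₐ[RatFunc k] M)
    {S : Subfield M} (hκ : ∀ y, κ y ∈ S) (P : Pts (Ew a4 a6) Ω) :
    Point.map (W' := (Ew a4 a6).toAffine) κ P ∈ Lev p S (Wm a4 a6 M) 0 := by
  rcases P with _ | ⟨x, y, h⟩
  · exact zero_mem _
  · exact fun _ => ⟨pow_mem (hκ x) _, pow_mem (hκ y) _⟩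

omit [Fintype k] [IsSepClosure (RatFunc k) Ω] [DecidableEq Ω] in
theorem BrgA_stab {j : Ω →ₐ[RatFunc k] Kb k} {δ : Ω} {σ : Gk k} {σ' : Ω ≃ₐ[(RatFunc k)⟮δ⟯] Ω}
    (h : ∀ y, j (σ' y) = σ (j y)) : σ (j δ) = j δ :=
  (h δ).symm.trans (congrArg j (σ'.commutes ⟨δ, IntermediateField.mem_adjoin_simple_self _ δ⟩))

theorem exists_j0 : ∃ j : Ω →ₐ[RatFunc k] Kb k,
    ∀ x, x ∈ Om (RatFunc k) (Kb k) ↔ ∃ y, j y = x := by
  let e := IsSepClosure.equiv (RatFunc k) Ω (separableClosure (RatFunc k) (Kb k))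
  exact ⟨(IntermediateField.val _).comp e.toAlgHom, fun x => ⟨fun h => ⟨e.symm ⟨x, h⟩,
    congrArg Subtype.val (e.apply_symm_apply _)⟩, fun ⟨y, h⟩ => h ▸ (e y).2⟩⟩

variable (p a4 a6) in
/-- the class `s` corresponds to the triple `(c, Q, n)` -/
def Cor (j : Ω →ₐ[RatFunc k] Kb k) (δ : Ω) (c : (Ω ≃ₐ[(RatFunc k)⟮δ⟯] Ω) → Pts (Ew a4 a6) Ω)
    (Q : Pts (Ew a4 a6) Ω) (n : ℕ) (s : Amb a4 a6 p (MulAction.stabilizer (Gk k) (j δ)) 0) : Prop :=
  ∃ x : (Gk k → EK a4 a6) × EK a4 a6, (x : Amb a4 a6 p _ 0) = s ∧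
    (∀ (σ : Gk k) (σ' : Ω ≃ₐ[(RatFunc k)⟮δ⟯] Ω), (∀ y, j (σ' y) = σ (j y)) →
      x.1 σ = Point.map (W' := (Ew a4 a6).toAffine) j (c σ')) ∧
    p ^ n • x.2 = Point.map (W' := (Ew a4 a6).toAffine) j Q

variable {j : Ω →ₐ[RatFunc k] Kb k} {δ : Ω}
  {c c' : (Ω ≃ₐ[(RatFunc k)⟮δ⟯] Ω) → Pts (Ew a4 a6) Ω} {Q Q' : Pts (Ew a4 a6) Ω} {n n' : ℕ}
  {s s' : Amb a4 a6 p (MulAction.stabilizer (Gk k) (j δ)) 0}

theorem cor_zero : Cor p a4 a6 j δ 0 0 0 0 := ⟨0, rfl, fun _ _ _ => by simp, by simp⟩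

theorem Cor.add (h : Cor p a4 a6 j δ c Q n s) (h' : Cor p a4 a6 j δ c' Q' n' s') :
    Cor p a4 a6 j δ (c + c') (p ^ n' • Q + p ^ n • Q') (n + n') (s + s') := by
  obtain ⟨x, rfl, h1, h2⟩ := h
  obtain ⟨x', rfl, h3, h4⟩ := h'
  refine ⟨x + x', rfl, fun σ σ' e => ?_, ?_⟩
  · rw [Prod.fst_add, Pi.add_apply, Pi.add_apply, h1 σ σ' e, h3 σ σ' e, map_add]
  · rw [Prod.snd_add, smul_add, pow_add, mul_nsmul, mul_nsmul', h2, h4, map_add, map_nsmul, map_nsmul]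

theorem Cor.sub (h : Cor p a4 a6 j δ c Q n s) (h' : Cor p a4 a6 j δ c' Q' n' s') :
    Cor p a4 a6 j δ (c - c') (p ^ n' • Q - p ^ n • Q') (n + n') (s - s') := by
  obtain ⟨x, rfl, h1, h2⟩ := h
  obtain ⟨x', rfl, h3, h4⟩ := h'
  refine ⟨x - x', rfl, fun σ σ' e => ?_, ?_⟩
  · rw [Prod.fst_sub, Pi.sub_apply, Pi.sub_apply, h1 σ σ' e, h3 σ σ' e, map_sub]
  · rw [Prod.snd_sub, smul_sub, pow_add, mul_nsmul, mul_nsmul', h2, h4, map_sub, map_nsmul, map_nsmul]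

variable (hj : ∀ x, x ∈ Om (RatFunc k) (Kb k) ↔ ∃ y, j y = x)
include hj

theorem j_res (σ : Gk k) : ∃ σ' : Ω ≃ₐ[RatFunc k] Ω, ∀ y, j (σ' y) = σ (j y) :=
  ShaFF.exists_res j σ

theorem j_lift (σ' : Ω ≃ₐ[RatFunc k] Ω) : ∃ σ : Gk k, ∀ y, j (σ' y) = σ (j y) := by
  let _ : Algebra Ω (Kb k) := j.toRingHom.toAlgebra
  have : IsScalarTower (RatFunc k) Ω (Kb k) := .of_algebraMap_eq fun x => (j.commutes x).symm
  exact ⟨σ'.liftNormal (Kb k), fun y => (σ'.liftNormal_commutes (Kb k) y).symm⟩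

theorem j_resH {σ : Gk k} (hσ : σ (j δ) = j δ) :
    ∃ σ' : Ω ≃ₐ[(RatFunc k)⟮δ⟯] Ω, ∀ y, j (σ' y) = σ (j y) := by
  obtain ⟨τ, hτ⟩ := j_res hj σ
  have h : (RatFunc k)⟮δ⟯ ≤ IntermediateField.fixedField (MulAction.stabilizer (Ω ≃ₐ[RatFunc k] Ω) δ) :=
    IntermediateField.adjoin_simple_le_iff.2 ((IntermediateField.mem_fixedField_iff _ _).2 fun _ h => h)
  exact ⟨{ τ.toRingEquiv with
    commutes' := fun x => (IntermediateField.mem_fixedField_iff _ _).1 (h x.2) τ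
      (j.injective ((hτ δ).trans hσ)) }, hτ⟩

theorem Hy.lev0_iff (h : Hy p a4 a6) (P : EK a4 a6) :
    P ∈ LG a4 a6 p 0 ↔ ∃ P0, Point.map (W' := (Ew a4 a6).toAffine) j P0 = P := by
  refine ⟨fun hP => ?_, fun ⟨P0, e⟩ => e ▸ BrgA_lev j (fun y => (hj _).2 ⟨y, rfl⟩) P0⟩
  rw [mem_lev h.ord_Kb.sw (pk_om a4), pow_zero, pow_one, pow_one, hj, hj] at hP
  rcases P with _ | ⟨x, y, hn⟩
  · exact ⟨0, rfl⟩
  · obtain ⟨⟨x, rfl : j x = _⟩, y, rfl : j y = _⟩ := hP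
    exact ⟨.some x y ((baseChange_nonsingular (W := (Ew a4 a6).toAffine) j.injective x y).1 hn), rfl⟩

theorem Hy.cor_ex (h : Hy p a4 a6) (hc : InSelP p (Ew a4 a6) c Q n) :
    ∃ s ∈ Sel a4 a6 p _ 0, Cor p a4 a6 j δ c Q n s := by
  obtain ⟨ξ, hξ⟩ : ∃ ξ : Gk k → EK a4 a6, ∀ (σ : Gk k) (σ' : Ω ≃ₐ[(RatFunc k)⟮δ⟯] Ω),
      (∀ y, j (σ' y) = σ (j y)) → ξ σ = Point.map (W' := (Ew a4 a6).toAffine) j (c σ') :=
    ⟨fun σ => if e : σ (j δ) = j δ then
      Point.map (W' := (Ew a4 a6).toAffine) j (c (j_resH hj e).choose) else 0, fun σ σ' e => by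
      have e' := BrgA_stab e
      simp only [dif_pos e']
      rw [show (j_resH hj e').choose = σ' from
        AlgEquiv.ext fun y => j.injective (((j_resH hj e').choose_spec y).trans (e y).symm)]⟩
  obtain ⟨Q', hQ⟩ : ∃ Q', p ^ n • Q' = Point.map (W' := (Ew a4 a6).toAffine) j Q := by
    clear hc
    induction n with
    | zero => exact ⟨_, one_smul _ _⟩
    | succ n ih =>
      obtain ⟨P, hP⟩ := ih
      obtain ⟨P', rfl⟩ := h.ord_Kb.divp P
      exact ⟨P', by rw [pow_succ, mul_smul, hP]⟩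
  have : Algebra.IsIntegral (RatFunc k)⟮δ⟯ Ω := Algebra.IsIntegral.tower_top (R := RatFunc k)
  have := IntermediateField.adjoin.finiteDimensional (Algebra.IsIntegral.isIntegral (R := RatFunc k) δ)
  obtain ⟨S, hS⟩ := hc.1.1.fin
  refine ⟨_, ⟨(ξ, Q'), ⟨fun σ hσ => ?_, fun σ hσ τ hτ => ?_, ⟨S.image j, fun σ hσ e => ?_⟩,
    ⟨n, fun σ hσ => ?_⟩, fun v j' => ?_⟩, rfl⟩, (ξ, Q'), rfl, hξ, hQ⟩
  · obtain ⟨σ', e⟩ := j_resH hj hσ
    exact (h.lev0_iff hj _).2 ⟨_, (hξ σ σ' e).symm⟩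
  · obtain ⟨σ', e⟩ := j_resH hj hσ
    obtain ⟨τ', e'⟩ := j_resH hj hτ
    simp only
    rw [hξ (σ * τ) (σ' * τ') fun y => (e (τ' y)).trans (congrArg σ (e' y)), hξ σ σ' e, hξ τ τ' e', hc.1.1.2,
      map_add, map_act j e]
  · obtain ⟨σ', e'⟩ := j_resH hj hσ
    simp only
    rw [hξ σ σ' e', hS σ' fun y hy =>
      j.injective ((e' y).trans (e _ (Finset.mem_image_of_mem j hy))), map_zero]
  · obtain ⟨σ', e⟩ := j_resH hj hσ
    simp only
    rw [hξ σ σ' e, smul_sub, smul_sub, ← map_nsmul, ← map_nsmul, hQ, hc.2, map_sub, map_act j e,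
      sub_self]
  let Λ := separableClosure (Lv v) (Lb v)
  have hm : ∀ y, (j'.comp j : Ω →+* Lb v) y ∈ Λ := fun y =>
    om_map (algebraMap (RatFunc k) (Lv v)) (j' : Kb k →+* Lb v) j'.commutes ((hj _).2 ⟨y, rfl⟩)
  let ι : Ω →ₐ[RatFunc k] Λ := { (j'.comp j : Ω →+* Lb v).codRestrict Λ hm with
    commutes' := fun a => Subtype.ext ((j'.comp j).commutes a) }
  let κ : Λ →ₐ[RatFunc k] Lb v := Λ.val.restrictScalars _
  obtain ⟨a, a0, a1⟩ := av_nontriv v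
  obtain ⟨P, hP⟩ := loc_split (K := RatFunc k) (L := Lv v) hc.1 ⟨a, a0, by rwa [norm_alg]⟩ ι
    ι.commutes
  refine ⟨Point.map (W' := (Ew a4 a6).toAffine) κ P, BrgA_lev κ (fun y => y.2) P,
    fun τ σ hσ e => ?_⟩
  obtain ⟨σ', e'⟩ := j_resH hj hσ
  obtain ⟨τ', f⟩ := ShaFF.exists_res Λ.val τ
  simp only
  rw [hξ σ σ' e', ← map_act κ f, ← map_sub, ← hP τ' σ' fun y => Subtype.ext
    ((congrArg j' (e' y)).trans ((e _).trans (f (ι y)).symm)), em, map_map_eq, map_map_eq]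
  rfl

theorem Hy.cor_same (h : Hy p a4 a6) (h1 : Cor p a4 a6 j δ c Q n s)
    (h2 : Cor p a4 a6 j δ c' Q' n' s) : SameSel p (Ew a4 a6) c Q n c' Q' n' := by
  obtain ⟨x, rfl, a1, a2⟩ := h1
  obtain ⟨x', e, b1, b2⟩ := h2
  obtain ⟨P, hP, c1, m, c2⟩ := QuotientAddGroup.eq_iff_sub_mem.1 e.symm
  obtain ⟨P, rfl⟩ := (h.lev0_iff hj P).1 hP
  refine ⟨P, m, fun σ' => Point.map_injective (W' := (Ew a4 a6).toAffine) j ?_,
    Point.map_injective (W' := (Ew a4 a6).toAffine) j ?_⟩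
  · obtain ⟨σ, f⟩ := j_lift hj (σ'.restrictScalars (RatFunc k))
    rw [map_sub, map_sub, ← a1 σ σ' f, ← b1 σ σ' f, map_act j (σ := σ') f]
    exact c1 σ (BrgA_stab f)
  · rw [map_nsmul, map_sub, map_sub, map_nsmul, map_nsmul, map_nsmul, ← a2, ← b2, ← mul_nsmul,
      ← mul_nsmul', ← pow_add, ← smul_sub, ← smul_sub, smul_comm, map_zero]
    exact (congrArg _ c2).trans (smul_zero _)

theorem Cor.uniq (h1 : Cor p a4 a6 j δ c Q n s) (h2 : Cor p a4 a6 j δ c Q n s') : s = s' := by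
  obtain ⟨x, rfl, a1, a2⟩ := h1
  obtain ⟨x', rfl, b1, b2⟩ := h2
  refine QuotientAddGroup.eq_iff_sub_mem.2 ⟨0, zero_mem _, fun σ hσ => ?_, n, ?_⟩
  · obtain ⟨σ', e⟩ := j_resH hj hσ
    rw [Prod.fst_sub, Pi.sub_apply, a1 σ σ' e, b1 σ σ' e, map_zero, sub_self, sub_self]
  · rw [sub_zero, Prod.snd_sub, smul_sub, a2, b2, sub_self]

end Pool.Agent.ASel
end

-- merged part: Pool.Agent.Work.MP_60d5ce_nt.AS.FinK
section
/-!
# Finiteness of the classes of cocycles over `k(t)` with bounded local conditions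

PLAN.  Enlarge `S` so that it contains `∞`, the zeros of `A` and the poles of `ϖ` (`fin_zeros`, `fin_poles`).
Given `(a, w)` let `T` be `S` together with the poles of `a` and `w`; `pf_many` gives `y` within `1` of the local
`y_v`, `v ∈ T`, and integral outside `T`.  Then `a' = a - ℘ y`, `w' = w + (y ^ p / A) ϖ` are integral outside `S`,
`a'` is bounded on `S`, `(a', w')` is again a cocycle (`cK_frob`, `hϖ`), so `w'` is bounded on `S` (`ca_bound`,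
`alg_cK`).  `card_ball`, `card_bounded`.
-/

namespace Pool.Agent.ASel

open Polynomial Pool.Agent.Smith

open Classical in
theorem FinK_fin {k : Type} [Field k] [Fintype k] (S : Finset (Pl k)) (n : ℕ) :
    {y : RatFunc k | ∀ v : Pl k, ‖algebraMap _ (Lv v) y‖ ≤ if v ∈ (S : Set (Pl k)) then 2 ^ n else 1}.Finite := by
  choose T _ hT using fun v : Pl k => card_ball v n
  obtain ⟨Y, -, hY⟩ := card_bounded S T
  exact Y.finite_toSet.subset fun y hy => hY y (fun v hv => hT v _ ((hy v).trans_eq (if_pos hv)))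
    fun v hv => (norm_alg v y).ge.trans ((hy v).trans_eq (if_neg hv))

theorem fin_K {k : Type} [Field k] {p : ℕ} [Fintype k] [Fact p.Prime] [CharP k p] {A : k[X]}
    (hA : A ≠ 0) {ϖ : RatFunc k} (hϖ : cK p (ϖ / pk _ A ^ 2) = ϖ) (S : Finset (Pl k)) (n : ℕ) :
    ∃ Y : Set (RatFunc k × RatFunc k), Y.Finite ∧ ∀ a w : RatFunc k,
      w - cK p (w / pk _ A) + a * ϖ = 0 →
      (∀ v ∈ S, ∃ y : Lv v, ‖algebraMap _ _ a - (y ^ p / pk _ A - y)‖ ≤ 2 ^ n) →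
      (∀ v ∉ S, ∃ y : Lv v, ‖algebraMap _ _ a - (y ^ p / pk _ A - y)‖ ≤ 1 ∧
        ‖algebraMap _ _ w + y ^ p / pk _ A * algebraMap (RatFunc k) _ ϖ‖ ≤ 1) →
      ∃ y : RatFunc k, (a - (y ^ p / pk _ A - y), w + y ^ p / pk _ A * ϖ) ∈ Y := by
  classical
  have hA' : pk (RatFunc k) A ≠ 0 := PF_ne hA
  have hL : ∀ v : Pl k, algebraMap _ (Lv v) (pk (RatFunc k) A) = pk (Lv v) A := fun _ => rfl
  have hL0 : ∀ v : Pl k, pk (Lv v) A ≠ 0 := fun v => hL v ▸ (_root_.map_ne_zero _).2 hA'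
  set R : Finset (Pl k) := S ∪ (fin_zeros hA').toFinset ∪ (fin_poles ϖ).toFinset with hR
  have h1 : ∀ v ∉ R, v ∉ S ∧ ‖pk (Lv v) A‖ = 1 ∧ ‖algebraMap _ (Lv v) ϖ‖ ≤ 1 := fun v hv => by
    rw [← hL, norm_alg, norm_alg]
    simpa [hR, and_assoc] using hv
  obtain ⟨N, hn, hN⟩ : ∃ N, n ≤ N ∧ ∀ v ∈ R, ‖pk (Lv v) A‖⁻¹ ≤ 2 ^ N ∧
      ‖algebraMap _ (Lv v) ϖ‖ ≤ 2 ^ N := by
    obtain ⟨B, hB⟩ := (R.finite_toSet.image fun v =>
      max ‖pk (Lv v) A‖⁻¹ ‖algebraMap _ (Lv v) ϖ‖).bddAbove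
    obtain ⟨m, hm⟩ := pow_unbounded_of_one_lt B (one_lt_two (α := ℝ))
    exact ⟨max n m, le_max_left _ _, fun v hv => max_le_iff.1 ((hB (Set.mem_image_of_mem _ hv)).trans
      (hm.le.trans (pow_le_pow_right₀ one_le_two (le_max_right _ _))))⟩
  refine ⟨_, (FinK_fin R N).prod (FinK_fin R (2 * N + 2)), fun a w h hS hS' => ?_⟩
  have b1 : (1 : ℝ) ≤ 2 ^ N := one_le_pow₀ one_le_two
  have ex : ∀ v : Pl k, ∃ y : Lv v, ‖algebraMap _ _ a - (y ^ p / pk _ A - y)‖ ≤ 2 ^ N ∧ (v ∉ S →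
      ‖algebraMap _ _ a - (y ^ p / pk _ A - y)‖ ≤ 1 ∧
        ‖algebraMap _ _ w + y ^ p / pk _ A * algebraMap (RatFunc k) _ ϖ‖ ≤ 1) := fun v => by
    by_cases hv : v ∈ S
    · exact (hS v hv).imp fun y hy =>
        ⟨hy.trans (pow_le_pow_right₀ one_le_two hn), fun h => absurd hv h⟩
    · exact (hS' v hv).imp fun y hy => ⟨hy.1.trans b1, fun _ => hy⟩
  choose x hx hx' using ex
  obtain ⟨y, hy, hy', -⟩ := pf_many (R ∪ (fin_poles a).toFinset) x
  have h2 : ∀ v, ‖x v - algebraMap _ _ y‖ ≤ 1 := fun v => by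
    by_cases hv : v ∈ R ∪ (fin_poles a).toFinset
    · exact hy v hv
    have h3 := hv
    rw [Finset.mem_union, not_or, Set.Finite.mem_toFinset, Set.mem_ofPred_eq, not_lt, ← norm_alg] at h3
    have h4 := PF_sub h3.2 (hx' v (h1 v h3.1).1).1
    rw [sub_sub_cancel] at h4
    exact PF_sub (wp_int (Wp_na v) (h1 v h3.1).2.1 h4) ((norm_alg v y).trans_le (hy' v hv))
  have h3 : ∀ v, ‖(x v - algebraMap _ _ y) ^ p / pk _ A‖ ≤ ‖pk (Lv v) A‖⁻¹ := fun v => by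
    rw [norm_div, norm_pow, ← one_div]
    gcongr
    exact pow_le_one₀ (norm_nonneg _) (h2 v)
  have h4 : ∀ v : Pl k, ‖algebraMap _ (Lv v) (a - (y ^ p / pk _ A - y))‖ ≤
      if v ∈ (R : Set (Pl k)) then 2 ^ N else 1 := fun v => by
    rw [map_sub, map_sub, map_div₀, map_pow, hL, ← sub_add_sub_cancel _ (x v ^ p / pk _ A - x v),
      ← Wp_sub]
    split_ifs with hv
    · exact PF_add (hx v) (PF_sub ((h3 v).trans (hN v hv).1) ((h2 v).trans b1))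
    · exact PF_add (hx' v (h1 v hv).1).1
        (PF_sub ((h3 v).trans_eq (by rw [(h1 v hv).2.1, inv_one])) (h2 v))
  refine ⟨y, h4, fun v => ?_⟩
  dsimp only
  split_ifs with hv
  · have e : w + y ^ p / pk _ A * ϖ - cK p ((w + y ^ p / pk _ A * ϖ) / pk _ A) =
        -((a - (y ^ p / pk _ A - y)) * ϖ) := by
      rw [add_div, show y ^ p / pk _ A * ϖ / pk _ A = y ^ p * (ϖ / pk _ A ^ 2) by ring, map_add,
        cK_frob, hϖ]
      linear_combination h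
    have e' := congrArg (algebraMap _ (Lv v)) e
    rw [map_sub, alg_cK, map_div₀, hL, map_neg, map_mul (algebraMap _ (Lv v)) (a - _)] at e'
    have u : 2⁻¹ ≤ ‖uL v‖ ∧ ‖uL v‖ ≤ 2 := by
      rw [Wp_uL]
      split_ifs <;> norm_num
    have h5 := ca_bound (p := p) (B := 2 * (2 ^ N * 2 ^ N)) (hL0 v) (by nlinarith)
      ((hN v hv).1.trans (by nlinarith)) (by
        rw [e', norm_mul, norm_neg, norm_mul]
        gcongr
        exacts [u.2, (h4 v).trans_eq (if_pos hv), (hN v hv).2])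
    rw [norm_mul] at h5
    rw [pow_add, two_mul, pow_add]
    nlinarith [norm_nonneg (algebraMap _ (Lv v) (w + y ^ p / pk _ A * ϖ))]
  · have e : algebraMap _ (Lv v) (w + y ^ p / pk _ A * ϖ) = algebraMap _ _ w + x v ^ p / pk _ A *
        algebraMap _ _ ϖ - (x v - algebraMap _ _ y) ^ p / pk _ A * algebraMap _ _ ϖ := by
      rw [map_add, map_mul, map_div₀, map_pow, hL, sub_pow_char]
      ring
    rw [e]
    refine PF_sub (hx' v (h1 v hv).1).2 ?_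
    rw [norm_mul]
    exact mul_le_one₀ ((h3 v).trans_eq (by rw [(h1 v hv).2.1, inv_one])) (norm_nonneg _)
      (h1 v hv).2.2

end Pool.Agent.ASel
end

-- merged part: Pool.Agent.Work.MP_60d5ce_nt.AS.Kon
section
/-!
# Finiteness lemmas for primary abelian groups

`fin_of_nil`: induction on `n` for the sets `{s ∈ S | f^[n] s = 0}`.  `pi_nil`: binomial formula in the ring
`AddMonoid.End G`.  The sets `p ^ m S ∩ S[p]` decrease in a finite set, so `p ^ m S = p ^ (m + 1) S` for some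
`m` (`Kon_stab`).  This gives `konig`, and `S = S[p ^ m] + p S`, hence `coker_fin`: `p x = (p x - N x) + N x`,
and `p x - N x` lies in the finite group `S ∩ ker N`.
-/

namespace Pool.Agent.ASel

variable {G : Type} [AddCommGroup G]

theorem Kon_fin (S : AddSubgroup G) (f : G →+ G) (hS : ∀ s ∈ S, f s ∈ S)
    (hf : {s | s ∈ S ∧ f s = 0}.Finite) (n : ℕ) : {s | s ∈ S ∧ f^[n] s = 0}.Finite := by
  induction n with
  | zero => exact (Set.finite_singleton 0).subset fun s h => h.2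
  | succ n ih =>
    refine Set.Finite.of_finite_fibers f (ih.subset ?_) ?_
    · rintro _ ⟨s, h, rfl⟩
      exact ⟨hS s h.1, h.2⟩
    · rintro _ ⟨s, h, rfl⟩
      refine (hf.image (· + s)).subset fun t ht => ⟨t - s, ⟨S.sub_mem ht.1.1 h.1, ?_⟩, by simp⟩
      rw [map_sub, sub_eq_zero]
      exact ht.2

theorem Kon_pow (p : ℕ) (S : AddSubgroup G) (h2 : {s | s ∈ S ∧ p • s = 0}.Finite) (n : ℕ) :
    {s | s ∈ S ∧ p ^ n • s = 0}.Finite :=
  (Kon_fin S (nsmulAddMonoidHom p) (fun _ h => S.nsmul_mem h p) h2 n).subset fun s h =>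
    ⟨h.1, (smul_iterate_apply p n s).trans h.2⟩

theorem Kon_stab (p : ℕ) (S : AddSubgroup G) (h1 : ∀ s ∈ S, ∃ m : ℕ, p ^ m • s = 0)
    (h2 : {s | s ∈ S ∧ p • s = 0}.Finite) :
    ∃ m : ℕ, ∀ s ∈ S, ∃ t ∈ S, p ^ m • s = p ^ m • p • t := by
  obtain ⟨m, hm⟩ : ∃ m : ℕ, ∀ x ∈ {s | s ∈ S ∧ p • s = 0},
      (∃ t ∈ S, p ^ m • t = x) → ∀ j : ℕ, ∃ t ∈ S, p ^ j • t = x := by
    refine ((Filter.eventually_all_finite h2).2 fun x _ => ?_ :
      ∀ᶠ m : ℕ in Filter.atTop, _).exists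
    by_cases h : ∀ j : ℕ, ∃ t ∈ S, p ^ j • t = x
    · exact Filter.Eventually.of_forall fun _ _ => h
    · obtain ⟨j, hj⟩ := not_forall.1 h
      filter_upwards [Filter.eventually_ge_atTop j] with m hm ⟨t, ht, e⟩
      refine absurd ⟨p ^ (m - j) • t, S.nsmul_mem ht _, ?_⟩ hj
      rw [smul_smul, ← pow_add, Nat.add_sub_cancel' hm, e]
  have key : ∀ k : ℕ, ∀ s ∈ S, p ^ k • p ^ m • s = 0 → ∃ t ∈ S, p ^ m • s = p ^ m • p • t := by
    intro k
    induction k with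
    | zero => exact fun s _ h => ⟨0, S.zero_mem, by simpa using h⟩
    | succ k ih =>
      intro s hs h
      obtain ⟨t', ht', e⟩ := hm (p ^ k • p ^ m • s) ⟨S.nsmul_mem (S.nsmul_mem hs _) _,
        by rw [← h, pow_succ', mul_smul]⟩ ⟨p ^ k • s, S.nsmul_mem hs _, smul_comm _ _ _⟩ (k + m + 1)
      obtain ⟨t, ht, e'⟩ := ih (s - p • t') (S.sub_mem hs (S.nsmul_mem ht' _))
        (by rw [smul_sub, smul_sub, ← e, pow_succ, pow_add, mul_smul, mul_smul, sub_self])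
      exact ⟨t + t', S.add_mem ht ht', by rw [smul_add, smul_add, ← e', smul_sub, sub_add_cancel]⟩
  refine ⟨m, fun s hs => ?_⟩
  obtain ⟨k, hk⟩ := h1 _ (S.nsmul_mem hs (p ^ m))
  exact key k s hs hk

theorem fin_of_nil (S : AddSubgroup G) (f : G →+ G) (hS : ∀ s ∈ S, f s ∈ S) (n : ℕ)
    (h0 : ∀ s ∈ S, f^[n] s = 0) (hf : {s | s ∈ S ∧ f s = 0}.Finite) : (S : Set G).Finite :=
  (Kon_fin S f hS hf n).subset fun s h => ⟨h, h0 s h⟩

theorem pi_nil {p : ℕ} (hp : p.Prime) (g : G →+ G) {s : G} (h0 : p • s = 0) (h1 : g^[p] s = s) :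
    (g - AddMonoidHom.id G : G →+ G)^[p] s = 0 := by
  obtain ⟨r, hr⟩ := Commute.exists_add_pow_prime_eq hp
    (Commute.neg_one_right (show AddMonoid.End G from g))
  have h2 : ∀ (f : AddMonoid.End G) (n : ℕ), f^[n] s = (f ^ n) s := fun f n => by
    rw [AddMonoid.End.coe_pow]
  have h3 : ∀ f : AddMonoid.End G, ((p : AddMonoid.End G) * f) s = 0 := fun f => by
    rw [← nsmul_eq_mul]
    exact (map_nsmul f p s).symm.trans (by rw [h0, map_zero])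
  refine (h2 ((show AddMonoid.End G from g) - 1) p).trans ?_
  rw [sub_eq_add_neg, hr, mul_assoc, mul_assoc]
  refine (congrArg₂ (· + ·) (congrArg (· + _) ((h2 g p).symm.trans h1)) (h3 _)).trans ?_
  rcases hp.eq_two_or_odd' with rfl | h
  · rw [neg_one_sq, add_zero]
    exact (two_nsmul s).symm.trans h0
  · rw [h.neg_one_pow, add_zero]
    exact add_neg_cancel s

theorem konig (p : ℕ) (S : AddSubgroup G) (h1 : ∀ s ∈ S, ∃ m : ℕ, p ^ m • s = 0)
    (h2 : {s | s ∈ S ∧ p • s = 0}.Finite)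
    (h3 : ∀ u : ℕ → G, u 0 = 0 → (∀ n, u n ∈ S ∧ p • u (n + 1) = u n) → u = 0) :
    (S : Set G).Finite := by
  obtain ⟨m, hm⟩ := Kon_stab p S h1 h2
  choose! T hT hT' using hm
  have h4 : ∀ s ∈ S, p • p ^ m • s = 0 → p ^ m • s = 0 := fun s hs h => by
    have h5 : ∀ n, T^[n] s ∈ S := fun n => by
      induction n with
      | zero => exact hs
      | succ n ih => exact Function.iterate_succ_apply' T n s ▸ hT _ ih
    refine congrFun (h3 (fun n => Nat.rec 0 (fun n _ => p ^ m • T^[n] s) n) rfl fun n => ?_) 1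
    cases n with
    | zero => exact ⟨S.zero_mem, h⟩
    | succ n =>
      refine ⟨S.nsmul_mem (h5 n) _, ?_⟩
      show p • p ^ m • T^[n + 1] s = p ^ m • T^[n] s
      rw [Function.iterate_succ_apply', hT' _ (h5 n), smul_comm]
  refine (Kon_pow p S h2 m).subset fun s hs => ⟨hs, ?_⟩
  obtain ⟨k, hk⟩ := h1 _ (S.nsmul_mem hs (p ^ m))
  induction k with
  | zero => simpa using hk
  | succ k ih =>
    refine ih ((smul_comm _ _ _).trans (h4 _ (S.nsmul_mem hs _) ?_))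
    rw [← hk, pow_succ', mul_smul, smul_comm (p ^ m)]

theorem coker_fin (p : ℕ) (S : AddSubgroup G) (N : G →+ G) (hN : ∀ s ∈ S, N s ∈ S)
    (hNN : ∀ s ∈ S, N (N s) = p • N s) (h1 : ∀ s ∈ S, ∃ m : ℕ, p ^ m • s = 0)
    (h2 : {s | s ∈ S ∧ p • s = 0}.Finite)
    (h3 : ∀ u : ℕ → G, u 0 = 0 → (∀ n, u n ∈ S ∧ p • u (n + 1) = u n ∧ N (u n) = 0) → u = 0) :
    ∃ Y : Set G, Y.Finite ∧ Y ⊆ S ∧ ∀ s ∈ S, ∃ y ∈ Y, ∃ x ∈ S, s = y + N x := by
  obtain ⟨m, hm⟩ := Kon_stab p S h1 h2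
  have hK := konig p (S ⊓ N.ker) (fun s h => h1 s h.1) (h2.subset fun s h => ⟨h.1.1, h.2⟩)
    fun u h0 hu => h3 u h0 fun n => ⟨(hu n).1.1, (hu n).2, (hu n).1.2⟩
  refine ⟨_, Set.Finite.image2 (· + ·) (Kon_pow p S h2 m) hK, ?_, fun s hs => ?_⟩
  · rintro _ ⟨a, ha, b, hb, rfl⟩
    exact S.add_mem ha.1 hb.1
  · obtain ⟨t, ht, e⟩ := hm s hs
    refine ⟨_, ⟨s - p • t, ⟨S.sub_mem hs (S.nsmul_mem ht _), by rw [smul_sub, e, sub_self]⟩,
      p • t - N t, ⟨S.sub_mem (S.nsmul_mem ht _) (hN t ht), ?_⟩, rfl⟩, t, ht, by simp⟩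
    show N (p • t - N t) = 0
    rw [map_sub, map_nsmul, hNN t ht, sub_self]

end Pool.Agent.ASel
end

-- merged part: Pool.Agent.Work.MP_60d5ce_nt.AG.SelF
section
/-!
# The `p`-torsion of the Selmer group over `K(δ)` is finite

PLAN.  `H` is the stabiliser of `w0`; `KH H = K1`, `LH H v j = L1 v j` (`exists_rst`), `K2` is `k(t)` (`om_fix`).
`k1_noT`: `y = m l` with `l ^ (p-1) = A` (`wp_ker`); if `y ≠ 0`, `σ y = m' y` and `σ ^ p` fixes `y`, so `σ y = y`,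
against `nsq`.  `sel_fix`: `κ s = (a, w)`; by `Kap.act`, `kap_sub`, `kap_uniq`, `(π a, π w)` is the coboundary of some
`y ∈ K1`; `π ^ (p-1) y = 0` (`k1_noT`), `y = π y'` (`k1_h90`), use `kap_cob` with `-y'`.  `sel_fin0`: `fin_K` with
`S` = `∞` and the primes of `F b`.  On `S0`: `kap_et0`, `desc_unr`, `l2_split`; at primes of `b`: `kap_et1`,
`desc_anom` (`‖t‖ ≤ 1`, `|d| ≤ 2`) or `desc_na`; elsewhere `kap_good` (`I0` fixes `j w0`: `wp_int` with `A = 1`,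
`i0_small`, `fp_small`) and `desc_unr` with `C = 1`, `vp_int`.  The map to `Y` is injective by `kap_sub`,
`kap_ker`.  `sel_fin`: `fin_of_nil`, `pi_nil` (`σ0 ^ p ∈ H`, `acA_triv`).
-/

namespace Pool.Agent.ASel

open Polynomial Pool.Agent.Smith Pool.Agent.ShaAsc
open scoped Classical

variable {k : Type} [Field k] {p : ℕ} [Fintype k] [hp : Fact p.Prime] [CharP k p] {a4 a6 b F : k[X]}

theorem Hy.k1_noT (h : Hy p a4 a6) {ι : Type} {Φ : ASF p k ι} {y : Kb k} (hy : Φ.K1 y)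
    (h0 : y ^ p / pk _ (hasseInv p a4 a6) - y = 0) : y = 0 := by
  by_contra y0
  have hA : pk (Kb k) (hasseInv p a4 a6) ≠ 0 :=
    (_root_.map_ne_zero (algebraMap (RatFunc k) (Kb k))).2 (RatFunc.algebraMap_ne_zero h.A_ne)
  have hl : y ^ (p - 1) = algebraMap (RatFunc k) (Kb k) (pk _ (hasseInv p a4 a6)) := by
    rw [sub_eq_zero, div_eq_iff hA, Wp_pow y] at h0
    exact mul_left_cancel₀ y0 h0
  obtain ⟨a, ha⟩ := om_fix hy.1 fun σ => by
    obtain ⟨m, hm⟩ := LatE_l hl y0 σ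
    have h3 : ∀ n : ℕ, (σ ^ n) y = m ^ n * y := fun n => by
      induction n with
      | zero => simp
      | succ n ih => rw [pow_succ', AlgEquiv.mul_apply, ih, map_mul, map_pow, map_natCast, hm,
          pow_succ, mul_assoc]
    have h4 : ∀ x : Kb k, (∃ n : ℕ, σ x = x + n) → (σ ^ p) x = x := fun x ⟨n, hn⟩ => by
      rw [LatE_it hn (map_natCast σ n), CharP.cast_eq_zero, zero_mul, add_zero]
    have h5 := hy.2 (σ ^ p) (h4 _ (Φ.move0 σ)) fun l => h4 _ (Φ.move σ l)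
    rwa [h3, LatE_nat, ← hm] at h5
  exact h.nsq a ((algebraMap (RatFunc k) (Kb k)).injective (by rw [map_pow, ha, hl]))

theorem SelF_neg {M : Type} [Field M] [CharP M p] (y : M) : (-y) ^ p = -y ^ p := by
  rw [← zero_sub, sub_pow_char, zero_pow hp.out.ne_zero, zero_sub]

theorem SelF_cob (h : Hy p a4 a6) {H : Subgroup (Gk k)} {n : ℕ} {s : Amb a4 a6 p H n} {a w y : Kb k}
    (hs : Kap a4 a6 p H n s a w) (hy : KH H y) :
    Kap a4 a6 p H n s (a - (y ^ p / pk _ (hasseInv p a4 a6) - y))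
      (w + y ^ p / pk _ (hasseInv p a4 a6) * algebraMap _ _ (vpk a4 a6 p n)) := by
  have e := h.kap_cob (y := -y) hs ⟨neg_mem hy.1, fun σ hσ => by rw [map_neg, hy.2 σ hσ]⟩
  rwa [SelF_neg, neg_div, neg_mul, ← neg_sub', ← sub_eq_add_neg, sub_neg_eq_add] at e

omit [Fintype k] hp [CharP k p] in
theorem SelF_KH {Φ : ASF p k Empty} {x : Kb k} :
    KH (MulAction.stabilizer (Gk k) Φ.w0) x ↔ Φ.K1 x :=
  and_congr_right fun _ => ⟨fun h σ e _ => h σ e, fun h σ e => h σ e fun l => l.elim⟩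

omit [Fintype k] hp [CharP k p] in
theorem SelF_LH {Φ : ASF p k Empty} {v : Pl k} {j : Kb k →ₐ[RatFunc k] Lb v} {y : Lb v}
    (h : LH (MulAction.stabilizer (Gk k) Φ.w0) v j y) : Φ.L1 v j y := by
  obtain ⟨ρ, hρ⟩ := exists_rst v j
  exact ⟨h.1, fun τ e _ => h.2 τ (ρ τ) (j.injective ((hρ τ _).trans e)) (hρ τ)⟩

omit [Fintype k] hp [CharP k p] in
theorem SelF_K2 {Φ : ASF p k Empty} (a : RatFunc k) : Φ.K2 (algebraMap _ _ a) :=
  ⟨om_alg a, fun σ _ => σ.commutes a⟩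

omit [Fintype k] hp [CharP k p] in
theorem SelF_L2 {Φ : ASF p k Empty} {v : Pl k} {j : Kb k →ₐ[RatFunc k] Lb v} {y : Lb v}
    (h : Φ.L2 v j y) : ∃ y0 : Lv v, algebraMap _ _ y0 = y :=
  om_fix h.1 fun τ => h.2 τ fun l => l.elim

theorem SelF_opn (h : Hy p a4 a6) (Φ : ASF p k Empty) :
    Opn a4 a6 p (MulAction.stabilizer (Gk k) Φ.w0) :=
  h.opn {Φ.w0} (fun y hy => ⟨Φ.d, by rw [Finset.mem_singleton.1 hy, Φ.hw0]⟩)
    fun σ hσ => hσ _ (Finset.mem_singleton_self _)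

omit [Fintype k] in
theorem SelF_nm {v : Pl k} (j : Kb k →ₐ[RatFunc k] Lb v) (A : k[X]) (a : RatFunc k) (y : Lv v) :
    ‖algebraMap _ _ a - (y ^ p / pk _ A - y)‖ = nm v (j (algebraMap _ _ a) -
      (algebraMap _ (Lb v) y ^ p / pk _ A - algebraMap _ (Lb v) y)) := by
  rw [j.commutes, LatE_alg, LatE_pk, ← map_pow, ← map_div₀, ← map_sub, ← map_sub, nm_alg]

omit [Fintype k] in
theorem SelF_step {v : Pl k} {A x y y0 : Lb v} {C : ℝ} (hC : 1 ≤ C)
    (h : nm v (x - (y ^ p / A - y)) ≤ C) (h0 : nm v (y - y0) ≤ C) :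
    nm v (x - (y0 ^ p / A - y0)) ≤ C + C ^ p / nm v A := by
  have h1 : 0 ≤ C ^ p / nm v A := div_nonneg (by positivity) ((nm v).nonneg _)
  rw [show x - (y0 ^ p / A - y0) = x - (y ^ p / A - y) + ((y - y0) ^ p / A + -(y - y0)) by
    rw [sub_pow_char]; ring]
  refine LocA_add_le (nm_na v) (by linarith) (LocA_add_le (nm_na v) ?_ ?_)
  · rw [map_div₀, map_pow]
    have := div_le_div_of_nonneg_right (pow_le_pow_left₀ ((nm v).nonneg _) h0 p) ((nm v).nonneg A)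
    linarith
  · rw [(nm v).map_neg]
    linarith

theorem SelF_bad (h : Hy p a4 a6) {Φ : ASF p k Empty}
    (hAF : hasseInv p a4 a6 * Dc a4 a6 ∣ F) (hS : Stg (hasseInv p a4 a6) F b Φ) {v : Pl k}
    (hv : v = none ∨ plp v ∣ F * b) : ∃ c : ℝ,
    ∀ (s : Amb a4 a6 p (MulAction.stabilizer (Gk k) Φ.w0) 0) (a w : RatFunc k),
      Kap a4 a6 p _ 0 s (algebraMap _ _ a) (algebraMap _ _ w) →
      ∃ y : Lv v, ‖algebraMap _ _ a - (y ^ p / pk _ (hasseInv p a4 a6) - y)‖ ≤ c := by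
  obtain ⟨j⟩ := exists_emb v
  by_cases h0 : InS0 F v
  · obtain ⟨B, hB⟩ := h.kap_et0 0
    obtain ⟨C, hC⟩ : ∃ C : ℝ, C = max (2 ^ B) (av v (pk _ (hasseInv p a4 a6))) := ⟨_, rfl⟩
    have c1 : 2 ^ B ≤ C := hC ▸ le_max_left _ _
    have c2 : 1 ≤ C := (one_le_pow₀ one_le_two).trans c1
    have r1 : (1 : ℝ) ≤ 2 ^ F.natDegree := one_le_pow₀ one_le_two
    have c3 : C ≤ (2 ^ F.natDegree) ^ (p - 1) * C :=
      le_mul_of_one_le_left (zero_le_one.trans c2) (one_le_pow₀ r1)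
    refine ⟨(2 ^ F.natDegree) ^ (p - 1) * C + ((2 ^ F.natDegree) ^ (p - 1) * C) ^ p /
      nm v (pk _ (hasseInv p a4 a6)), fun s a w hs => ?_⟩
    obtain ⟨y, h1, h2⟩ : ∃ y, LH (MulAction.stabilizer (Gk k) Φ.w0) v j y ∧
        nm v (j (algebraMap _ _ a) - (y ^ p / pk _ (hasseInv p a4 a6) - y)) ≤ C := by
      by_cases e : InS0 (hasseInv p a4 a6 * Dc a4 a6) v
      · exact (hB _ s _ _ hs v e j).imp fun _ hy => ⟨hy.1, hy.2.trans c1⟩
      · exact (h.kap_et1 hs e j).imp fun _ hy => ⟨hy.1, hy.2.trans c2⟩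
    obtain ⟨y0, h3, h4⟩ := desc_bd h.A_ne r1 (hS.d_le v) (SelF_K2 a) (SelF_LH h1) c2
      (hC ▸ le_max_right _ _) h2
    obtain ⟨y1, rfl⟩ := SelF_L2 h3
    exact ⟨y1, (SelF_nm j _ a y1).trans_le (SelF_step (c2.trans c3) (h2.trans c3) h4)⟩
  have v0 : v ≠ none := fun e => h0 (Or.inl e)
  have hF : ¬ plp v ∣ F := fun e => h0 (Or.inr e)
  have hAF' : hasseInv p a4 a6 ∣ F := (dvd_mul_right _ _).trans hAF
  have hA : ¬ plp v ∣ hasseInv p a4 a6 := fun e => hF (e.trans hAF')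
  have hb : plp v ∣ b := ((PF_irr v0).prime.dvd_or_dvd (hv.resolve_left v0)).resolve_left hF
  have r1 : (1 : ℝ) ≤ 2 ^ F.natDegree := one_le_pow₀ one_le_two
  refine ⟨2 ^ F.natDegree, fun s a w hs => ?_⟩
  obtain ⟨y, h1, h2⟩ := h.kap_et1 hs (fun e => h0 (e.imp_right fun e => e.trans hAF)) j
  by_cases han : Anom p (hasseInv p a4 a6) (plp v)
  · obtain ⟨y0, t, h3, h4⟩ := desc_anom hS hAF' v0 hb han (SelF_K2 a) (SelF_LH h1) h2
    rw [j.commutes, LatE_alg, ← map_sub, nm_alg] at h4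
    have t1 : ‖t‖ ≤ 1 := wp_int (p := p) (Wp_na v) (LatE_unit v0 hA) (y := t) (by
      rw [h3, map_zero]
      exact zero_le_one)
    refine ⟨y0, ?_⟩
    rw [show algebraMap _ _ a - (y0 ^ p / pk _ (hasseInv p a4 a6) - y0) = algebraMap _ _ a -
      (y0 ^ p / pk _ (hasseInv p a4 a6) - y0 + t * algebraMap _ _ Φ.d) + t * algebraMap _ _ Φ.d by ring]
    refine PF_add (h4.trans r1) ?_
    rw [norm_mul, norm_alg]
    exact (mul_le_of_le_one_left ((av v).nonneg _) t1).trans (hS.d_le v)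
  · obtain ⟨y0, h3, h4⟩ := desc_na v0 hA han (SelF_K2 a) (SelF_LH h1) h2
    obtain ⟨y1, rfl⟩ := SelF_L2 h3
    refine ⟨y1, (SelF_nm j _ a y1).trans_le ?_⟩
    rw [h4, sub_self, map_zero]
    exact zero_le_one.trans r1

theorem SelF_good (h : Hy p a4 a6) {Φ : ASF p k Empty}
    (hAF : hasseInv p a4 a6 * Dc a4 a6 ∣ F) (hS : Stg (hasseInv p a4 a6) F b Φ) {v : Pl k} (v0 : v ≠ none)
    (hv : ¬ plp v ∣ F * b)
    {s : Amb a4 a6 p (MulAction.stabilizer (Gk k) Φ.w0) 0} {a w : RatFunc k}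
    (hs : Kap a4 a6 p _ 0 s (algebraMap _ _ a) (algebraMap _ _ w)) :
    ∃ y : Lv v, ‖algebraMap _ _ a - (y ^ p / pk _ (hasseInv p a4 a6) - y)‖ ≤ 1 ∧
      ‖algebraMap _ _ w + y ^ p / pk _ (hasseInv p a4 a6) *
        algebraMap (RatFunc k) _ (vpk a4 a6 p 0)‖ ≤ 1 := by
  obtain ⟨j⟩ := exists_emb v
  obtain ⟨ρ, hρ⟩ := exists_rst v j
  have h0 : ¬ InS0 (hasseInv p a4 a6 * Dc a4 a6) v := fun e =>
    hv (((e.resolve_left v0).trans hAF).mul_right _)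
  have hA : ¬ plp v ∣ hasseInv p a4 a6 := fun e => h0 (Or.inr (e.mul_right _))
  have hd : av v Φ.d ≤ 1 := hS.d_int v (fun e => hv ((e.resolve_left v0).mul_right _))
    fun e => hv (e.mul_left _)
  have A1 : nm v (pk _ (hasseInv p a4 a6)) = 1 := by rw [LatE_pk, nm_alg, LatE_unit v0 hA]
  have w1 : nm v (j Φ.w0) ≤ 1 := wp_int (p := p) (nm_na v) (map_one _) (by
    rw [div_one, LatE_w0, nm_alg, norm_alg]
    exact hd)
  obtain ⟨y, h1, h2, h3⟩ := h.kap_good hs h0 j fun τ hτ => ⟨ρ τ, j.injective ((hρ τ _).trans (by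
    obtain ⟨m, hm⟩ := LatE_mv (LatE_w0 Φ j) τ
    have e := i0_small hτ w1
    rw [hm, add_sub_cancel_left, ← mul_one (m : Lb v)] at e
    have e' := fp_small (p := p) (nm_na v) (map_one _) e
    rw [mul_one] at e'
    exact hm.trans (by rw [e', add_zero]; rfl))), hρ τ⟩
  obtain ⟨y0, h4, h5⟩ := desc_unr h.A_ne hd (SelF_K2 a) (SelF_LH h1) le_rfl (av_poly_le v0 _) h2
  obtain ⟨y1, rfl⟩ := SelF_L2 h4
  have h6 : nm v ((y - algebraMap _ _ y1) ^ p / pk _ (hasseInv p a4 a6)) ≤ 1 := by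
    rw [map_div₀, map_pow, A1, div_one]
    exact pow_le_one₀ ((nm v).nonneg _) h5
  refine ⟨y1, (SelF_nm j _ a y1).trans_le ?_, ?_⟩
  · generalize algebraMap (Lv v) (Lb v) y1 = y0 at h5 h6 ⊢
    generalize j (algebraMap _ _ a) = x at h2 ⊢
    generalize pk (Lb v) (hasseInv p a4 a6) = A at h2 h6 ⊢
    rw [show x - (y0 ^ p / A - y0) = x - (y ^ p / A - y) + ((y - y0) ^ p / A + -(y - y0)) by
      rw [sub_pow_char]; ring]
    exact LocA_add_le (nm_na v) h2 (LocA_add_le (nm_na v) h6 (((nm v).map_neg _).trans_le h5))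
  · rw [← nm_alg, map_add, map_mul, map_div₀, map_pow, ← LatE_pk, ← LatE_alg, ← LatE_alg,
      ← j.commutes w]
    have h7 : nm v (algebraMap (RatFunc k) (Lb v) (vpk a4 a6 p 0)) ≤ 1 :=
      (nm_algK v _).trans_le (h.vp_int h0)
    generalize algebraMap (Lv v) (Lb v) y1 = y0 at h6 ⊢
    generalize j (algebraMap _ _ w) = x at h3 ⊢
    generalize pk (Lb v) (hasseInv p a4 a6) = A at h3 h6 ⊢
    generalize algebraMap (RatFunc k) (Lb v) (vpk a4 a6 p 0) = u at h3 h7 ⊢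
    rw [show x + y0 ^ p / A * u = x + y ^ p / A * u + -((y - y0) ^ p / A * u) by
      rw [sub_pow_char]; ring]
    refine LocA_add_le (nm_na v) h3 ?_
    rw [(nm v).map_neg, map_mul]
    exact mul_le_one₀ h6 ((nm v).nonneg _) h7

variable {Φ : ASF p k Empty} [(MulAction.stabilizer (Gk k) Φ.w0).Normal]

theorem Hy.sel_fix (h : Hy p a4 a6) {s : Amb a4 a6 p (MulAction.stabilizer (Gk k) Φ.w0) 0}
    (hs : s ∈ Sel a4 a6 p _ 0) (h0 : p • s = 0) (h1 : acA a4 a6 p _ 0 Φ.σ0 s = s) :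
    ∃ a w : RatFunc k, Kap a4 a6 p _ 0 s (algebraMap _ _ a) (algebraMap _ _ w) := by
  obtain ⟨a, w, hk⟩ := h.kap_ex (SelF_opn h Φ) hs h0
  have h2 := hk.act h Φ.σ0
  rw [h1] at h2
  have h3 := h.kap_sub h2 hk
  rw [sub_self] at h3
  obtain ⟨y, hy, e1, e2⟩ := h.kap_uniq (SelF_opn h Φ) h3
  have hy1 := SelF_KH.1 hy
  have ha := SelF_KH.1 (h.kap_mem hk).1
  rw [← Φ.pi_apply] at e1 e2
  have h4 : Φ.pi^[p - 1] y = 0 := h.k1_noT (hy1.pi _) (by
    rw [← Φ.pi_wp, ← iterate_map_sub, ← e1, ← Function.iterate_succ_apply]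
    exact ha.pi_p (by have := hp.out.pos; omega))
  obtain ⟨x, hx, rfl⟩ := ASF.k1_h90 hy1 h4
  have h5 := SelF_cob h hk (SelF_KH.2 hx)
  have e3 : Φ.pi (x ^ p / pk _ (hasseInv p a4 a6)) = Φ.pi x ^ p / pk _ (hasseInv p a4 a6) :=
    Φ.pi_wp _ x 1
  have e4 : ∀ z, Φ.pi (z * algebraMap _ _ (vpk a4 a6 p 0)) =
      Φ.pi z * algebraMap _ _ (vpk a4 a6 p 0) := fun z => Φ.pi_mul _ z 1
  have h6 := (SelF_KH.1 (h.kap_mem h5).1).k2 (by rw [map_sub, map_sub, e1, e3, sub_self])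
  have h7 := (SelF_KH.1 (h.kap_mem h5).2).k2 (by rw [map_add, e2, e4, e3, neg_add_cancel])
  obtain ⟨a', ha'⟩ := om_fix h6.1 fun σ => h6.2 σ fun l => l.elim
  obtain ⟨w', hw'⟩ := om_fix h7.1 fun σ => h7.2 σ fun l => l.elim
  exact ⟨a', w', by rwa [ha', hw']⟩

theorem Hy.sel_fin0 (h : Hy p a4 a6) (hF0 : F ≠ 0)
    (hAF : hasseInv p a4 a6 * Dc a4 a6 ∣ F) (hS : Stg (hasseInv p a4 a6) F b Φ) :
    {s | s ∈ Sel a4 a6 p (MulAction.stabilizer (Gk k) Φ.w0) 0 ∧ p • s = 0 ∧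
      acA a4 a6 p _ 0 Φ.σ0 s = s}.Finite := by
  have hF : F * b ≠ 0 := mul_ne_zero hF0 hS.b_ne
  obtain ⟨S, hm⟩ : ∃ S : Finset (Pl k), ∀ v, v ∈ S ↔
      v = none ∨ plp v ∣ F * b :=
    ⟨insert none (fac' (F * b)), fun v => by
      rw [Finset.mem_insert, mem_fac' hF]
      tauto⟩
  choose c hc using fun v : S => SelF_bad h hAF hS ((hm v).1 v.2)
  obtain ⟨C, hC⟩ := (Set.finite_range c).bddAbove
  obtain ⟨n, hn⟩ := pow_unbounded_of_one_lt C (one_lt_two (α := ℝ))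
  obtain ⟨Y, hY, hY'⟩ := fin_K (p := p) h.A_ne (ϖ := vpk a4 a6 p 0) h.car_vp0 S n
  refine (hY.biUnion (t := fun x => {s | Kap a4 a6 p _ 0 s (algebraMap _ _ x.1) (algebraMap _ _ x.2)})
    fun x _ => Set.Subsingleton.finite fun s hs s' hs' => ?_).subset fun s hs => ?_
  · have e := h.kap_sub hs hs'
    rw [sub_self, sub_self] at e
    exact sub_eq_zero.1 (h.kap_ker e)
  obtain ⟨a, w, hk⟩ := h.sel_fix hs.1 hs.2.1 hs.2.2
  obtain ⟨y, hy⟩ := hY' a w ((algebraMap (RatFunc k) (Kb k)).injective (by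
      rw [map_add, map_sub, map_mul, alg_cB, map_div₀, map_zero]
      exact h.kap_coc hk))
    (fun v hv => (hc ⟨v, hv⟩ s a w hk).imp fun _ e => e.trans ((hC ⟨_, rfl⟩).trans hn.le))
    fun v hv => SelF_good h hAF hS (fun e => hv ((hm v).2 (Or.inl e)))
      (fun e => hv ((hm v).2 (Or.inr e))) hk
  refine Set.mem_biUnion hy ?_
  have e := SelF_cob h hk (y := algebraMap _ _ y) ⟨om_alg y, fun σ _ => σ.commutes y⟩
  show Kap a4 a6 p _ 0 s (algebraMap _ _ (a - _)) (algebraMap _ _ (w + _))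
  rw [map_sub, map_sub, map_add, map_mul, map_div₀, map_pow]
  exact e

theorem Hy.sel_fin (h : Hy p a4 a6) (hF0 : F ≠ 0)
    (hAF : hasseInv p a4 a6 * Dc a4 a6 ∣ F) (hS : Stg (hasseInv p a4 a6) F b Φ) :
    {s | s ∈ Sel a4 a6 p (MulAction.stabilizer (Gk k) Φ.w0) 0 ∧ p • s = 0}.Finite := by
  have h1 : ∀ s ∈ Sel a4 a6 p (MulAction.stabilizer (Gk k) Φ.w0) 0, ∀ n : ℕ,
      (acA a4 a6 p _ 0 Φ.σ0)^[n] s = acA a4 a6 p _ 0 (Φ.σ0 ^ n) s := fun s hs n => by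
    induction n with
    | zero => exact (acA_triv (one_mem _) hs).symm
    | succ n ih => rw [Function.iterate_succ_apply', ih, pow_succ', acA_mul]
  have h2 : Φ.σ0 ^ p ∈ MulAction.stabilizer (Gk k) Φ.w0 := by
    show (Φ.σ0 ^ p) Φ.w0 = Φ.w0
    rw [Φ.LatA_pow0, CharP.cast_eq_zero, add_zero]
  refine fin_of_nil (Sel a4 a6 p _ 0 ⊓ (nsmulAddMonoidHom p).ker)
    (acA a4 a6 p _ 0 Φ.σ0 - AddMonoidHom.id _) (fun s hs => ⟨sub_mem (acA_mem _ hs.1) hs.1, ?_⟩) p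
    (fun s hs => pi_nil hp.out _ hs.2 ((h1 s hs.1 p).trans (acA_triv h2 hs.1)))
    ((h.sel_fin0 hF0 hAF hS).subset fun s hs => ⟨hs.1.1, hs.1.2, sub_eq_zero.1 hs.2⟩)
  have e : p • s = 0 := hs.2
  show p • (acA a4 a6 p _ 0 Φ.σ0 - AddMonoidHom.id _ : _ →+ _) s = 0
  rw [← map_nsmul, e, map_zero]

end Pool.Agent.ASel
end

-- merged part: Pool.Agent.Work.MP_60d5ce_nt.AG.BrgB
section
/-!
# If `d` is not bad, the Selmer group over `K` has finite index in the one over `K(δ)`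

PLAN.  `cor_norm`: `c0 = cores c` (`InSha.cores`), `Q0 = ∑ x.out Q` over the cosets `x : Xs` (`cor_cob`, `cores_nsmul`).
By `InSha.res`, `cor_ex` the triple `(res c0, Q0, n)` has a class `s2 ∈ Sel`.  Let `(ξ, Q')` be the pair of `s` (it
satisfies `IsZ`), and `g x ∈ Gk k` lifts of `x.out`.  Then `s2 = ∑ acA (g x) s` by `amb0_eq` (only the second
components matter), and `x ↦ m` with `g x δ = δ + m` is a bijection onto `range p`, `acA (g x) s = acA (σ0 ^ m) s`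
(`acA_triv`, `acA_mul`).  `bridge`: `σ0` from `as_surj`; `Φ : ASF p k Empty`; `S'` is the subgroup of the `s ∈ Sel`
that correspond to a Selmer triple, `N = ∑ acA (σ0 ^ i)`; `coker_fin` with `sel_prim`, `sel_fin`; choose triples
for the elements of `Y`; `Cor.add`, `cor_same`.
-/

namespace Pool.Agent.ASel

open Polynomial Pool.Agent.Smith Pool.Agent.ShaAsc WeierstrassCurve WeierstrassCurve.Affine
open scoped Classical IntermediateField

variable {k : Type} [Field k] {p : ℕ} [Fintype k] [hp : Fact p.Prime] [CharP k p] {a4 a6 b : k[X]}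
  {Ω : Type} [Field Ω] [Algebra (RatFunc k) Ω] [IsSepClosure (RatFunc k) Ω] [DecidableEq Ω]

theorem BrgB_mem {K Ω : Type} [Field K] [Field Ω] [Algebra K Ω] {δ : Ω} {σ : Ω ≃ₐ[K] Ω} :
    σ ∈ Hs K K⟮δ⟯ Ω ↔ σ δ = δ := by
  rw [mem_Hs]
  refine ⟨fun h => h ⟨δ, IntermediateField.mem_adjoin_simple_self K δ⟩, fun h x => ?_⟩
  obtain ⟨x, hx⟩ := x
  change σ x = x
  induction hx using IntermediateField.adjoin_induction with
  | mem y hy => rw [Set.mem_singleton_iff.1 hy, h]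
  | algebraMap y => exact σ.commutes y
  | add y z _ _ hy hz => rw [map_add, hy, hz]
  | inv y _ hy => rw [map_inv₀, hy]
  | mul y z _ _ hy hz => rw [map_mul, hy, hz]

theorem BrgB_eq {K Ω : Type} [Field K] [Field Ω] [Algebra K Ω] {δ : Ω} {σ τ : Ω ≃ₐ[K] Ω} :
    (σ : Xs K K⟮δ⟯ Ω) = τ ↔ τ δ = σ δ := by
  rw [QuotientGroup.eq, BrgB_mem, AlgEquiv.mul_apply, AlgEquiv.aut_inv, AlgEquiv.symm_apply_eq]

theorem BrgB_pow {K Ω : Type} [Field K] [Field Ω] [Algebra K Ω] {δ : Ω} {σ : Ω ≃ₐ[K] Ω}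
    (h : σ δ = δ + 1) (m : ℕ) : (σ ^ m) δ = δ + m := by
  induction m with
  | zero => simp
  | succ m ih =>
    rw [pow_succ', AlgEquiv.mul_apply, ih, map_add, map_natCast, h]
    push_cast
    ring

theorem BrgB_isZ {H : Subgroup (Gk k)} {n : ℕ} {x : (Gk k → EK a4 a6) × EK a4 a6}
    (hx : (x : Amb a4 a6 p H n) ∈ Sel a4 a6 p H n) : x ∈ Zs a4 a6 p H n := by
  obtain ⟨z, hz, e⟩ := hx
  have h1 : -z + x ∈ Zs a4 a6 p H n := IsB.isZ (QuotientAddGroup.eq.1 e)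
  simpa using add_mem hz h1

theorem BrgB_iter {H : Subgroup (Gk k)} [H.Normal] {n : ℕ} (σ : Gk k) {s : Amb a4 a6 p H n}
    (hs : s ∈ Sel a4 a6 p H n) (i : ℕ) : (acA a4 a6 p H n σ)^[i] s = acA a4 a6 p H n (σ ^ i) s := by
  induction i with
  | zero => exact (acA_triv H.one_mem hs).symm
  | succ i ih => rw [Function.iterate_succ_apply', ih, pow_succ', acA_mul]

theorem BrgB_same {δ : Kb k} [(MulAction.stabilizer (Gk k) δ).Normal] {n : ℕ} {σ τ : Gk k}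
    (h : τ δ = σ δ) {s : Amb a4 a6 p (MulAction.stabilizer (Gk k) δ) n}
    (hs : s ∈ Sel a4 a6 p _ n) : acA a4 a6 p _ n σ s = acA a4 a6 p _ n τ s := by
  have h1 : σ⁻¹ * τ ∈ MulAction.stabilizer (Gk k) δ := by
    change (σ⁻¹ * τ) δ = δ
    rw [AlgEquiv.mul_apply, AlgEquiv.aut_inv, AlgEquiv.symm_apply_eq, h]
  have h2 := acA_mul σ (σ⁻¹ * τ) s
  rwa [acA_triv h1 hs, mul_inv_cancel_left, eq_comm] at h2

/-- the norm -/
def BrgB_N {G : Type} [AddCommGroup G] (p : ℕ) (g : G →+ G) : G →+ G :=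
  AddMonoidHom.mk' (fun s => ∑ i ∈ Finset.range p, g^[i] s) fun s t => by
    simp only [iterate_map_add, Finset.sum_add_distrib]

theorem BrgB_NN {G : Type} [AddCommGroup G] (p : ℕ) (g : G →+ G) {s : G} (h : g^[p] s = s) :
    BrgB_N p g (BrgB_N p g s) = p • BrgB_N p g s := by
  have h1 : g (BrgB_N p g s) = BrgB_N p g s := by
    have h2 := Finset.sum_range_succ' (fun i => g^[i] s) p
    rw [Finset.sum_range_succ, h, Function.iterate_zero_apply, add_left_inj] at h2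
    change g (∑ i ∈ Finset.range p, g^[i] s) = ∑ i ∈ Finset.range p, g^[i] s
    rw [map_sum]
    simp only [Function.iterate_succ_apply'] at h2
    exact h2.symm
  change ∑ i ∈ Finset.range p, g^[i] (BrgB_N p g s) = _
  simp only [Function.iterate_fixed h1, Finset.sum_const, Finset.card_range]

theorem Hy.cor_norm (h : Hy p a4 a6) {j : Ω →ₐ[RatFunc k] Kb k}
    (hj : ∀ x, x ∈ Om (RatFunc k) (Kb k) ↔ ∃ y, j y = x) {δ : Ω} {d : RatFunc k}
    (hδ : δ ^ p - δ = algebraMap _ _ d) [(MulAction.stabilizer (Gk k) (j δ)).Normal] {σ0 : Gk k}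
    (h0 : σ0 (j δ) = j δ + 1) {c : (Ω ≃ₐ[(RatFunc k)⟮δ⟯] Ω) → Pts (Ew a4 a6) Ω}
    {Q : Pts (Ew a4 a6) Ω} {n : ℕ} (hc : InSelP p (Ew a4 a6) c Q n)
    {s : Amb a4 a6 p (MulAction.stabilizer (Gk k) (j δ)) 0} (hs : Cor p a4 a6 j δ c Q n s) :
    ∃ (c0 : (Ω ≃ₐ[RatFunc k] Ω) → Pts (Ew a4 a6) Ω) (Q0 : Pts (Ew a4 a6) Ω),
      InSelP p (Ew a4 a6) c0 Q0 n ∧ InSelP p (Ew a4 a6) (ShaAsc.res (RatFunc k)⟮δ⟯ c0) Q0 n ∧
      Cor p a4 a6 j δ (ShaAsc.res _ c0) Q0 n (∑ i ∈ Finset.range p, (acA a4 a6 p _ 0 σ0)^[i] s) := by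
  have hG : IsGalois (RatFunc k) Ω := inferInstance
  have hfin : FiniteDimensional (RatFunc k) (RatFunc k)⟮δ⟯ :=
    IntermediateField.adjoin.finiteDimensional (Algebra.IsIntegral.isIntegral δ)
  have hch : CharP Ω p := charP_of_injective_algebraMap (algebraMap (RatFunc k) Ω).injective p
  have k1 : InSelP p (Ew a4 a6) (cores (RatFunc k) (Ew a4 a6) c)
      (∑ x : Xs (RatFunc k) (RatFunc k)⟮δ⟯ Ω, act (Ew a4 a6) x.out Q) n := by
    refine ⟨hc.1.cores p, fun σ => ?_⟩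
    rw [← Pi.smul_apply, ← cores_nsmul]
    refine cor_cob act_mul out_smul (fun τ hτ => ?_) σ
    rw [smul_x0_iff] at hτ
    rw [ext0_of_mem _ hτ, Pi.smul_apply, hc.2, act_congr (σ := τ) (σ' := toH τ hτ) fun _ => rfl]
  have k2 : InSelP p (Ew a4 a6) (ShaAsc.res (RatFunc k)⟮δ⟯ (cores (RatFunc k) (Ew a4 a6) c))
      (∑ x : Xs (RatFunc k) (RatFunc k)⟮δ⟯ Ω, act (Ew a4 a6) x.out Q) n :=
    ⟨k1.1.res, fun σ => (k1.2 _).trans (by
      rw [act_congr (σ := σ) (σ' := σ.restrictScalars (RatFunc k)) fun _ => rfl])⟩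
  refine ⟨_, _, k1, k2, ?_⟩
  obtain ⟨s2, hs2, k3⟩ := h.cor_ex hj k2
  obtain ⟨s1, hs1, k4⟩ := h.cor_ex hj hc
  obtain rfl : s = s1 := Cor.uniq hj hs k4
  choose g hg using fun x : Xs (RatFunc k) (RatFunc k)⟮δ⟯ Ω => j_lift hj x.out
  obtain ⟨ρ, hρ⟩ := j_res hj σ0
  have hρ1 : ρ δ = δ + 1 := j.injective (by
    change j _ = j _
    rw [hρ, h0, map_add, map_one])
  have e1 : ∑ i ∈ Finset.range p, (acA a4 a6 p _ 0 σ0)^[i] s = ∑ x, acA a4 a6 p _ 0 (g x) s := by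
    refine Finset.sum_nbij (fun i => ((ρ ^ i : Ω ≃ₐ[RatFunc k] Ω) : Xs _ (RatFunc k)⟮δ⟯ Ω))
      (fun _ _ => Finset.mem_univ _) (fun i hi i' hi' e => ?_) (fun x _ => ?_) fun i _ => ?_
    · rw [BrgB_eq, BrgB_pow hρ1, BrgB_pow hρ1, add_right_inj] at e
      exact (CharP.natCast_injOn_Iio Ω p (Finset.mem_range.1 hi') (Finset.mem_range.1 hi) e).symm
    · obtain ⟨m, hm⟩ := Wp_fix (p := p) (x := x.out δ - δ) (by
        have := congrArg x.out hδ
        rw [map_sub, map_pow, AlgEquiv.commutes] at this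
        rw [sub_pow_char]
        linear_combination this - hδ)
      refine ⟨m % p, Finset.mem_range.2 (Nat.mod_lt _ hp.out.pos), ?_⟩
      rw [← x.out_eq]
      refine BrgB_eq.2 ?_
      rw [BrgB_pow hρ1, ← CharP.cast_eq_mod, ← hm, add_sub_cancel]
    · rw [BrgB_iter _ hs1]
      refine BrgB_same ?_ hs1
      rw [← hg, BrgB_pow h0, ← BrgB_eq.1 (Quotient.out_eq _), BrgB_pow hρ1, map_add, map_natCast]
  rw [e1]
  suffices e2 : s2 = ∑ x, acA a4 a6 p _ 0 (g x) s from e2 ▸ k3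
  obtain ⟨x2, rfl, -, hx2⟩ := k3
  obtain ⟨x1, rfl, -, hx1⟩ := hs
  have e3 : ∑ x, acA a4 a6 p (MulAction.stabilizer (Gk k) (j δ)) 0 (g x) x1 =
      ((∑ x, cj a4 a6 (g x) x1 :) : Amb a4 a6 p _ 0) :=
    (map_sum (QuotientAddGroup.mk' _) (fun x => cj a4 a6 (g x) x1) _).symm
  rw [e3]
  refine h.amb0_eq (BrgB_isZ hs2) (sum_mem (S := Zs a4 a6 p _ 0) fun x _ =>
    IsZ.cj (BrgB_isZ hs1) (g x)) (zero_mem _) (m := n) ?_
  rw [sub_zero, smul_sub, hx2, Prod.snd_sum, Finset.smul_sum, map_sum, sub_eq_zero]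
  refine Finset.sum_congr rfl fun x _ => ?_
  rw [map_act j (hg x), ← hx1, map_nsmul]
  rfl

theorem BrgB_F {G : k[X]} (hG : G ≠ 0) (d : RatFunc k) : ∃ F : k[X], F ≠ 0 ∧ G ∣ F ∧
    (∀ v, av v d ≤ 2 ^ F.natDegree) ∧ ∀ v, ¬ InS0 F v → av v d ≤ 1 := by
  obtain ⟨C, hC⟩ := ((fin_poles d).image fun v => av v d).bddAbove
  obtain ⟨M, hM⟩ := pow_unbounded_of_one_lt C (one_lt_two (α := ℝ))
  have h0 := mul_ne_zero hG d.denom_ne_zero
  have h1 : (X ^ M : k[X]) ≠ 0 := pow_ne_zero _ X_ne_zero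
  refine ⟨G * d.denom * X ^ M, mul_ne_zero h0 h1, (dvd_mul_right _ _).mul_right _, fun v => ?_,
    fun v hv => ?_⟩
  · rcases le_or_gt (av v d) 1 with e | e
    · exact e.trans (one_le_pow₀ one_le_two)
    refine ((hC ⟨v, e, rfl⟩).trans hM.le).trans (pow_le_pow_right₀ one_le_two ?_)
    rw [natDegree_mul h0 h1, natDegree_X_pow]
    omega
  · have v0 : v ≠ none := fun e => hv (Or.inl e)
    rw [← d.num_div_denom, map_div₀, PF_one v0 fun e => hv (Or.inr ((e.mul_left G).mul_right _)),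
      div_one]
    exact av_poly_le v0 _

theorem Hy.bridge (h : Hy p a4 a6) {d : RatFunc k} (hd : ∀ y : RatFunc k, y ^ p - y ≠ d)
    (hB : ¬ BadD a4 a6 p d) (δ : Ω) (hδ : δ ^ p - δ = algebraMap _ _ d) :
    FinIdx p (Ew a4 a6) (RatFunc k)⟮δ⟯ := by
  obtain ⟨F, f0, f1, f2, f3⟩ := BrgB_F (mul_ne_zero h.A_ne h.disc) d
  obtain ⟨j, hj⟩ := exists_j0 (k := k) (Ω := Ω)
  have hw : j δ ^ p - j δ = algebraMap _ _ d := by rw [← map_pow, ← map_sub, hδ, j.commutes]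
  obtain ⟨σ0, h0⟩ := as_surj (p := p) (fun _ : Unit => d) (fun _ => j δ) (fun _ => hw)
    (fun e y hy => by
      by_contra hne
      have h3 : (((e ()).val : ℕ) : RatFunc k) ≠ 0 := by
        rw [Gal_cast, _root_.map_ne_zero]
        exact fun h4 => hne (funext fun _ => h4)
      have h4 : (((e ()).val : ℕ) : RatFunc k) ^ p = (e ()).val :=
        map_natCast (frobenius (RatFunc k) p) _
      refine hd (y / (e ()).val) ?_
      rw [div_pow, h4, ← sub_div, hy, Fintype.sum_unique, mul_div_cancel_left₀ _ h3]) fun _ => 1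
  replace h0 : σ0 (j δ) = j δ + 1 := by rw [h0 (), ZMod.val_one, Nat.cast_one]
  have hN := stab_normal hw
  let Φ : ASF p k Empty := ⟨d, Empty.elim, j δ, Empty.elim, hw, fun l => l.elim, σ0, fun _ => 1, h0,
    fun l => l.elim, fun _ => rfl, fun _ l => l.elim⟩
  have hf := h.sel_fin (Φ := Φ) (b := 1) f0 f1 ⟨one_ne_zero, isCoprime_one_left, f2,
    fun v hv => (f3 v hv).trans_lt (one_lt_pow₀ one_lt_two hp.out.ne_zero), fun v hv _ => f3 v hv,
    fun l => l.elim, fun l => l.elim⟩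
  let S' : AddSubgroup (Amb a4 a6 p (MulAction.stabilizer (Gk k) (j δ)) 0) :=
    AddSubgroup.ofSub {s | s ∈ Sel a4 a6 p _ 0 ∧
      ∃ c Q n, InSelP p (Ew a4 a6) c Q n ∧ Cor p a4 a6 j δ c Q n s}
      ⟨0, zero_mem _, 0, 0, 0, inSelP_zero, cor_zero⟩
      fun _ ⟨hx, _, _, _, hx1, hx2⟩ _ ⟨hy, _, _, _, hy1, hy2⟩ => by
        rw [← sub_eq_add_neg]
        exact ⟨sub_mem hx hy, _, _, _, hx1.sub hy1, hx2.sub hy2⟩
  obtain ⟨Y, hY, hYS, hs⟩ := coker_fin p S' (BrgB_N p (acA a4 a6 p _ 0 σ0))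
    (fun s ⟨hs, c, Q, n, g1, g2⟩ => by
      obtain ⟨c0, Q0, -, g3, g4⟩ := h.cor_norm hj hδ h0 g1 g2
      refine ⟨?_, _, _, _, g3, g4⟩
      change ∑ i ∈ Finset.range p, (acA a4 a6 p _ 0 σ0)^[i] s ∈ _
      refine sum_mem fun i _ => ?_
      rw [BrgB_iter _ hs]
      exact acA_mem _ hs)
    (fun s hs => BrgB_NN p _ (by
      rw [BrgB_iter _ hs.1]
      refine acA_triv ?_ hs.1
      change (σ0 ^ p) (j δ) = j δ
      rw [BrgB_pow h0, CharP.cast_eq_zero, add_zero]))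
    (fun s hs => h.sel_prim hs.1) (hf.subset fun s hs => ⟨hs.1.1, hs.2⟩)
    (fun u hu0 hu => by
      by_contra hne
      exact hB ⟨j δ, hw, σ0, u, h0, hne, hu0, fun n => ⟨(hu n).1.1, (hu n).2⟩⟩)
  choose tc tQ tn ht using fun y : Y => (hYS y.2).2
  have := hY.to_subtype
  refine ⟨Set.range fun y => (tc y, tQ y, tn y), Set.finite_range _, ?_, fun c Q n g => ?_⟩
  · rintro _ ⟨y, rfl⟩
    exact (ht y).1
  obtain ⟨s, g1, g2⟩ := h.cor_ex hj g
  obtain ⟨y, hy, x, ⟨-, c1, Q1, n1, g3, g4⟩, rfl⟩ := hs s ⟨g1, c, Q, n, g, g2⟩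
  obtain ⟨c0, Q0, g5, -, g6⟩ := h.cor_norm hj hδ h0 g3 g4
  exact ⟨_, ⟨⟨y, hy⟩, rfl⟩, c0, Q0, n1, g5, h.cor_same hj g2 ((ht ⟨y, hy⟩).2.add g6)⟩

end Pool.Agent.ASel
end

-- merged part: Pool.Agent.Work.MP_60d5ce_nt.AH.SelN
section
/-!
# The Selmer groups of level `l`

The proofs of `AG/SelF.lean` at level `l`; `tate_up`: a Tate sequence of level `l + 1` goes to level `l` by `V`, and `F V = p`.
-/

namespace Pool.Agent.ASel

open Polynomial Pool.Agent.Smith Pool.Agent.ShaAsc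
open scoped Classical

variable {k : Type} [Field k] {p : ℕ} [Fintype k] [hp : Fact p.Prime] [CharP k p] {a4 a6 b F : k[X]}
  {l : ℕ}

theorem SelN_car (h : Hy p a4 a6) (l : ℕ) :
    cK p (vpk a4 a6 p l / pk _ (hasseInv p a4 a6) ^ 2) = vpk a4 a6 p l := by
  rcases l with _ | l
  · exact h.car_vp0
  · rw [vpk, if_neg l.succ_ne_zero, zero_div, map_zero]

theorem SelN_int (h : Hy p a4 a6) (l : ℕ) {v : Pl k}
    (hv : ¬ InS0 (hasseInv p a4 a6 * Dc a4 a6) v) : av v (vpk a4 a6 p l) ≤ 1 := by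
  rcases l with _ | l
  · exact h.vp_int hv
  · rw [vpk, if_neg l.succ_ne_zero, map_zero]
    exact zero_le_one

theorem Hy.sel_primN (h : Hy p a4 a6) {H : Subgroup (Gk k)} {s : Amb a4 a6 p H l}
    (hs : s ∈ Sel a4 a6 p H l) : ∃ m : ℕ, p ^ m • s = 0 := by
  induction l with
  | zero => exact h.sel_prim hs
  | succ l ih =>
    obtain ⟨m, hm⟩ := ih (h.Vm_mem hs)
    exact ⟨m + 1, by rw [pow_succ, mul_smul, ← h.Fm_Vm, ← map_nsmul, hm, map_zero]⟩

theorem Hy.tate_up (h : Hy p a4 a6) {H : Subgroup (Gk k)} [H.Normal] (σ : Gk k)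
    (h0 : ∀ u : ℕ → Amb a4 a6 p H 0, u 0 = 0 → (∀ n, u n ∈ Sel a4 a6 p H 0 ∧ p • u (n + 1) = u n ∧
      ∑ i ∈ Finset.range p, (acA a4 a6 p H 0 σ)^[i] (u n) = 0) → u = 0) (l : ℕ)
    (u : ℕ → Amb a4 a6 p H l) (u0 : u 0 = 0) (hu : ∀ n, u n ∈ Sel a4 a6 p H l ∧
      p • u (n + 1) = u n ∧ ∑ i ∈ Finset.range p, (acA a4 a6 p H l σ)^[i] (u n) = 0) : u = 0 := by
  induction l with
  | zero => exact h0 u u0 hu
  | succ l ih =>
    have e : ∀ (i : ℕ) (s : Amb a4 a6 p H (l + 1)), (acA a4 a6 p H l σ)^[i] (Vm h H l s) =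
        Vm h H l ((acA a4 a6 p H (l + 1) σ)^[i] s) := fun i s => by
      induction i with
      | zero => rfl
      | succ i ih => rw [Function.iterate_succ_apply', Function.iterate_succ_apply', ih, h.Vm_acA]
    have h1 := ih (fun n => Vm h H l (u n)) (by rw [u0, map_zero]) fun n =>
      ⟨h.Vm_mem (hu n).1, by rw [← map_nsmul, (hu n).2.1], by
        simp only [e]
        rw [← map_sum, (hu n).2.2, map_zero]⟩
    funext n
    rw [← (hu n).2.1, ← h.Fm_Vm, show Vm h H l (u (n + 1)) = 0 from congrFun h1 (n + 1), map_zero]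
    rfl

theorem SelN_bad (h : Hy p a4 a6) {Φ : ASF p k Empty}
    (hAF : hasseInv p a4 a6 * Dc a4 a6 ∣ F) (hS : Stg (hasseInv p a4 a6) F b Φ) {v : Pl k}
    (hv : v = none ∨ plp v ∣ F * b) : ∃ c : ℝ,
    ∀ (s : Amb a4 a6 p (MulAction.stabilizer (Gk k) Φ.w0) l) (a w : RatFunc k),
      Kap a4 a6 p _ l s (algebraMap _ _ a) (algebraMap _ _ w) →
      ∃ y : Lv v, ‖algebraMap _ _ a - (y ^ p / pk _ (hasseInv p a4 a6) - y)‖ ≤ c := by
  obtain ⟨j⟩ := exists_emb v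
  by_cases h0 : InS0 F v
  · obtain ⟨B, hB⟩ := h.kap_et0 l
    obtain ⟨C, hC⟩ : ∃ C : ℝ, C = max (2 ^ B) (av v (pk _ (hasseInv p a4 a6))) := ⟨_, rfl⟩
    have c1 : 2 ^ B ≤ C := hC ▸ le_max_left _ _
    have c2 : 1 ≤ C := (one_le_pow₀ one_le_two).trans c1
    have r1 : (1 : ℝ) ≤ 2 ^ F.natDegree := one_le_pow₀ one_le_two
    have c3 : C ≤ (2 ^ F.natDegree) ^ (p - 1) * C :=
      le_mul_of_one_le_left (zero_le_one.trans c2) (one_le_pow₀ r1)
    refine ⟨(2 ^ F.natDegree) ^ (p - 1) * C + ((2 ^ F.natDegree) ^ (p - 1) * C) ^ p /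
      nm v (pk _ (hasseInv p a4 a6)), fun s a w hs => ?_⟩
    obtain ⟨y, h1, h2⟩ : ∃ y, LH (MulAction.stabilizer (Gk k) Φ.w0) v j y ∧
        nm v (j (algebraMap _ _ a) - (y ^ p / pk _ (hasseInv p a4 a6) - y)) ≤ C := by
      by_cases e : InS0 (hasseInv p a4 a6 * Dc a4 a6) v
      · exact (hB _ s _ _ hs v e j).imp fun _ hy => ⟨hy.1, hy.2.trans c1⟩
      · exact (h.kap_et1 hs e j).imp fun _ hy => ⟨hy.1, hy.2.trans c2⟩
    obtain ⟨y0, h3, h4⟩ := desc_bd h.A_ne r1 (hS.d_le v) (SelF_K2 a) (SelF_LH h1) c2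
      (hC ▸ le_max_right _ _) h2
    obtain ⟨y1, rfl⟩ := SelF_L2 h3
    exact ⟨y1, (SelF_nm j _ a y1).trans_le (SelF_step (c2.trans c3) (h2.trans c3) h4)⟩
  have v0 : v ≠ none := fun e => h0 (Or.inl e)
  have hF : ¬ plp v ∣ F := fun e => h0 (Or.inr e)
  have hAF' : hasseInv p a4 a6 ∣ F := (dvd_mul_right _ _).trans hAF
  have hA : ¬ plp v ∣ hasseInv p a4 a6 := fun e => hF (e.trans hAF')
  have hb : plp v ∣ b := ((PF_irr v0).prime.dvd_or_dvd (hv.resolve_left v0)).resolve_left hF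
  have r1 : (1 : ℝ) ≤ 2 ^ F.natDegree := one_le_pow₀ one_le_two
  refine ⟨2 ^ F.natDegree, fun s a w hs => ?_⟩
  obtain ⟨y, h1, h2⟩ := h.kap_et1 hs (fun e => h0 (e.imp_right fun e => e.trans hAF)) j
  by_cases han : Anom p (hasseInv p a4 a6) (plp v)
  · obtain ⟨y0, t, h3, h4⟩ := desc_anom hS hAF' v0 hb han (SelF_K2 a) (SelF_LH h1) h2
    rw [j.commutes, LatE_alg, ← map_sub, nm_alg] at h4
    have t1 : ‖t‖ ≤ 1 := wp_int (p := p) (Wp_na v) (LatE_unit v0 hA) (y := t) (by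
      rw [h3, map_zero]
      exact zero_le_one)
    refine ⟨y0, ?_⟩
    rw [show algebraMap _ _ a - (y0 ^ p / pk _ (hasseInv p a4 a6) - y0) = algebraMap _ _ a -
      (y0 ^ p / pk _ (hasseInv p a4 a6) - y0 + t * algebraMap _ _ Φ.d) + t * algebraMap _ _ Φ.d by ring]
    refine PF_add (h4.trans r1) ?_
    rw [norm_mul, norm_alg]
    exact (mul_le_of_le_one_left ((av v).nonneg _) t1).trans (hS.d_le v)
  · obtain ⟨y0, h3, h4⟩ := desc_na v0 hA han (SelF_K2 a) (SelF_LH h1) h2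
    obtain ⟨y1, rfl⟩ := SelF_L2 h3
    refine ⟨y1, (SelF_nm j _ a y1).trans_le ?_⟩
    rw [h4, sub_self, map_zero]
    exact zero_le_one.trans r1

theorem SelN_good (h : Hy p a4 a6) {Φ : ASF p k Empty}
    (hAF : hasseInv p a4 a6 * Dc a4 a6 ∣ F) (hS : Stg (hasseInv p a4 a6) F b Φ) {v : Pl k} (v0 : v ≠ none)
    (hv : ¬ plp v ∣ F * b)
    {s : Amb a4 a6 p (MulAction.stabilizer (Gk k) Φ.w0) l} {a w : RatFunc k}
    (hs : Kap a4 a6 p _ l s (algebraMap _ _ a) (algebraMap _ _ w)) :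
    ∃ y : Lv v, ‖algebraMap _ _ a - (y ^ p / pk _ (hasseInv p a4 a6) - y)‖ ≤ 1 ∧
      ‖algebraMap _ _ w + y ^ p / pk _ (hasseInv p a4 a6) *
        algebraMap (RatFunc k) _ (vpk a4 a6 p l)‖ ≤ 1 := by
  obtain ⟨j⟩ := exists_emb v
  obtain ⟨ρ, hρ⟩ := exists_rst v j
  have h0 : ¬ InS0 (hasseInv p a4 a6 * Dc a4 a6) v := fun e =>
    hv (((e.resolve_left v0).trans hAF).mul_right _)
  have hA : ¬ plp v ∣ hasseInv p a4 a6 := fun e => h0 (Or.inr (e.mul_right _))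
  have hd : av v Φ.d ≤ 1 := hS.d_int v (fun e => hv ((e.resolve_left v0).mul_right _))
    fun e => hv (e.mul_left _)
  have A1 : nm v (pk _ (hasseInv p a4 a6)) = 1 := by rw [LatE_pk, nm_alg, LatE_unit v0 hA]
  have w1 : nm v (j Φ.w0) ≤ 1 := wp_int (p := p) (nm_na v) (map_one _) (by
    rw [div_one, LatE_w0, nm_alg, norm_alg]
    exact hd)
  obtain ⟨y, h1, h2, h3⟩ := h.kap_good hs h0 j fun τ hτ => ⟨ρ τ, j.injective ((hρ τ _).trans (by
    obtain ⟨m, hm⟩ := LatE_mv (LatE_w0 Φ j) τ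
    have e := i0_small hτ w1
    rw [hm, add_sub_cancel_left, ← mul_one (m : Lb v)] at e
    have e' := fp_small (p := p) (nm_na v) (map_one _) e
    rw [mul_one] at e'
    exact hm.trans (by rw [e', add_zero]; rfl))), hρ τ⟩
  obtain ⟨y0, h4, h5⟩ := desc_unr h.A_ne hd (SelF_K2 a) (SelF_LH h1) le_rfl (av_poly_le v0 _) h2
  obtain ⟨y1, rfl⟩ := SelF_L2 h4
  have h6 : nm v ((y - algebraMap _ _ y1) ^ p / pk _ (hasseInv p a4 a6)) ≤ 1 := by
    rw [map_div₀, map_pow, A1, div_one]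
    exact pow_le_one₀ ((nm v).nonneg _) h5
  refine ⟨y1, (SelF_nm j _ a y1).trans_le ?_, ?_⟩
  · generalize algebraMap (Lv v) (Lb v) y1 = y0 at h5 h6 ⊢
    generalize j (algebraMap _ _ a) = x at h2 ⊢
    generalize pk (Lb v) (hasseInv p a4 a6) = A at h2 h6 ⊢
    rw [show x - (y0 ^ p / A - y0) = x - (y ^ p / A - y) + ((y - y0) ^ p / A + -(y - y0)) by
      rw [sub_pow_char]; ring]
    exact LocA_add_le (nm_na v) h2 (LocA_add_le (nm_na v) h6 (((nm v).map_neg _).trans_le h5))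
  · rw [← nm_alg, map_add, map_mul, map_div₀, map_pow, ← LatE_pk, ← LatE_alg, ← LatE_alg,
      ← j.commutes w]
    have h7 : nm v (algebraMap (RatFunc k) (Lb v) (vpk a4 a6 p l)) ≤ 1 :=
      (nm_algK v _).trans_le (SelN_int h l h0)
    generalize algebraMap (Lv v) (Lb v) y1 = y0 at h6 ⊢
    generalize j (algebraMap _ _ w) = x at h3 ⊢
    generalize pk (Lb v) (hasseInv p a4 a6) = A at h3 h6 ⊢
    generalize algebraMap (RatFunc k) (Lb v) (vpk a4 a6 p l) = u at h3 h7 ⊢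
    rw [show x + y0 ^ p / A * u = x + y ^ p / A * u + -((y - y0) ^ p / A * u) by
      rw [sub_pow_char]; ring]
    refine LocA_add_le (nm_na v) h3 ?_
    rw [(nm v).map_neg, map_mul]
    exact mul_le_one₀ h6 ((nm v).nonneg _) h7

variable {Φ : ASF p k Empty} [(MulAction.stabilizer (Gk k) Φ.w0).Normal]

theorem Hy.sel_fixN (h : Hy p a4 a6) {s : Amb a4 a6 p (MulAction.stabilizer (Gk k) Φ.w0) l}
    (hs : s ∈ Sel a4 a6 p _ l) (h0 : p • s = 0) (h1 : acA a4 a6 p _ l Φ.σ0 s = s) :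
    ∃ a w : RatFunc k, Kap a4 a6 p _ l s (algebraMap _ _ a) (algebraMap _ _ w) := by
  obtain ⟨a, w, hk⟩ := h.kap_ex (SelF_opn h Φ) hs h0
  have h2 := hk.act h Φ.σ0
  rw [h1] at h2
  have h3 := h.kap_sub h2 hk
  rw [sub_self] at h3
  obtain ⟨y, hy, e1, e2⟩ := h.kap_uniq (SelF_opn h Φ) h3
  have hy1 := SelF_KH.1 hy
  have ha := SelF_KH.1 (h.kap_mem hk).1
  rw [← Φ.pi_apply] at e1 e2
  have h4 : Φ.pi^[p - 1] y = 0 := h.k1_noT (hy1.pi _) (by
    rw [← Φ.pi_wp, ← iterate_map_sub, ← e1, ← Function.iterate_succ_apply]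
    exact ha.pi_p (by have := hp.out.pos; omega))
  obtain ⟨x, hx, rfl⟩ := ASF.k1_h90 hy1 h4
  have h5 := SelF_cob h hk (SelF_KH.2 hx)
  have e3 : Φ.pi (x ^ p / pk _ (hasseInv p a4 a6)) = Φ.pi x ^ p / pk _ (hasseInv p a4 a6) :=
    Φ.pi_wp _ x 1
  have e4 : ∀ z, Φ.pi (z * algebraMap _ _ (vpk a4 a6 p l)) =
      Φ.pi z * algebraMap _ _ (vpk a4 a6 p l) := fun z => Φ.pi_mul _ z 1
  have h6 := (SelF_KH.1 (h.kap_mem h5).1).k2 (by rw [map_sub, map_sub, e1, e3, sub_self])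
  have h7 := (SelF_KH.1 (h.kap_mem h5).2).k2 (by rw [map_add, e2, e4, e3, neg_add_cancel])
  obtain ⟨a', ha'⟩ := om_fix h6.1 fun σ => h6.2 σ fun l => l.elim
  obtain ⟨w', hw'⟩ := om_fix h7.1 fun σ => h7.2 σ fun l => l.elim
  exact ⟨a', w', by rwa [ha', hw']⟩

theorem Hy.sel_finN0 (h : Hy p a4 a6) (hF0 : F ≠ 0)
    (hAF : hasseInv p a4 a6 * Dc a4 a6 ∣ F) (hS : Stg (hasseInv p a4 a6) F b Φ) :
    {s | s ∈ Sel a4 a6 p (MulAction.stabilizer (Gk k) Φ.w0) l ∧ p • s = 0 ∧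
      acA a4 a6 p _ l Φ.σ0 s = s}.Finite := by
  have hF : F * b ≠ 0 := mul_ne_zero hF0 hS.b_ne
  obtain ⟨S, hm⟩ : ∃ S : Finset (Pl k), ∀ v, v ∈ S ↔
      v = none ∨ plp v ∣ F * b :=
    ⟨insert none (fac' (F * b)), fun v => by
      rw [Finset.mem_insert, mem_fac' hF]
      tauto⟩
  choose c hc using fun v : S => SelN_bad h hAF hS ((hm v).1 v.2)
  obtain ⟨C, hC⟩ := (Set.finite_range c).bddAbove
  obtain ⟨n, hn⟩ := pow_unbounded_of_one_lt C (one_lt_two (α := ℝ))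
  obtain ⟨Y, hY, hY'⟩ := fin_K (p := p) h.A_ne (ϖ := vpk a4 a6 p l) (SelN_car h l) S n
  refine (hY.biUnion (t := fun x => {s | Kap a4 a6 p _ l s (algebraMap _ _ x.1) (algebraMap _ _ x.2)})
    fun x _ => Set.Subsingleton.finite fun s hs s' hs' => ?_).subset fun s hs => ?_
  · have e := h.kap_sub hs hs'
    rw [sub_self, sub_self] at e
    exact sub_eq_zero.1 (h.kap_ker e)
  obtain ⟨a, w, hk⟩ := h.sel_fixN hs.1 hs.2.1 hs.2.2
  obtain ⟨y, hy⟩ := hY' a w ((algebraMap (RatFunc k) (Kb k)).injective (by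
      rw [map_add, map_sub, map_mul, alg_cB, map_div₀, map_zero]
      exact h.kap_coc hk))
    (fun v hv => (hc ⟨v, hv⟩ s a w hk).imp fun _ e => e.trans ((hC ⟨_, rfl⟩).trans hn.le))
    fun v hv => SelN_good h hAF hS (fun e => hv ((hm v).2 (Or.inl e)))
      (fun e => hv ((hm v).2 (Or.inr e))) hk
  refine Set.mem_biUnion hy ?_
  have e := SelF_cob h hk (y := algebraMap _ _ y) ⟨om_alg y, fun σ _ => σ.commutes y⟩
  show Kap a4 a6 p _ l s (algebraMap _ _ (a - _)) (algebraMap _ _ (w + _))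
  rw [map_sub, map_sub, map_add, map_mul, map_div₀, map_pow]
  exact e

theorem Hy.sel_finN (h : Hy p a4 a6) (hF0 : F ≠ 0)
    (hAF : hasseInv p a4 a6 * Dc a4 a6 ∣ F) (hS : Stg (hasseInv p a4 a6) F b Φ) :
    {s | s ∈ Sel a4 a6 p (MulAction.stabilizer (Gk k) Φ.w0) l ∧ p • s = 0}.Finite := by
  have h1 : ∀ s ∈ Sel a4 a6 p (MulAction.stabilizer (Gk k) Φ.w0) l, ∀ n : ℕ,
      (acA a4 a6 p _ l Φ.σ0)^[n] s = acA a4 a6 p _ l (Φ.σ0 ^ n) s := fun s hs n => by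
    induction n with
    | zero => exact (acA_triv (one_mem _) hs).symm
    | succ n ih => rw [Function.iterate_succ_apply', ih, pow_succ', acA_mul]
  have h2 : Φ.σ0 ^ p ∈ MulAction.stabilizer (Gk k) Φ.w0 := by
    show (Φ.σ0 ^ p) Φ.w0 = Φ.w0
    rw [Φ.LatA_pow0, CharP.cast_eq_zero, add_zero]
  refine fin_of_nil (Sel a4 a6 p _ l ⊓ (nsmulAddMonoidHom p).ker)
    (acA a4 a6 p _ l Φ.σ0 - AddMonoidHom.id _) (fun s hs => ⟨sub_mem (acA_mem _ hs.1) hs.1, ?_⟩) p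
    (fun s hs => pi_nil hp.out _ hs.2 ((h1 s hs.1 p).trans (acA_triv h2 hs.1)))
    ((h.sel_finN0 hF0 hAF hS).subset fun s hs => ⟨hs.1.1, hs.1.2, sub_eq_zero.1 hs.2⟩)
  have e : p • s = 0 := hs.2
  show p • (acA a4 a6 p _ l Φ.σ0 - AddMonoidHom.id _ : _ →+ _) s = 0
  rw [← map_nsmul, e, map_zero]

end Pool.Agent.ASel
end

-- merged part: Pool.Agent.Work.MP_60d5ce_nt.AH.VCh
section
/-!
# A change of variables induces an isomorphism of the groups of points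

PLAN.  First a homomorphism for every `C`: equation and nonsingularity are preserved (`equation_iff`, `nonsingular_iff'`,
`variableChange_a₁` etc.; the equation is multiplied by `u ^ 6`, the two derivatives change by an invertible triangular matrix);
`negY` is compatible; slopes satisfy `slope = u * slope' + s` (`slope_of_X_ne`, `slope_of_Y_ne`), then `addX`, `addY`;
`Point.add_of_Y_eq`, `Point.add_some`.  It is injective and surjective by solving for `x`, `y` (`AddEquiv.ofBijective`).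
-/

namespace Pool.Agent.ASel

open WeierstrassCurve WeierstrassCurve.Affine

section

variable {M : Type} [Field M] (W : WeierstrassCurve M) (C : VariableChange M)

/-- the new first coordinate -/
def VCh_X (x : M) : M := (C.u : M) ^ 2 * x + C.r

/-- the new second coordinate -/
def VCh_Y (x y : M) : M := (C.u : M) ^ 3 * y + (C.u : M) ^ 2 * C.s * x + C.t

lemma VCh_Xi {x x' : M} : VCh_X C x = VCh_X C x' ↔ x = x' := by
  simp [VCh_X]

lemma VCh_Yi {x y y' : M} : VCh_Y C x y = VCh_Y C x y' ↔ y = y' := by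
  simp [VCh_Y]

lemma VCh_neg (x y : M) : W.toAffine.negY (VCh_X C x) (VCh_Y C x y) =
    VCh_Y C x ((C • W).toAffine.negY x y) := by
  simp only [negY, VCh_X, VCh_Y, variableChange_a₁, variableChange_a₃, Units.val_inv_eq_inv_val]
  field

lemma VCh_dY (x y : M) : 2 * VCh_Y C x y + W.a₁ * VCh_X C x + W.a₃ =
    (C.u : M) ^ 3 * (2 * y + (C • W).a₁ * x + (C • W).a₃) := by
  simp only [VCh_X, VCh_Y, variableChange_a₁, variableChange_a₃, Units.val_inv_eq_inv_val]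
  field

lemma VCh_dX (x y : M) : W.a₁ * VCh_Y C x y - (3 * VCh_X C x ^ 2 + 2 * W.a₂ * VCh_X C x + W.a₄) =
    (C.u : M) ^ 4 * ((C • W).a₁ * y - (3 * x ^ 2 + 2 * (C • W).a₂ * x + (C • W).a₄)) -
      C.s * ((C.u : M) ^ 3 * (2 * y + (C • W).a₁ * x + (C • W).a₃)) := by
  simp only [VCh_X, VCh_Y, variableChange_a₁, variableChange_a₂, variableChange_a₃,
    variableChange_a₄, Units.val_inv_eq_inv_val]
  field

lemma VCh_ns (x y : M) : W.toAffine.Nonsingular (VCh_X C x) (VCh_Y C x y) ↔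
    (C • W).toAffine.Nonsingular x y := by
  have e : VCh_Y C x y ^ 2 + W.a₁ * VCh_X C x * VCh_Y C x y + W.a₃ * VCh_Y C x y -
      (VCh_X C x ^ 3 + W.a₂ * VCh_X C x ^ 2 + W.a₄ * VCh_X C x + W.a₆) = (C.u : M) ^ 6 *
      (y ^ 2 + (C • W).a₁ * x * y + (C • W).a₃ * y -
        (x ^ 3 + (C • W).a₂ * x ^ 2 + (C • W).a₄ * x + (C • W).a₆)) := by
    simp only [VCh_X, VCh_Y, variableChange_a₁, variableChange_a₂, variableChange_a₃,
      variableChange_a₄, variableChange_a₆, Units.val_inv_eq_inv_val]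
    field
  rw [nonsingular_iff', nonsingular_iff', equation_iff', equation_iff', e, VCh_dX, VCh_dY]
  refine and_congr (by simp) ?_
  by_cases h : 2 * y + (C • W).a₁ * x + (C • W).a₃ = 0 <;> simp [h]

lemma VCh_addX (x x' l : M) : W.toAffine.addX (VCh_X C x) (VCh_X C x') (C.u * l + C.s) =
    VCh_X C ((C • W).toAffine.addX x x' l) := by
  simp only [addX, VCh_X, variableChange_a₁, variableChange_a₂, Units.val_inv_eq_inv_val]
  field

lemma VCh_addY (x x' y l : M) :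
    W.toAffine.addY (VCh_X C x) (VCh_X C x') (VCh_Y C x y) (C.u * l + C.s) =
      VCh_Y C ((C • W).toAffine.addX x x' l) ((C • W).toAffine.addY x x' y l) := by
  rw [addY, addY, ← VCh_neg, negAddY, negAddY, VCh_addX]
  simp only [VCh_X, VCh_Y]
  congr 1
  ring

variable [DecidableEq M]

lemma VCh_slope {x x' y y' : M} (h : (C • W).toAffine.Equation x y)
    (h' : (C • W).toAffine.Equation x' y') (hxy : ¬(x = x' ∧ y = (C • W).toAffine.negY x' y')) :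
    W.toAffine.slope (VCh_X C x) (VCh_X C x') (VCh_Y C x y) (VCh_Y C x' y') =
      C.u * (C • W).toAffine.slope x x' y y' + C.s := by
  by_cases hx : x = x'
  · have hy : y ≠ (C • W).toAffine.negY x' y' := fun e => hxy ⟨hx, e⟩
    obtain ⟨rfl, rfl⟩ := And.intro hx (Y_eq_of_Y_ne h h' hx hy)
    have e : ∀ (V : WeierstrassCurve M) (a b : M), b - V.toAffine.negY a b =
        2 * b + V.a₁ * a + V.a₃ := fun V a b => by rw [negY]; ring
    have h0 := (e _ _ _).symm.trans_ne (sub_ne_zero.2 hy)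
    rw [slope_of_Y_ne rfl hy, slope_of_Y_ne rfl (by rwa [VCh_neg, Ne, VCh_Yi]), e, e,
      ← neg_sub (W.a₁ * _), VCh_dX, VCh_dY]
    generalize 2 * y + (C • W).a₁ * x + (C • W).a₃ = d at h0 ⊢
    field
  · rw [slope_of_X_ne hx, slope_of_X_ne fun e => hx ((VCh_Xi C).1 e)]
    have := sub_ne_zero.2 hx
    rw [show VCh_X C x - VCh_X C x' = (C.u : M) ^ 2 * (x - x') by simp only [VCh_X]; ring]
    simp only [VCh_Y]
    field

/-- the homomorphism on points -/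
def VCh_hom : (C • W).toAffine.Point →+ W.toAffine.Point :=
  AddMonoidHom.mk' (fun P => match P with
    | .zero => 0
    | .some x y h => .some _ _ ((VCh_ns W C x y).2 h)) (by
    rintro (_ | ⟨x, y, h⟩) (_ | ⟨x', y', h'⟩)
    any_goals rfl
    by_cases hxy : x = x' ∧ y = (C • W).toAffine.negY x' y'
    · rw [Point.add_of_Y_eq hxy.1 hxy.2, Point.add_of_Y_eq (congrArg _ hxy.1)
        (by rw [VCh_neg, hxy.1, hxy.2])]
    · rw [Point.add_some hxy, Point.add_some fun e => hxy ⟨(VCh_Xi C).1 e.1, by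
        have := e.2
        rwa [VCh_neg, (VCh_Xi C).1 e.1, VCh_Yi] at this⟩]
      simp only [VCh_slope W C h.1 h'.1 hxy, VCh_addX, VCh_addY])

end

theorem exists_vch {M : Type} [Field M] [DecidableEq M] (W : WeierstrassCurve M)
    (C : VariableChange M) : ∃ e : (C • W).toAffine.Point ≃+ W.toAffine.Point, ∀ x y h, ∃ h',
      e (.some x y h) = .some ((C.u : M) ^ 2 * x + C.r)
        ((C.u : M) ^ 3 * y + (C.u : M) ^ 2 * C.s * x + C.t) h' := by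
  refine ⟨AddEquiv.ofBijective (VCh_hom W C) ⟨(injective_iff_map_eq_zero _).2 ?_, ?_⟩,
    fun x y h => ⟨(VCh_ns W C x y).2 h, rfl⟩⟩
  · rintro (_ | ⟨x, y, h⟩) e
    · rfl
    · exact absurd e (Point.some_ne_zero _)
  · rintro (_ | ⟨x, y, h⟩)
    · exact ⟨0, rfl⟩
    · obtain ⟨a, rfl⟩ : ∃ a, VCh_X C a = x := ⟨(x - C.r) / (C.u : M) ^ 2, by rw [VCh_X]; field⟩
      obtain ⟨b, rfl⟩ : ∃ b, VCh_Y C a b = y :=
        ⟨(y - C.t - (C.u : M) ^ 2 * C.s * a) / (C.u : M) ^ 3, by rw [VCh_Y]; field⟩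
      exact ⟨.some a b ((VCh_ns W C a b).1 h), rfl⟩

end Pool.Agent.ASel
end

-- merged part: Pool.Agent.Work.MP_60d5ce_nt.AH.Tw
section
/-!
# Frobenius twists

PLAN.  For `M` algebraically closed (of characteristic `p`, `charP_of_injective_algebraMap`) let `φ = iterateFrobenius M p m`, which is
bijective.  `exists_cmp` gives `s : (Wm a4 a6 M).Point →+ ((Wm a4 a6 M).map φ).Point`, bijective by `Cmp.inj`, `Cmp.surj`; the target
curve is `(C.baseChange M) • (W.baseChange M)` (`map_variableChange`), compose with `exists_vch`.  So there is an isomorphism `e M` from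
the points of `Ew a4 a6` to those of `W` with `(x, y) ↦ (u ^ 2 x ^ q + r, u ^ 3 y ^ q + u ^ 2 s x ^ q + t)`, `q = p ^ m`; `T M` is its
inverse.  `map`, `act`: prove them for `e` by cases on the point (`Point.map_some`).  `lev`: `mem_lev` or the definition of `Lev`.
-/

namespace Pool.Agent.ASel

open Polynomial Pool.Agent.Smith Pool.Agent.ShaAsc WeierstrassCurve WeierstrassCurve.Affine
open scoped Classical

variable {k : Type} [Field k] (p : ℕ) (a4 a6 : k[X]) (W : WeierstrassCurve (RatFunc k)) (m : ℕ)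

/-- `W` is isomorphic to the `m`-th Frobenius twist of `Ew a4 a6` -/
def IsTw : Prop := ∃ C : VariableChange (RatFunc k), C • W =
  ⟨0, 0, 0, algebraMap k[X] (RatFunc k) a4 ^ p ^ m, algebraMap k[X] (RatFunc k) a6 ^ p ^ m⟩

variable [hp : Fact p.Prime] [CharP k p]

/-- the points of `W` over a subfield `S` are the points of level `m` of `Ew a4 a6` -/
structure TwD : Type 1 where
  T : ∀ (M : Type) [Field M] [Algebra (RatFunc k) M] [IsAlgClosed M],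
    Pts W M ≃+ Pts (Ew a4 a6) M
  map : ∀ {M M' : Type} [Field M] [Algebra (RatFunc k) M] [IsAlgClosed M] [Field M']
    [Algebra (RatFunc k) M'] [IsAlgClosed M'] (f : M →ₐ[RatFunc k] M') (P : Pts W M),
    T M' (Point.map (W' := W.toAffine) f P) = Point.map (W' := (Ew a4 a6).toAffine) f (T M P)
  act : ∀ {L M : Type} [Field L] [Field M] [Algebra (RatFunc k) L] [Algebra L M]
    [Algebra (RatFunc k) M] [IsScalarTower (RatFunc k) L M] [IsAlgClosed M] (τ : M ≃ₐ[L] M)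
    (P : Pts W M), T M (act W τ P) = act (Ew a4 a6) τ (T M P)
  lev : ∀ {M : Type} [Field M] [Algebra (RatFunc k) M] [IsAlgClosed M] [CharP M p] (S : Subfield M),
    (∀ c : RatFunc k, algebraMap _ M c ∈ S) → ∀ P : Pts W M,
      T M P ∈ Lev p S (Wm a4 a6 M) m ↔ Quad.xc P ∈ S ∧ yc P ∈ S

variable {p a4 a6 W m}

/-- the formula for the twisting isomorphism -/
def Tw_P (q : ℕ) (C : VariableChange (RatFunc k)) {M : Type} [Field M] [Algebra (RatFunc k) M]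
    (e : Pts (Ew a4 a6) M ≃+ Pts W M) : Prop :=
  ∀ x y hn, ∃ h', e (.some x y hn) = .some
    (algebraMap (RatFunc k) M C.u ^ 2 * x ^ q + algebraMap _ M C.r)
    (algebraMap (RatFunc k) M C.u ^ 3 * y ^ q +
      algebraMap (RatFunc k) M C.u ^ 2 * algebraMap _ M C.s * x ^ q + algebraMap _ M C.t) h'

theorem Tw_ex {C : VariableChange (RatFunc k)} (h : C • W =
    ⟨0, 0, 0, algebraMap k[X] (RatFunc k) a4 ^ p ^ m, algebraMap k[X] (RatFunc k) a6 ^ p ^ m⟩)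
    (M : Type) [Field M] [Algebra (RatFunc k) M] [IsAlgClosed M] :
    ∃ e : Pts (Ew a4 a6) M ≃+ Pts W M, Tw_P (p ^ m) C e := by
  have : CharP M p := charP_of_injective_algebraMap (algebraMap (RatFunc k) M).injective p
  have e0 : (Wm a4 a6 M).map (iterateFrobenius M p m) =
      C.map (algebraMap (RatFunc k) M) • W.map (algebraMap (RatFunc k) M) := by
    have z : iterateFrobenius M p m (algebraMap (RatFunc k) M 0) = algebraMap (RatFunc k) M 0 := by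
      rw [map_zero, map_zero]
    rw [map_variableChange, h]
    ext
    · exact z
    · exact z
    · exact z
    · exact (map_pow (algebraMap (RatFunc k) M) _ _).symm
    · exact (map_pow (algebraMap (RatFunc k) M) _ _).symm
  obtain ⟨s, hs⟩ : ∃ s : (Wm a4 a6 M).Point →+ (C.map (algebraMap (RatFunc k) M) •
      W.map (algebraMap (RatFunc k) M)).toAffine.Point, Cmp s (iterateFrobenius M p m) :=
    e0 ▸ exists_cmp _ _
  obtain ⟨e, he⟩ := exists_vch (W.map (algebraMap (RatFunc k) M)) (C.map (algebraMap (RatFunc k) M))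
  refine ⟨(AddEquiv.ofBijective s ⟨hs.inj, hs.surj (bijective_iterateFrobenius M p m).2⟩).trans e,
    fun x y hn => ?_⟩
  obtain ⟨h1, e1⟩ := hs.pt x y hn
  obtain ⟨h2, e2⟩ := he _ _ h1
  exact ⟨h2, (congrArg e e1).trans e2⟩

omit hp [CharP k p] in
theorem Tw_comm {q : ℕ} {C : VariableChange (RatFunc k)} {M M' : Type} [Field M]
    [Algebra (RatFunc k) M] [Field M'] [Algebra (RatFunc k) M'] {g : M →+* M'}
    (hg : ∀ c, g (algebraMap (RatFunc k) M c) = algebraMap _ M' c)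
    {e : Pts (Ew a4 a6) M ≃+ Pts W M} (he : Tw_P q C e)
    {e' : Pts (Ew a4 a6) M' ≃+ Pts W M'} (he' : Tw_P q C e')
    {s : Pts (Ew a4 a6) M →+ Pts (Ew a4 a6) M'} (hs : Cmp s g) {s' : Pts W M →+ Pts W M'}
    (hs' : Cmp s' g) (P : Pts W M) : e'.symm (s' P) = s (e.symm P) := by
  obtain ⟨Q, rfl⟩ := e.surjective P
  rw [e.symm_apply_apply, e'.symm_apply_eq]
  rcases Q with _ | ⟨x, y, hn⟩
  · rw [← Point.zero_def, map_zero, map_zero, map_zero, map_zero]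
  · obtain ⟨h1, e1⟩ := he x y hn
    obtain ⟨h2, e2⟩ := hs'.pt _ _ h1
    obtain ⟨h3, e3⟩ := hs.pt x y hn
    obtain ⟨h4, e4⟩ := he' _ _ h3
    rw [e1, e2, e3, e4]
    simp only [map_add, map_mul, map_pow, hg]

theorem IsTw.twD (h : IsTw p a4 a6 W m) : Nonempty (TwD p a4 a6 W m) := by
  obtain ⟨C, h⟩ := h
  choose e he using Tw_ex h
  refine ⟨⟨fun M _ _ _ => (e M).symm, fun f P =>
    Tw_comm f.commutes (he _) (he _) (cmp_map _ f) (cmp_map _ f) P, fun {L M} _ _ _ _ _ _ _ τ P =>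
    Tw_comm (g := (τ : M →+* M)) (fun c => ?_) (he _) (he _)
      ⟨WeierstrassCurve.map_baseChange _ τ.toAlgHom, fun _ _ _ => ⟨_, rfl⟩⟩
      ⟨WeierstrassCurve.map_baseChange _ τ.toAlgHom, fun _ _ _ => ⟨_, rfl⟩⟩ P,
    fun {M} _ _ _ _ S hS P => ?_⟩⟩
  · rw [IsScalarTower.algebraMap_apply (RatFunc k) L M]
    exact τ.commutes _
  obtain ⟨Q, rfl⟩ := (e M).surjective P
  rw [(e M).symm_apply_apply]
  refine Iff.trans ⟨fun a => a ⟨hS _, hS _, hS _, hS _⟩, fun a _ => a⟩ ?_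
  rcases Q with _ | ⟨x, y, hn⟩
  · rw [← Point.zero_def, map_zero]
    exact iff_of_true (lev_zero p S m) ⟨zero_mem S, zero_mem S⟩
  obtain ⟨h1, e1⟩ := he M x y hn
  rw [e1]
  have u0 : algebraMap (RatFunc k) M C.u ≠ 0 := (_root_.map_ne_zero _).2 C.u.ne_zero
  have hu := hS C.u
  have k1 : ∀ (n : ℕ) (a b : M), b ∈ S → algebraMap (RatFunc k) M C.u ^ n * a + b ∈ S → a ∈ S :=
    fun n a b hb hab => by
      have := div_mem (sub_mem hab hb) (pow_mem hu n)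
      rwa [add_sub_cancel_right, mul_div_cancel_left₀ _ (pow_ne_zero n u0)] at this
  have k2 : ∀ a ∈ S, algebraMap (RatFunc k) M C.u ^ 2 * algebraMap _ M C.s * a +
      algebraMap _ M C.t ∈ S := fun a ha =>
    add_mem (mul_mem (mul_mem (pow_mem hu 2) (hS _)) ha) (hS _)
  refine ⟨fun a => ⟨add_mem (mul_mem (pow_mem hu 2) a.1) (hS _), ?_⟩, fun a => ?_⟩
  · have := add_mem (mul_mem (pow_mem hu 3) a.2) (k2 _ a.1)
    rwa [← add_assoc] at this
  · have hx := k1 2 _ _ (hS _) a.1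
    exact ⟨hx, k1 3 _ _ (k2 _ hx) (add_assoc (G := M) _ _ _ ▸ a.2)⟩

end Pool.Agent.ASel
end

-- merged part: Pool.Agent.Work.MP_60d5ce_nt.AH.BrN
section
/-!
# The bridge for a Frobenius twist

The proofs of `AG/BrgA.lean` and `AG/BrgB.lean`, for the points of `W` seen as the points of level `l` of `Ew a4 a6`.
-/

namespace Pool.Agent.ASel

open Polynomial Pool.Agent.Smith Pool.Agent.ShaAsc WeierstrassCurve WeierstrassCurve.Affine
open scoped Classical IntermediateField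

variable {k : Type} [Field k] {p : ℕ} [hp : Fact p.Prime] [CharP k p] {a4 a6 : k[X]}
  {W : WeierstrassCurve (RatFunc k)} {l : ℕ} (T : TwD p a4 a6 W l)

namespace TwD

variable {N M : Type} [Field N] [Algebra (RatFunc k) N] [DecidableEq N] [Field M]
  [Algebra (RatFunc k) M] [IsAlgClosed M] (κ : N →ₐ[RatFunc k] M)

/-- the points of `W` over a subfield as points of `Ew a4 a6` -/
noncomputable def th : Pts W N →+ Pts (Ew a4 a6) M :=
  (T.T M).toAddMonoidHom.comp (Point.map (W' := W.toAffine) κ)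

theorem th_apply (P : Pts W N) : T.th κ P = T.T M (Point.map (W' := W.toAffine) κ P) := rfl

theorem th_inj : Function.Injective (T.th κ) :=
  (T.T M).injective.comp (Point.map_injective (W' := W.toAffine) κ)

theorem th_act {K L : Type} [Field K] [Algebra (RatFunc k) K] [Algebra K N]
    [IsScalarTower (RatFunc k) K N] [Field L] [Algebra (RatFunc k) L] [Algebra L M]
    [IsScalarTower (RatFunc k) L M] {σ : N ≃ₐ[K] N} {τ : M ≃ₐ[L] M} (h : ∀ x, κ (σ x) = τ (κ x))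
    (P : Pts W N) : T.th κ (ShaAsc.act W σ P) = ShaAsc.act (Ew a4 a6) τ (T.th κ P) := by
  rw [th_apply, th_apply, map_act κ h, T.act]

theorem th_map {M' : Type} [Field M'] [Algebra (RatFunc k) M'] [IsAlgClosed M']
    (f : M →ₐ[RatFunc k] M') (P : Pts W N) :
    Point.map (W' := (Ew a4 a6).toAffine) f (T.th κ P) = T.th (f.comp κ) P := by
  rw [th_apply, th_apply, ← T.map, map_map_eq]

theorem th_lev [CharP M p] {S : Subfield M} (hκ : ∀ y, κ y ∈ S) (P : Pts W N) :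
    T.th κ P ∈ Lev p S (Wm a4 a6 M) l := by
  refine (T.lev S (fun c => κ.commutes c ▸ hκ _) _).2 ?_
  rcases P with _ | ⟨x, y, h⟩
  · exact ⟨zero_mem _, zero_mem _⟩
  · exact ⟨hκ x, hκ y⟩

end TwD

variable [Fintype k] {Ω : Type} [Field Ω] [Algebra (RatFunc k) Ω] [IsSepClosure (RatFunc k) Ω]
  [DecidableEq Ω]

/-- the class `s` corresponds to the triple `(c, Q, n)` -/
def CorN (j : Ω →ₐ[RatFunc k] Kb k) (δ : Ω) (c : (Ω ≃ₐ[(RatFunc k)⟮δ⟯] Ω) → Pts W Ω)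
    (Q : Pts W Ω) (n : ℕ) (s : Amb a4 a6 p (MulAction.stabilizer (Gk k) (j δ)) l) : Prop :=
  ∃ x : (Gk k → EK a4 a6) × EK a4 a6, (x : Amb a4 a6 p _ l) = s ∧
    (∀ (σ : Gk k) (σ' : Ω ≃ₐ[(RatFunc k)⟮δ⟯] Ω), (∀ y, j (σ' y) = σ (j y)) →
      x.1 σ = T.th j (c σ')) ∧ p ^ n • x.2 = T.th j Q

variable {T} {j : Ω →ₐ[RatFunc k] Kb k} {δ : Ω}
  {c c' : (Ω ≃ₐ[(RatFunc k)⟮δ⟯] Ω) → Pts W Ω} {Q Q' : Pts W Ω} {n n' : ℕ}
  {s s' : Amb a4 a6 p (MulAction.stabilizer (Gk k) (j δ)) l}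

theorem corN_zero : CorN T j δ 0 0 0 0 := ⟨0, rfl, fun _ _ _ => by simp, by simp⟩

theorem CorN.add (h : CorN T j δ c Q n s) (h' : CorN T j δ c' Q' n' s') :
    CorN T j δ (c + c') (p ^ n' • Q + p ^ n • Q') (n + n') (s + s') := by
  obtain ⟨x, rfl, h1, h2⟩ := h
  obtain ⟨x', rfl, h3, h4⟩ := h'
  refine ⟨x + x', rfl, fun σ σ' e => ?_, ?_⟩
  · rw [Prod.fst_add, Pi.add_apply, Pi.add_apply, h1 σ σ' e, h3 σ σ' e, map_add]
  · rw [Prod.snd_add, smul_add, pow_add, mul_nsmul, mul_nsmul', h2, h4, map_add, map_nsmul, map_nsmul]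

theorem CorN.sub (h : CorN T j δ c Q n s) (h' : CorN T j δ c' Q' n' s') :
    CorN T j δ (c - c') (p ^ n' • Q - p ^ n • Q') (n + n') (s - s') := by
  obtain ⟨x, rfl, h1, h2⟩ := h
  obtain ⟨x', rfl, h3, h4⟩ := h'
  refine ⟨x - x', rfl, fun σ σ' e => ?_, ?_⟩
  · rw [Prod.fst_sub, Pi.sub_apply, Pi.sub_apply, h1 σ σ' e, h3 σ σ' e, map_sub]
  · rw [Prod.snd_sub, smul_sub, pow_add, mul_nsmul, mul_nsmul', h2, h4, map_sub, map_nsmul, map_nsmul]

variable (hj : ∀ x, x ∈ Om (RatFunc k) (Kb k) ↔ ∃ y, j y = x)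
include hj

theorem levN_iff (P : EK a4 a6) : P ∈ LG a4 a6 p l ↔ ∃ P0, T.th j P0 = P := by
  refine ⟨fun hP => ?_, fun ⟨P0, e⟩ => e ▸ T.th_lev j (fun y => (hj _).2 ⟨y, rfl⟩) P0⟩
  obtain ⟨P, rfl⟩ := (T.T (Kb k)).surjective P
  rw [T.lev _ om_alg, hj, hj] at hP
  rcases P with _ | ⟨x, y, hn⟩
  · exact ⟨0, rfl⟩
  · obtain ⟨⟨x, rfl : j x = _⟩, y, rfl : j y = _⟩ := hP
    exact ⟨.some x y ((baseChange_nonsingular (W := W.toAffine) j.injective x y).1 hn), rfl⟩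

theorem Hy.corN_ex (h : Hy p a4 a6) (hc : InSelP p W c Q n) :
    ∃ s ∈ Sel a4 a6 p _ l, CorN T j δ c Q n s := by
  obtain ⟨ξ, hξ⟩ : ∃ ξ : Gk k → EK a4 a6, ∀ (σ : Gk k) (σ' : Ω ≃ₐ[(RatFunc k)⟮δ⟯] Ω),
      (∀ y, j (σ' y) = σ (j y)) → ξ σ = T.th j (c σ') :=
    ⟨fun σ => if e : σ (j δ) = j δ then T.th j (c (j_resH hj e).choose) else 0, fun σ σ' e => by
      have e' := BrgA_stab e
      simp only [dif_pos e']
      rw [show (j_resH hj e').choose = σ' from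
        AlgEquiv.ext fun y => j.injective (((j_resH hj e').choose_spec y).trans (e y).symm)]⟩
  obtain ⟨Q', hQ⟩ : ∃ Q', p ^ n • Q' = T.th j Q := by
    clear hc
    induction n with
    | zero => exact ⟨_, one_smul _ _⟩
    | succ n ih =>
      obtain ⟨P, hP⟩ := ih
      obtain ⟨P', rfl⟩ := h.ord_Kb.divp P
      exact ⟨P', by rw [pow_succ, mul_smul, hP]⟩
  have : Algebra.IsIntegral (RatFunc k)⟮δ⟯ Ω := Algebra.IsIntegral.tower_top (R := RatFunc k)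
  have := IntermediateField.adjoin.finiteDimensional (Algebra.IsIntegral.isIntegral (R := RatFunc k) δ)
  obtain ⟨S, hS⟩ := hc.1.1.fin
  refine ⟨_, ⟨(ξ, Q'), ⟨fun σ hσ => ?_, fun σ hσ τ hτ => ?_, ⟨S.image j, fun σ hσ e => ?_⟩,
    ⟨n, fun σ hσ => ?_⟩, fun v j' => ?_⟩, rfl⟩, (ξ, Q'), rfl, hξ, hQ⟩
  · obtain ⟨σ', e⟩ := j_resH hj hσ
    exact (levN_iff hj _).2 ⟨_, (hξ σ σ' e).symm⟩
  · obtain ⟨σ', e⟩ := j_resH hj hσ
    obtain ⟨τ', e'⟩ := j_resH hj hτ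
    simp only
    rw [hξ (σ * τ) (σ' * τ') fun y => (e (τ' y)).trans (congrArg σ (e' y)), hξ σ σ' e, hξ τ τ' e', hc.1.1.2,
      map_add, T.th_act j e]
  · obtain ⟨σ', e'⟩ := j_resH hj hσ
    simp only
    rw [hξ σ σ' e', hS σ' fun y hy =>
      j.injective ((e' y).trans (e _ (Finset.mem_image_of_mem j hy))), map_zero]
  · obtain ⟨σ', e⟩ := j_resH hj hσ
    simp only
    rw [hξ σ σ' e, smul_sub, smul_sub, ← map_nsmul, ← map_nsmul, hQ, hc.2, map_sub, T.th_act j e,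
      sub_self]
  let Λ := separableClosure (Lv v) (Lb v)
  have hm : ∀ y, (j'.comp j : Ω →+* Lb v) y ∈ Λ := fun y =>
    om_map (algebraMap (RatFunc k) (Lv v)) (j' : Kb k →+* Lb v) j'.commutes ((hj _).2 ⟨y, rfl⟩)
  let ι : Ω →ₐ[RatFunc k] Λ := { (j'.comp j : Ω →+* Lb v).codRestrict Λ hm with
    commutes' := fun a => Subtype.ext ((j'.comp j).commutes a) }
  let κ : Λ →ₐ[RatFunc k] Lb v := Λ.val.restrictScalars _
  obtain ⟨a, a0, a1⟩ := av_nontriv v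
  obtain ⟨P, hP⟩ := loc_split (K := RatFunc k) (L := Lv v) hc.1 ⟨a, a0, by rwa [norm_alg]⟩ ι
    ι.commutes
  refine ⟨T.th κ P, T.th_lev κ (fun y => y.2) P, fun τ σ hσ e => ?_⟩
  obtain ⟨σ', e'⟩ := j_resH hj hσ
  obtain ⟨τ', f⟩ := ShaFF.exists_res Λ.val τ
  simp only
  rw [hξ σ σ' e', ← T.th_act κ f, ← map_sub, ← hP τ' σ' fun y => Subtype.ext
    ((congrArg j' (e' y)).trans ((e _).trans (f (ι y)).symm)), em, T.th_map, T.th_apply κ, map_map_eq]
  rfl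

theorem corN_same (h1 : CorN T j δ c Q n s) (h2 : CorN T j δ c' Q' n' s) :
    SameSel p W c Q n c' Q' n' := by
  obtain ⟨x, rfl, a1, a2⟩ := h1
  obtain ⟨x', e, b1, b2⟩ := h2
  obtain ⟨P, hP, c1, m, c2⟩ := QuotientAddGroup.eq_iff_sub_mem.1 e.symm
  obtain ⟨P, rfl⟩ := (levN_iff (T := T) hj P).1 hP
  refine ⟨P, m, fun σ' => T.th_inj j ?_, T.th_inj j ?_⟩
  · obtain ⟨σ, f⟩ := j_lift hj (σ'.restrictScalars (RatFunc k))
    rw [map_sub, map_sub, ← a1 σ σ' f, ← b1 σ σ' f, T.th_act j (σ := σ') f]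
    exact c1 σ (BrgA_stab f)
  · rw [map_nsmul, map_sub, map_sub, map_nsmul, map_nsmul, map_nsmul, ← a2, ← b2, ← mul_nsmul,
      ← mul_nsmul', ← pow_add, ← smul_sub, ← smul_sub, smul_comm, map_zero]
    exact (congrArg _ c2).trans (smul_zero _)

theorem CorN.uniq (h1 : CorN T j δ c Q n s) (h2 : CorN T j δ c Q n s') : s = s' := by
  obtain ⟨x, rfl, a1, a2⟩ := h1
  obtain ⟨x', rfl, b1, b2⟩ := h2
  refine QuotientAddGroup.eq_iff_sub_mem.2 ⟨0, zero_mem _, fun σ hσ => ?_, n, ?_⟩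
  · obtain ⟨σ', e⟩ := j_resH hj hσ
    rw [Prod.fst_sub, Pi.sub_apply, a1 σ σ' e, b1 σ σ' e, map_zero, sub_self, sub_self]
  · rw [sub_zero, Prod.snd_sub, smul_sub, a2, b2, sub_self]

theorem Hy.corN_norm (h : Hy p a4 a6) {d : RatFunc k}
    (hδ : δ ^ p - δ = algebraMap _ _ d) [(MulAction.stabilizer (Gk k) (j δ)).Normal] {σ0 : Gk k}
    (h0 : σ0 (j δ) = j δ + 1) (hc : InSelP p W c Q n) (hs : CorN T j δ c Q n s) :
    ∃ (c0 : (Ω ≃ₐ[RatFunc k] Ω) → Pts W Ω) (Q0 : Pts W Ω),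
      InSelP p W c0 Q0 n ∧ InSelP p W (ShaAsc.res (RatFunc k)⟮δ⟯ c0) Q0 n ∧
      CorN T j δ (ShaAsc.res _ c0) Q0 n (∑ i ∈ Finset.range p, (acA a4 a6 p _ l σ0)^[i] s) := by
  have hG : IsGalois (RatFunc k) Ω := inferInstance
  have hfin : FiniteDimensional (RatFunc k) (RatFunc k)⟮δ⟯ :=
    IntermediateField.adjoin.finiteDimensional (Algebra.IsIntegral.isIntegral δ)
  have hch : CharP Ω p := charP_of_injective_algebraMap (algebraMap (RatFunc k) Ω).injective p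
  have k1 : InSelP p W (cores (RatFunc k) W c)
      (∑ x : Xs (RatFunc k) (RatFunc k)⟮δ⟯ Ω, act W x.out Q) n := by
    refine ⟨hc.1.cores p, fun σ => ?_⟩
    rw [← Pi.smul_apply, ← cores_nsmul]
    refine cor_cob act_mul out_smul (fun τ hτ => ?_) σ
    rw [smul_x0_iff] at hτ
    rw [ext0_of_mem _ hτ, Pi.smul_apply, hc.2, act_congr (σ := τ) (σ' := toH τ hτ) fun _ => rfl]
  have k2 : InSelP p W (ShaAsc.res (RatFunc k)⟮δ⟯ (cores (RatFunc k) W c))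
      (∑ x : Xs (RatFunc k) (RatFunc k)⟮δ⟯ Ω, act W x.out Q) n :=
    ⟨k1.1.res, fun σ => (k1.2 _).trans (by
      rw [act_congr (σ := σ) (σ' := σ.restrictScalars (RatFunc k)) fun _ => rfl])⟩
  refine ⟨_, _, k1, k2, ?_⟩
  obtain ⟨s1, hs1, k4⟩ := h.corN_ex (T := T) hj hc
  obtain rfl : s = s1 := CorN.uniq hj hs k4
  choose g hg using fun x : Xs (RatFunc k) (RatFunc k)⟮δ⟯ Ω => j_lift hj x.out
  obtain ⟨ρ, hρ⟩ := j_res hj σ0
  have hρ1 : ρ δ = δ + 1 := j.injective (by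
    change j _ = j _
    rw [hρ, h0, map_add, map_one])
  have hx : ∀ x : Xs (RatFunc k) (RatFunc k)⟮δ⟯ Ω, ∃ m : ℕ, x.out δ = δ + m := fun x => by
    obtain ⟨m, hm⟩ := Wp_fix (p := p) (x := x.out δ - δ) (by
      have := congrArg x.out hδ
      rw [map_sub, map_pow, AlgEquiv.commutes] at this
      rw [sub_pow_char]
      linear_combination this - hδ)
    exact ⟨m, by rw [← hm, add_sub_cancel]⟩
  have e1 : ∑ i ∈ Finset.range p, (acA a4 a6 p _ l σ0)^[i] s = ∑ x, acA a4 a6 p _ l (g x) s := by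
    refine Finset.sum_nbij (fun i => ((ρ ^ i : Ω ≃ₐ[RatFunc k] Ω) : Xs _ (RatFunc k)⟮δ⟯ Ω))
      (fun _ _ => Finset.mem_univ _) (fun i hi i' hi' e => ?_) (fun x _ => ?_) fun i _ => ?_
    · rw [BrgB_eq, BrgB_pow hρ1, BrgB_pow hρ1, add_right_inj] at e
      exact (CharP.natCast_injOn_Iio Ω p (Finset.mem_range.1 hi') (Finset.mem_range.1 hi) e).symm
    · obtain ⟨m, hm⟩ := hx x
      refine ⟨m % p, Finset.mem_range.2 (Nat.mod_lt _ hp.out.pos), ?_⟩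
      rw [← x.out_eq]
      refine BrgB_eq.2 ?_
      rw [BrgB_pow hρ1, ← CharP.cast_eq_mod, hm]
    · rw [BrgB_iter _ hs1]
      refine BrgB_same ?_ hs1
      rw [← hg, BrgB_pow h0, ← BrgB_eq.1 (Quotient.out_eq _), BrgB_pow hρ1, map_add, map_natCast]
  rw [e1]
  obtain ⟨x1, rfl, hx0, hx1⟩ := hs
  refine ⟨∑ x, cj a4 a6 (g x) x1,
    map_sum (QuotientAddGroup.mk' _) (fun x => cj a4 a6 (g x) x1) _, fun σ σ' e => ?_, ?_⟩
  · rw [Prod.fst_sum, Finset.sum_apply, ShaAsc.res, cores, cor, map_sum]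
    refine Finset.sum_congr rfl fun x _ => ?_
    have e2 : (σ'.restrictScalars (RatFunc k))⁻¹ • x = x := by
      obtain ⟨m, hm⟩ := hx x
      rw [inv_smul_eq_iff, ← x.out_eq]
      refine BrgB_eq.2 ?_
      change σ' (x.out δ) = x.out δ
      rw [hm, map_add, map_natCast]
      exact congrArg (· + _) (σ'.commutes ⟨δ, IntermediateField.mem_adjoin_simple_self _ δ⟩)
    have e3 := smul_x0_iff.1 (sh_stab out_smul (σ'.restrictScalars (RatFunc k)) x)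
    rw [Sh, ext0_of_mem _ e3, T.th_act j (hg x), ← hx0 ((g x)⁻¹ * σ * g x) _ fun y => ?_]
    · rfl
    · refine (g x).injective ?_
      rw [toH_apply, e2, ← hg, ← AlgEquiv.mul_apply, ← AlgEquiv.mul_apply, ← mul_assoc, ← mul_assoc,
        ← mul_assoc, ← mul_assoc, mul_inv_cancel, mul_inv_cancel, one_mul, one_mul,
        AlgEquiv.mul_apply, AlgEquiv.mul_apply, ← hg]
      exact e _
  · rw [Prod.snd_sum, Finset.smul_sum, map_sum]
    refine Finset.sum_congr rfl fun x _ => ?_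
    rw [T.th_act j (hg x), ← hx1, map_nsmul]
    rfl

omit hj in
theorem Hy.bridgeN (h : Hy p a4 a6) (T : TwD p a4 a6 W l) {d : RatFunc k}
    (hd : ∀ y : RatFunc k, y ^ p - y ≠ d) (hB : ¬ BadD a4 a6 p d) (δ : Ω)
    (hδ : δ ^ p - δ = algebraMap _ _ d) : FinIdx p W (RatFunc k)⟮δ⟯ := by
  obtain ⟨F, f0, f1, f2, f3⟩ := BrgB_F (mul_ne_zero h.A_ne h.disc) d
  obtain ⟨j, hj⟩ := exists_j0 (k := k) (Ω := Ω)
  have hw : j δ ^ p - j δ = algebraMap _ _ d := by rw [← map_pow, ← map_sub, hδ, j.commutes]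
  obtain ⟨σ0, h0⟩ := as_surj (p := p) (fun _ : Unit => d) (fun _ => j δ) (fun _ => hw)
    (fun e y hy => by
      by_contra hne
      have h3 : (((e ()).val : ℕ) : RatFunc k) ≠ 0 := by
        rw [Gal_cast, _root_.map_ne_zero]
        exact fun h4 => hne (funext fun _ => h4)
      have h4 : (((e ()).val : ℕ) : RatFunc k) ^ p = (e ()).val :=
        map_natCast (frobenius (RatFunc k) p) _
      refine hd (y / (e ()).val) ?_
      rw [div_pow, h4, ← sub_div, hy, Fintype.sum_unique, mul_div_cancel_left₀ _ h3]) fun _ => 1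
  replace h0 : σ0 (j δ) = j δ + 1 := by rw [h0 (), ZMod.val_one, Nat.cast_one]
  have hN := stab_normal hw
  let Φ : ASF p k Empty := ⟨d, Empty.elim, j δ, Empty.elim, hw, fun l => l.elim, σ0, fun _ => 1, h0,
    fun l => l.elim, fun _ => rfl, fun _ l => l.elim⟩
  have hf := h.sel_finN (l := l) (Φ := Φ) (b := 1) f0 f1 ⟨one_ne_zero, isCoprime_one_left, f2,
    fun v hv => (f3 v hv).trans_lt (one_lt_pow₀ one_lt_two hp.out.ne_zero), fun v hv _ => f3 v hv,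
    fun l => l.elim, fun l => l.elim⟩
  let S' : AddSubgroup (Amb a4 a6 p (MulAction.stabilizer (Gk k) (j δ)) l) :=
    AddSubgroup.ofSub {s | s ∈ Sel a4 a6 p _ l ∧
      ∃ c Q n, InSelP p W c Q n ∧ CorN T j δ c Q n s}
      ⟨0, zero_mem _, 0, 0, 0, inSelP_zero, corN_zero⟩
      fun _ ⟨hx, _, _, _, hx1, hx2⟩ _ ⟨hy, _, _, _, hy1, hy2⟩ => by
        rw [← sub_eq_add_neg]
        exact ⟨sub_mem hx hy, _, _, _, hx1.sub hy1, hx2.sub hy2⟩
  obtain ⟨Y, hY, hYS, hs⟩ := coker_fin p S' (BrgB_N p (acA a4 a6 p _ l σ0))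
    (fun s ⟨hs, c, Q, n, g1, g2⟩ => by
      obtain ⟨c0, Q0, -, g3, g4⟩ := h.corN_norm hj hδ h0 g1 g2
      refine ⟨?_, _, _, _, g3, g4⟩
      change ∑ i ∈ Finset.range p, (acA a4 a6 p _ l σ0)^[i] s ∈ _
      refine sum_mem fun i _ => ?_
      rw [BrgB_iter _ hs]
      exact acA_mem _ hs)
    (fun s hs => BrgB_NN p _ (by
      rw [BrgB_iter _ hs.1]
      refine acA_triv ?_ hs.1
      change (σ0 ^ p) (j δ) = j δ
      rw [BrgB_pow h0, CharP.cast_eq_zero, add_zero]))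
    (fun s hs => h.sel_primN hs.1) (hf.subset fun s hs => ⟨hs.1.1, hs.2⟩)
    (fun u hu0 hu => h.tate_up σ0 (fun u hu0 hu => by
      by_contra hne
      exact hB ⟨j δ, hw, σ0, u, h0, hne, hu0, hu⟩) l u hu0 fun n => ⟨(hu n).1.1, (hu n).2⟩)
  choose tc tQ tn ht using fun y : Y => (hYS y.2).2
  have := hY.to_subtype
  refine ⟨Set.range fun y => (tc y, tQ y, tn y), Set.finite_range _, ?_, fun c Q n g => ?_⟩
  · rintro _ ⟨y, rfl⟩
    exact (ht y).1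
  obtain ⟨s, g1, g2⟩ := h.corN_ex (T := T) hj g
  obtain ⟨y, hy, x, ⟨-, c1, Q1, n1, g3, g4⟩, rfl⟩ := hs s ⟨g1, c, Q, n, g, g2⟩
  obtain ⟨c0, Q0, g5, -, g6⟩ := h.corN_norm hj hδ h0 g3 g4
  exact ⟨_, ⟨⟨y, hy⟩, rfl⟩, c0, Q0, n1, g5, corN_same hj g2 ((ht ⟨y, hy⟩).2.add g6)⟩

end Pool.Agent.ASel
end
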