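import Pool.Agent.Work.MP_60d5ce_nt.AG.SelT
import Pool.Agent.Work.MP_60d5ce_nt.AG.FBad
import Pool.Agent.Work.MP_60d5ce_nt.AG.CFld
import Pool.Agent.Work.MP_60d5ce_nt.AG.FSet
import Pool.Agent.Work.MP_60d5ce_nt.AH.BrN
import Pool.Agent.Work.MP_60d5ce_nt.AS.SFam
import Pool.Agent.Work.MP_60d5ce_nt.AS.EllA

-- merged part: Pool.Agent.Work.MP_60d5ce_nt.AG.LatR
section
/-!
# The relation `RepL`

PLAN (`℘ y = y ^ p / A - y`, injective on `K1` by `noT`).  `rep_ex`: `κ u' = (a', w')`; `π ^ (p-1) u' ∈ p T`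
(`pi_pow`) so `π ^ (p-1) a' = ℘ y`; `π y = 0`, `y = π ^ (p-1) y'`, `a' - ℘ y' = π α` (`k1_h90`).  `κ u = (a, w)`,
`kF` and `kap_pi` give `a - π ^ (s+1) α ∈ ℘ K1`, change the representative; `π ^ (p-1) (a, w)` is the coboundary
of some `y` with `℘ y = 0`, so `w = π ω`.  `rep_cob`: `y = π ^ (p-1) y'`, `α + ℘ y'`, `ω - π ^ s (y' ^ p / A) ϖ`.
`rep_uniq`: `u' = 0`, `π α = ℘ y1`, `y1 = π y2`, the answer is `π ^ (p-1) y2`.  `rep_ker`: `κ (π ^ (p-2) u) = 0`, so
`π ^ (p-2) u = p u''`; by `pi_pow`, `π ^ (p-1) u'' = -π ^ (p-2) (u + π …)`, so `u = π u2`.  For `s ≥ 1` also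
`u' = π u2'`: `κ (π ^ (p-2) u') = (0, w'')`, `kV` gives `κ (V π ^ (p-2) u') = (0, ρ w'')`, and
`π ^ s V u' = p u = p π u2` gives `π ^ (p-2) V u' ∈ p T`, so `w'' = 0`.
-/

namespace Pool.Agent.ASel

open Polynomial Pool.Agent.Smith

variable {p : ℕ} {k : Type} [Field k] {ι : Type} [Fintype k] [hp : Fact p.Prime] [CharP k p]
  {A F b : k[X]} {v0 : Pl k} {ϖ0 : RatFunc k} {B : ℕ → ℕ} {Φ : ASF p k ι}

/-- `y ^ p / A - y` -/
noncomputable def LatR_wp (p : ℕ) [Fact p.Prime] [CharP k p] (A : k[X]) : Kb k →+ Kb k where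
  toFun y := y ^ p / pk _ A - y
  map_zero' := by simp [(Fact.out : p.Prime).ne_zero]
  map_add' x y := by
    have : CharP (Kb k) p := charP_of_injective_algebraMap (algebraMap k (Kb k)).injective p
    rw [add_pow_char]; ring

theorem LatR_wp_pi (i : ℕ) (y : Kb k) : Φ.pi^[i] (LatR_wp p A y) = LatR_wp p A (Φ.pi^[i] y) :=
  (iterate_map_sub Φ.pi i _ _).trans (congrArg (· - _) (ASF.pi_wp A y i))

theorem LatR_sub {x y : Kb k} (hx : Φ.K1 x) (hy : Φ.K1 y) : Φ.K1 (x - y) := by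
  obtain ⟨S, h⟩ := ASF.exists_K1 (Φ := Φ)
  exact (h _).1 (S.sub_mem ((h _).2 hx) ((h _).2 hy))

theorem LatR_ph {y : Kb k} (hy : Φ.K1 y) (c : RatFunc k) :
    Φ.K1 (y ^ p / pk _ A * algebraMap _ _ c) := by
  obtain ⟨S, h⟩ := ASF.exists_K1 (Φ := Φ)
  exact (h _).1 (S.mul_mem (S.div_mem (pow_mem ((h _).2 hy) p) (S.algebraMap_mem _))
    (S.algebraMap_mem _))

theorem LatR_k1wp {y : Kb k} (hy : Φ.K1 y) : Φ.K1 (LatR_wp p A y) :=
  LatR_sub (by simpa using LatR_ph (A := A) hy 1) hy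

theorem LatR_neg {y : Kb k} (hy : Φ.K1 y) : Φ.K1 (-y) := by
  simpa using LatR_sub (LatR_sub hy hy) hy

theorem LatR_top {X : Type} (f : X → X) (x : X) : f^[p - 2] (f x) = f^[p - 1] x := by
  rw [← Function.iterate_succ_apply, show (p - 2).succ = p - 1 by have := hp.out.two_le; omega]

theorem LatR_k2 {x : Kb k} (h : Φ.K1 x) : Φ.K2 (Φ.pi^[p - 1] x) :=
  (h.pi _).k2 ((Function.iterate_succ_apply' Φ.pi _ x).symm.trans
    (h.pi_p (by have := hp.out.two_le; omega)))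

theorem LatR_act {x : Kb k} (h : Φ.K1 x) (σ : Gk k) (i : ℕ) :
    σ (Φ.pi^[i] x) = Φ.pi^[i] (σ x) := by
  induction i with
  | zero => rfl
  | succ i ih =>
    rw [Function.iterate_succ_apply', Function.iterate_succ_apply', ← ih, ASF.pi_apply, ASF.pi_apply,
      map_sub, (h.pi i).comm]

theorem LatR_one (y : Kb k) (c : RatFunc k) (s : ℕ) :
    Φ.pi (Φ.pi^[s] y ^ p / pk _ A * algebraMap _ _ c) =
      Φ.pi^[s + 1] y ^ p / pk _ A * algebraMap _ _ c := by
  rw [Function.iterate_succ_apply']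
  exact (ASF.pi_mul _ _ 1).trans (congrArg (· * _) (ASF.pi_wp A _ 1))

theorem LatR_vps {y : Kb k} (hy : Φ.K1 y) (n s : ℕ) :
    Φ.pi^[p - 1] (Φ.pi^[s] y ^ p / pk _ A * algebraMap _ _ (vpn ϖ0 n)) =
      Φ.pi^[p - 1] y ^ p / pk _ A * algebraMap _ _ (vps ϖ0 n s) := by
  rw [ASF.pi_mul, ASF.pi_wp, vps]
  split_ifs with h
  · rw [h]; rfl
  · rw [← Function.iterate_add_apply, hy.pi_p (by have := hp.out.two_le; omega)]
    simp [hp.out.ne_zero]

namespace TD

variable {T : TD A F b v0 ϖ0 B Φ} {n s : ℕ} {u u' : T.T n} {a w a' w' : Kb k}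

theorem LatR_uniq (h : T.Kap n ((T.pi n)^[p - 1] u) a w) : ∃ y, Φ.K1 y ∧ a = LatR_wp p A y ∧
    w = -(y ^ p / pk _ A * algebraMap _ _ (vpn ϖ0 n)) := by
  obtain ⟨c, hc⟩ := T.pi_pow
  rw [hc, ← smul_neg] at h
  exact T.uniq h

theorem LatR_zero (h : T.Kap n (p • u) 0 w) : w = 0 := by
  obtain ⟨y, h1, h2, h3⟩ := T.uniq h
  rw [h3, T.noT y h1 h2.symm]
  simp [hp.out.ne_zero]

theorem LatR_div (h : T.Kap n ((T.pi n)^[p - 2] u) 0 0) : ∃ u2, u = T.pi n u2 := by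
  obtain ⟨x, hx⟩ := T.ker h
  obtain ⟨c, hc⟩ := T.pi_pow
  refine ⟨-(x + ∑ i ∈ Finset.range p, c i • (T.pi n)^[i] u), T.pi_inj n (p - 2) ?_⟩
  have e : ∀ i, (T.pi n)^[p - 1] (c i • (T.pi n)^[i] u) = p • c i • (T.pi n)^[i + 1] x := fun i => by
    have e' : (T.pi n)^[i + 1] (p • x) = p • (T.pi n)^[i + 1] x := iterate_map_nsmul _ _ _ _
    rw [iterate_map_nsmul, smul_comm p, ← e', ← hx, ← Function.iterate_add_apply, ← Function.iterate_add_apply,
      show p - 1 + i = i + 1 + (p - 2) by have := hp.out.two_le; omega]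
  have e2 : ∀ t : Finset ℕ, (T.pi n)^[p - 1] (∑ i ∈ t, c i • (T.pi n)^[i] u) =
      ∑ i ∈ t, p • c i • (T.pi n)^[i + 1] x := fun t => by
    induction t using Finset.induction_on with
    | empty => exact iter_zero T n _
    | insert i t hi ih => rw [Finset.sum_insert hi, Finset.sum_insert hi, iterate_map_add, ih, e]
  rw [LatR_top, iterate_map_neg, iterate_map_add, hc n x, hx, smul_add, Finset.smul_sum, e2]
  abel

theorem rep_ex (hu : u ∈ T.Lat n s) : ∃ a w, T.RepL n s u a w := by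
  obtain ⟨x, hx⟩ := T.mem_Lat.1 hu
  obtain ⟨a', w', h'⟩ := T.ex _ x
  obtain ⟨a, w, h⟩ := T.ex _ u
  have m := (T.mem h').1
  obtain ⟨y, y1, y2, -⟩ := LatR_uniq (kap_pi h' (p - 1))
  have y3 : Φ.pi y = 0 := T.noT _ (y1.pi 1) (by
    have e := LatR_wp_pi (Φ := Φ) (A := A) 1 y
    rw [← y2] at e
    exact e.symm.trans (LatR_k2 m).pi_eq)
  obtain ⟨y', z1, rfl⟩ := ASF.k1_tr (y1.k2 y3)
  obtain ⟨α, α1, α2⟩ := ASF.k1_h90 (LatR_sub m (LatR_k1wp (A := A) z1))
    (by rw [iterate_map_sub, LatR_wp_pi, y2, sub_self])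
  have k1 := T.cob h' (LatR_neg z1)
  rw [show a' + ((-y') ^ p / pk _ A - -y') = Φ.pi α from by
    rw [← α2, sub_eq_add_neg a', ← map_neg]; rfl] at k1
  have k2 := kap_pi k1 s
  rw [hx] at k2
  obtain ⟨z, z2, z3, -⟩ := kap_diff (T.kF h) k2
  have k3 := T.cob h z2
  rw [← z3, ← Function.iterate_succ_apply] at k3
  have k4 := kap_pi k3 (p - 1)
  obtain ⟨c, hc⟩ := T.pi_pow
  rw [hc, ← smul_neg, ← Function.iterate_add_apply,
    α1.pi_p (by have := hp.out.two_le; omega)] at k4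
  obtain ⟨η, η1, η2⟩ := ASF.k1_h90 (T.mem k3).2 (LatR_zero k4)
  exact ⟨_, _, x, α, η, _, hx, α1, η1, k1, η2 ▸ k3, rfl, rfl⟩

theorem rep_mem (h : T.RepL n s u a w) : Φ.K2 a ∧ Φ.K2 w := by
  obtain ⟨x, α, η, v, -, h1, h2, -, -, rfl, rfl⟩ := h
  exact ⟨LatR_k2 h1, LatR_k2 h2⟩

theorem rep_sub (h : T.RepL n s u a w) (h' : T.RepL n s u' a' w') :
    T.RepL n s (u - u') (a - a') (w - w') := by
  obtain ⟨x, α, η, v, h0, h1, h2, h3, h4, rfl, rfl⟩ := h
  obtain ⟨x', α', η', v', k0, k1, k2, k3, k4, rfl, rfl⟩ := h'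
  refine ⟨x - x', α - α', η - η', v - v', by rw [iter_sub, h0, k0, map_sub], LatR_sub h1 k1,
    LatR_sub h2 k2, ?_, ?_, (iterate_map_sub _ _ _ _).symm, (iterate_map_sub _ _ _ _).symm⟩
  · rw [map_sub]; exact T.sub h3 k3
  · rw [map_sub, iterate_map_sub]; exact T.sub h4 k4

theorem rep_act (h : T.RepL n s u a w) (σ : Gk k) : T.RepL n s (T.ac n σ u) (σ a) (σ w) := by
  obtain ⟨x, α, η, v, h0, h1, h2, h3, h4, rfl, rfl⟩ := h
  refine ⟨T.ac _ σ x, σ α, σ η, σ v, by rw [← ac_pi, h0, T.F_ac], h1.act σ, h2.act σ, ?_, ?_,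
    LatR_act h1 σ _, LatR_act h2 σ _⟩
  · rw [← show σ (Φ.pi α) = Φ.pi (σ α) from LatR_act h1 σ 1]
    exact T.act σ h3
  · rw [← show σ (Φ.pi η) = Φ.pi (σ η) from LatR_act h2 σ 1, ← LatR_act h1]
    exact T.act σ h4

theorem rep_cob (h : T.RepL n s u a w) {y : Kb k} (hy : Φ.K2 y) : T.RepL n s u
    (a + (y ^ p / pk _ A - y)) (w - y ^ p / pk _ A * algebraMap _ _ (vps ϖ0 n s)) := by
  obtain ⟨x, α, η, v, h0, h1, h2, h3, h4, rfl, rfl⟩ := h
  obtain ⟨z, hz, rfl⟩ := ASF.k1_tr hy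
  refine ⟨x, α + LatR_wp p A z, η - Φ.pi^[s] z ^ p / pk _ A * algebraMap _ _ (vpn ϖ0 n),
    v - Φ.pi z ^ p / pk _ A * algebraMap _ _ (vpn ϖ0 (n + 1)), h0, by simpa using LatR_sub h1 (LatR_neg (LatR_k1wp (A := A) hz)), LatR_sub h2 (LatR_ph (hz.pi s) _),
    ?_, ?_, ?_, ?_⟩
  · rw [map_add, show Φ.pi (LatR_wp p A z) = LatR_wp p A (Φ.pi z) from LatR_wp_pi 1 z]
    exact T.cob h3 (hz.pi 1)
  · rw [iterate_map_add, LatR_wp_pi, map_sub, LatR_one]
    exact T.cob h4 (hz.pi _)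
  · rw [iterate_map_add, LatR_wp_pi]; rfl
  · rw [iterate_map_sub, LatR_vps hz]

theorem rep_uniq (h : T.RepL n s 0 a w) : ∃ y, Φ.K2 y ∧ a = y ^ p / pk _ A - y ∧
    w = -(y ^ p / pk _ A * algebraMap _ _ (vps ϖ0 n s)) := by
  obtain ⟨x, α, η, v, h0, h1, h2, h3, h4, rfl, rfl⟩ := h
  obtain rfl : x = 0 := T.pi_inj _ s (by rw [h0, map_zero, iter_zero])
  obtain ⟨y, y1, y2, -⟩ := T.uniq (n := n + 1) (u := 0) (by rwa [smul_zero])
  obtain ⟨z, z1, z2, z3⟩ := T.uniq (n := n) (u := 0) (by rwa [smul_zero])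
  change _ = LatR_wp p A _ at y2 z2
  obtain ⟨t, t1, rfl⟩ := ASF.k1_h90 y1 (T.noT _ (y1.pi _) (by
    change LatR_wp p A _ = 0
    rw [← LatR_wp_pi, ← y2, ← Function.iterate_succ_apply]
    exact h1.pi_p (by have := hp.out.two_le; omega)))
  obtain rfl : z = Φ.pi^[s + 1] t := sub_eq_zero.1 (T.noT _ (LatR_sub z1 (t1.pi _)) (by
    change LatR_wp p A _ = 0
    rw [map_sub, ← z2, Function.iterate_succ_apply, Function.iterate_succ_apply, y2, LatR_wp_pi,
      sub_self]))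
  refine ⟨_, LatR_k2 t1, ?_, ?_⟩
  · rw [← LatR_top, y2, LatR_wp_pi, LatR_top]; rfl
  · rw [← LatR_vps t1, ← LatR_top Φ.pi η, z3, iterate_map_neg, ← LatR_top, LatR_one]

theorem rep_kap (h : T.RepL n s u a w) :
    T.Kap n ((T.pi n)^[p - 2] u) (if s = 0 then a else 0) w ∧
      ∃ u1 w1, T.Kap (n + 1) u1 a w1 := by
  obtain ⟨x, α, η, v, h0, h1, h2, h3, h4, rfl, rfl⟩ := h
  have k := kap_pi h4 (p - 2)
  rw [LatR_top Φ.pi η] at k
  refine ⟨?_, _, _, LatR_top (p := p) Φ.pi α ▸ kap_pi h3 (p - 2)⟩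
  split_ifs with hs
  · subst hs
    exact LatR_top (p := p) Φ.pi α ▸ k
  · rwa [← Function.iterate_add_apply, h1.pi_p (by have := hp.out.two_le; omega)] at k

theorem rep_ker (hs : s + 2 ≤ p) (h : T.RepL n s u 0 0) : ∃ u2 ∈ T.Lat n s, u = T.pi n u2 := by
  obtain ⟨u2, rfl⟩ := LatR_div (by simpa using (rep_kap h).1)
  refine ⟨u2, T.mem_Lat.2 ?_, rfl⟩
  obtain ⟨x, α, η, v, h0, h1, h2, h3, h4, h5, h6⟩ := h
  rcases s with _ | s
  · exact ⟨_, rfl⟩
  have k := kap_pi h3 (p - 2)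
  rw [LatR_top, ← h5] at k
  have e : (T.pi n)^[s] (T.Ve n x) = p • u2 := T.pi_inj n 1 (by
    rw [← Function.iterate_add_apply, add_comm, ← V_pi, h0, T.VF, iterate_map_nsmul]; rfl)
  have k2 := T.kV k
  rw [V_pi, show p - 2 = p - 2 - s + s by omega, Function.iterate_add_apply, e,
    iterate_map_nsmul] at k2
  rw [show p - 2 = p - 2 - s + s by omega, (mul_eq_zero.1 (LatR_zero k2)).resolve_left T.ρ_ne,
    ← show p - 2 = p - 2 - s + s by omega] at k
  obtain ⟨x2, rfl⟩ := LatR_div k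
  refine ⟨x2, T.pi_inj _ 1 ?_⟩
  rw [← Function.iterate_add_apply, add_comm 1, Function.iterate_succ_apply, h0]
  exact T.F_pi n 1 u2

theorem rep_coc (h : T.RepL n s u a w) :
    w - cB p (w / pk _ A) + a * algebraMap _ _ (vps ϖ0 n s) = 0 := by
  have k := T.coc (rep_kap h).1
  rw [vps]
  split_ifs at k ⊢
  · exact k
  · simpa using k

end TD

end Pool.Agent.ASel
end

-- merged part: Pool.Agent.Work.MP_60d5ce_nt.AG.LatC
section
/-!
# The chain of lattices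

PLAN.  If `RepL n s u 0 w` then `u' = π u2'`: `κ (π ^ (p-2) u') = (0, w'')` and `w'' = 0` (for `s = 0`, `u' = F u`,
use `kF`; for `1 ≤ s ≤ p - 2`, `π ^ s V u' = p u`, so `π ^ (p-2) V u' ∈ p T` and `kV`), then argue as in `rep_ker`.
`rep_step`: `κ u2' = (π α2, _)` as in `rep_ex`, `π α - π ^ 2 α2 = ℘ y` with `π ^ (p-2) y = 0`, so `y = π ^ 2 y''`
(`k1_h90` twice); change `κ u` by the coboundary of `-π ^ s y`.  `rep_jump`: `F u = π ^ (p-1) u2' = p u3 = F V u3`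
(`pi_pow`); `κ u3 = (π α3, π ω3)`, `kV`, `kap_diff`, `noT` give `ρ π ω3 = π ω`.
`chain`: by `sep` and `pi_pow` write `u = π ^ m u1` with `u1 ∉ π T`; `Lat 0 0` is everything; if
`a = ℘ y` then `RepL 0 0 u1 0 w1` (`rep_cob`) with `w1 ≠ 0` (`rep_ker`).  Then induct along
`(0,0), (0,1), …, (0,p-2), (1,0), …`: in each lattice there is a representative with `w ≠ 0` and
`vps = 0`; either `a ∉ ℘ K2` or one can go on.  Invariance under `Γ` passes through `pi_inj`, `V_inj`.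
-/

namespace Pool.Agent.ASel

open Polynomial Pool.Agent.Smith

variable {p : ℕ} {k : Type} [Field k] {ι : Type} [Fintype k] [hp : Fact p.Prime] [CharP k p]
  {A F b : k[X]} {v0 : Pl k} {ϖ0 : RatFunc k} {B : ℕ → ℕ} {Φ : ASF p k ι}

namespace TD

variable {T : TD A F b v0 ϖ0 B Φ} {n s : ℕ} {u : T.T n} {w : Kb k}

theorem LatC_pow : ∃ D : ∀ n, AddMonoid.End (T.T n), (∀ n s u, D n ((T.pi n)^[s] u) =
    (T.pi n)^[s] (D n u)) ∧ ∀ n u, (T.pi n)^[p - 1] u = p • -(u + T.pi n (D n u)) := by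
  obtain ⟨c, hc⟩ := T.pi_pow
  obtain ⟨E, e⟩ : ∃ E : ∀ n, AddMonoid.End (T.T n), ∀ n (u : T.T n) (i : ℕ),
      (E n ^ i) u = (T.pi n)^[i] u :=
    ⟨fun n => T.pi n, fun n u i => congrFun (AddMonoid.End.coe_pow _ _ i) u⟩
  refine ⟨fun n => ∑ i ∈ Finset.range p, c i • E n ^ i, fun n s u => ?_, fun n u => ?_⟩
  · rw [← e, ← e]
    exact DFunLike.congr_fun (Commute.sum_left _ _ _ fun i _ =>
      (Commute.pow_pow_self (E n) i s).smul_left (c i)).eq u
  · have h : (∑ i ∈ Finset.range p, c i • E n ^ i) u = ∑ i ∈ Finset.range p, c i • (E n ^ i) u :=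
      AddMonoidHom.finsetSum_apply _ _ _
    rw [hc, smul_neg, h, map_sum]
    refine congrArg (fun x => -(p • (u + x))) (Finset.sum_congr rfl fun i _ => ?_)
    rw [Function.iterate_succ_apply', ← e, ← map_nsmul]

/-- if `κ (π ^ (p-2) u) = 0` then `u ∈ π T` -/
theorem LatC_div (h : T.Kap n ((T.pi n)^[p - 2] u) 0 0) : ∃ u2, u = T.pi n u2 := by
  obtain ⟨D, h1, h2⟩ := LatC_pow (T := T)
  obtain ⟨x, hx⟩ := T.ker h
  have h3 := h2 n x
  rw [show p - 1 = p - 2 + 1 by have := hp.out.two_le; omega, Function.iterate_succ_apply,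
    smul_neg, smul_add, ← map_nsmul, ← map_nsmul, ← hx, h1,
    ← Function.iterate_succ_apply' (T.pi n), Function.iterate_succ_apply, ← iterate_map_add,
    ← iterate_map_neg] at h3
  refine ⟨-x - D n u, ?_⟩
  rw [map_sub, map_neg, T.pi_inj n _ h3]
  abel

theorem LatC_wp (T : TD A F b v0 ϖ0 B Φ) {y : Kb k} (hy : Φ.K1 y) (i : ℕ) (h : Φ.pi^[i] (y ^ p / pk _ A - y) = 0) :
    Φ.pi^[i] y = 0 := by
  rw [iterate_map_sub, ASF.pi_wp] at h
  exact T.noT _ (hy.pi i) h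

theorem LatC_up (hs : s + 2 ≤ p) {u' : T.T (n + 1)} {α w' : Kb k}
    (h1 : (T.pi (n + 1))^[s] u' = T.Fr n u) (h2 : T.Kap (n + 1) u' (Φ.pi α) w')
    (h3 : 0 = Φ.pi^[p - 1] α) : ∃ u2, (T.pi (n + 1))^[s + 1] u2 = T.Fr n u := by
  have h4 := kap_pi h2 (p - 2)
  rw [← Function.iterate_succ_apply Φ.pi, show (p - 2).succ = p - 1 by omega, ← h3] at h4
  have h5 := T.kV h4
  rw [show (T.pi (n + 1))^[p - 2] u' = (T.pi (n + 1))^[p - 2 - s] ((T.pi (n + 1))^[s] u') by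
    rw [← Function.iterate_add_apply, Nat.sub_add_cancel (by omega)], h1, T.V_pi, T.VF,
    iterate_map_nsmul] at h5
  obtain ⟨y, y1, y2, y3⟩ := T.uniq h5
  rw [T.noT y y1 y2.symm, zero_pow hp.out.ne_zero, zero_div, zero_mul, neg_zero] at y3
  rw [(mul_eq_zero.1 y3).resolve_left T.ρ_ne] at h4
  obtain ⟨u2, rfl⟩ := LatC_div h4
  exact ⟨u2, h1⟩

theorem rep_step (hs : s + 3 ≤ p) (h : T.RepL n s u 0 w) : ∃ a, T.RepL n (s + 1) u a w := by
  obtain ⟨u', α, ω, w', h1, h2, h3, h4, h5, h6, rfl⟩ := h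
  obtain ⟨a, w2, h7⟩ := rep_ex (T.mem_Lat.2 (LatC_up (by omega) h1 h4 h6))
  refine ⟨a, ?_⟩
  have h8 := h7
  obtain ⟨-, α2, ω2, -, -, g2, -, -, g5, -, rfl⟩ := h8
  obtain ⟨y, y1, y2, y3⟩ := kap_diff g5 h5
  have e : p - 1 = p - 2 + 1 := by omega
  have y4 : Φ.pi^[p - 2] y = 0 := LatC_wp T y1 _ (by
    rw [← sub_eq_iff_eq_add'.2 y2, iterate_map_sub, ← Function.iterate_add_apply,
      ← Function.iterate_add_apply, g2.pi_p (i := p - 2 + (s + 1 + 1)) (by omega), show p - 2 + (s + 1) = s + (p - 1) by omega,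
      Function.iterate_add_apply, ← h6, iterate_map_zero, sub_zero])
  rw [e, Function.iterate_succ_apply, y3, iterate_map_sub, ASF.pi_mul, ASF.pi_wp, y4,
    zero_pow hp.out.ne_zero, zero_div, zero_mul, sub_zero, ← Function.iterate_succ_apply Φ.pi,
    Nat.succ_eq_add_one, ← e]
  exact h7

theorem rep_jump (hs : s + 2 = p) (h0 : s ≠ 0) (h : T.RepL n s u 0 w) :
    ∃ u3 a3 w3, u = T.Ve n u3 ∧ T.RepL (n + 1) 0 u3 a3 w3 ∧ T.ρ * w3 = w := by
  obtain ⟨u', α, ω, w', h1, h2, h3, h4, h5, h6, rfl⟩ := h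
  obtain ⟨u2, g1⟩ := LatC_up hs.le h1 h4 h6
  obtain ⟨D, -, hD⟩ := LatC_pow (T := T)
  have e : s + 1 = p - 1 := by omega
  rw [e, hD, ← T.FV] at g1
  obtain rfl := T.F_inj n g1
  generalize -(u2 + T.pi (n + 1) (D (n + 1) u2)) = u3 at h5 ⊢
  obtain ⟨a3, w3, g2⟩ := rep_ex (s := 0) (u := u3) (T.mem_Lat.2 ⟨_, rfl⟩)
  refine ⟨u3, a3, w3, rfl, g2, ?_⟩
  obtain ⟨-, α3, ω3, -, -, -, -, -, g5, -, rfl⟩ := g2
  rw [e, ← h6] at h5
  obtain ⟨y, y1, y2, y3⟩ := kap_diff (T.kV g5) h5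
  rw [T.noT y y1 (by rw [← zero_add (_ - y), ← y2]), zero_pow hp.out.ne_zero, zero_div, zero_mul,
    sub_zero] at y3
  rw [show p - 1 = p - 2 + 1 by omega, Function.iterate_succ_apply, Function.iterate_succ_apply,
    y3, ← nsmul_eq_mul, ← nsmul_eq_mul, iterate_map_nsmul]

theorem LatC_prim {u0 : T.T n} (h0 : u0 ≠ 0) :
    ∃ m u1, u0 = (T.pi n)^[m] u1 ∧ ∀ u2, u1 ≠ T.pi n u2 := by
  by_contra hc
  have h1 : ∀ m : ℕ, ∃ u1, u0 = (T.pi n)^[m] u1 := fun m => by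
    induction m with
    | zero => exact ⟨u0, rfl⟩
    | succ m ih =>
      obtain ⟨u1, h1⟩ := ih
      obtain ⟨u2, h2⟩ := not_forall.1 fun h => hc ⟨m, u1, h1, h⟩
      exact ⟨u2, by rw [h1, not_not.1 h2, Function.iterate_succ_apply]⟩
  obtain ⟨D, -, hD⟩ := LatC_pow (T := T)
  have h2 : ∀ (m : ℕ) (x : T.T n), ∃ x', (T.pi n)^[(p - 1) * m] x = p ^ m • x' := fun m => by
    induction m with
    | zero => exact fun x => ⟨x, by simp⟩
    | succ m ih =>
      intro x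
      obtain ⟨x', hx⟩ := ih (-(x + T.pi n (D n x)))
      exact ⟨x', by rw [Nat.mul_succ, Function.iterate_add_apply, hD, iterate_map_nsmul, hx,
        smul_smul, pow_succ']⟩
  refine h0 (T.sep n u0 fun m => ?_)
  obtain ⟨u1, rfl⟩ := h1 ((p - 1) * m)
  exact h2 m u1

theorem LatC_kill {a y : Kb k} (h : T.RepL n s u a w) (hy : Φ.K2 y) (ha : a = y ^ p / pk _ A - y) :
    T.RepL n s u 0 (w + y ^ p / pk _ A * algebraMap _ _ (vps ϖ0 n s)) := by
  obtain ⟨S, hS⟩ := ASF.exists_K2 (Φ := Φ)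
  have h1 := rep_cob h ((hS _).1 (neg_mem ((hS _).2 hy)))
  have h2 : (-y) ^ p = -y ^ p := map_neg (frobenius (Kb k) p) y
  rwa [h2, ha, neg_div, neg_mul, sub_neg_eq_add, sub_neg_eq_add, show y ^ p / pk _ A - y +
    (-(y ^ p / pk _ A) + y) = 0 by ring] at h1

theorem chain (h5 : 5 ≤ p) (hϖ : ϖ0 ≠ 0) (Γ : Set (Gk k)) {u0 : T.T 0} (h0 : u0 ≠ 0)
    (hΓ : ∀ σ ∈ Γ, T.ac 0 σ u0 = u0) (N : ℕ) :
    (∃ n ≤ N, ∃ s, s + 2 ≤ p ∧ ∃ (u : T.T n) (a w : Kb k), (∀ σ ∈ Γ, T.ac n σ u = u) ∧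
      T.RepL n s u a w ∧ (∀ y, Φ.K2 y → a ≠ y ^ p / pk _ A - y) ∧ (vps ϖ0 n s = 0 → w ≠ 0)) ∨
    ∃ (u : T.T N) (a w : Kb k), (∀ σ ∈ Γ, T.ac N σ u = u) ∧ T.RepL N 2 u a w ∧ w ≠ 0 := by
  refine or_iff_not_imp_left.2 fun hL => ?_
  have hz : ∀ n ≤ N, ∀ s, s + 2 ≤ p → ∀ (u : T.T n) (a w : Kb k), (∀ σ ∈ Γ, T.ac n σ u = u) →
      T.RepL n s u a w → (vps ϖ0 n s = 0 → w ≠ 0) → ∃ y : Kb k,
        T.RepL n s u 0 (w + y ^ p / pk _ A * algebraMap _ _ (vps ϖ0 n s)) := by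
    intro n hn s hs u a w h1 h2 h3
    obtain ⟨y, hy⟩ := not_forall.1 fun h => hL ⟨n, hn, s, hs, u, a, w, h1, h2, h, h3⟩
    exact ⟨y, LatC_kill h2 (Classical.not_imp.1 hy).1 (not_not.1 (Classical.not_imp.1 hy).2)⟩
  have hz' : ∀ n ≤ N, ∀ s, s + 2 ≤ p → vps ϖ0 n s = 0 → ∀ (u : T.T n) (a w : Kb k),
      (∀ σ ∈ Γ, T.ac n σ u = u) → T.RepL n s u a w → w ≠ 0 → T.RepL n s u 0 w := by
    intro n hn s hs hv u a w h1 h2 h3
    obtain ⟨y, hy⟩ := hz n hn s hs u a w h1 h2 fun _ => h3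
    rwa [hv, map_zero, mul_zero, add_zero] at hy
  have hs : ∀ n ≤ N, ∀ (u : T.T n) (w : Kb k), (∀ σ ∈ Γ, T.ac n σ u = u) → w ≠ 0 →
      T.RepL n 0 u 0 w → ∀ s, s + 2 ≤ p → T.RepL n s u 0 w := by
    intro n hn u w h1 h2 h3 s
    induction s with
    | zero => exact fun _ => h3
    | succ s ih =>
      intro h4
      obtain ⟨a, ha⟩ := rep_step h4 (ih (by omega))
      exact hz' n hn _ h4 (if_neg (Nat.succ_ne_zero s)) u a w h1 ha h2
  have hn : ∀ n ≤ N, ∃ (u : T.T n) (w : Kb k), (∀ σ ∈ Γ, T.ac n σ u = u) ∧ w ≠ 0 ∧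
      T.RepL n 0 u 0 w := by
    intro n
    induction n with
    | zero =>
      intro hn
      obtain ⟨m, u1, rfl, h1⟩ := LatC_prim h0
      have h2 : ∀ σ ∈ Γ, T.ac 0 σ u1 = u1 := fun σ hσ =>
        T.pi_inj 0 m (by rw [← T.ac_pi, hΓ σ hσ])
      obtain ⟨a, w, h3⟩ := rep_ex (s := 0) (u := u1) (T.mem_Lat.2 ⟨_, rfl⟩)
      obtain ⟨y, hy⟩ := hz 0 hn 0 (by omega) u1 a w h2 h3 fun h => absurd h hϖ
      refine ⟨u1, _, h2, fun h => ?_, hy⟩
      rw [h] at hy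
      obtain ⟨u2, -, h4⟩ := rep_ker (by omega) hy
      exact h1 u2 h4
    | succ n ih =>
      intro hn
      obtain ⟨u, w, h1, h2, h3⟩ := ih (by omega)
      obtain ⟨u3, a3, w3, rfl, h4, rfl⟩ := rep_jump (s := p - 2) (by omega) (by omega)
        (hs n (by omega) u w h1 h2 h3 _ (by omega))
      have h6 : ∀ σ ∈ Γ, T.ac (n + 1) σ u3 = u3 := fun σ hσ =>
        T.V_inj n (by rw [T.V_ac, h1 σ hσ])
      have h7 : w3 ≠ 0 := right_ne_zero_of_mul h2
      exact ⟨u3, w3, h6, h7, hz' _ hn 0 (by omega) rfl u3 a3 w3 h6 h4 h7⟩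
  obtain ⟨u, w, h1, h2, h3⟩ := hn N le_rfl
  exact ⟨u, 0, w, h1, hs N le_rfl u w h1 h2 h3 2 (by omega), h2⟩

end TD

end Pool.Agent.ASel
end

-- merged part: Pool.Agent.Work.MP_60d5ce_nt.AG.LatI
section
/-!
# Isotropy of the lattices; tightness

PLAN.  `tr_res`: put `θ_i = σ0 ^ i θ0`; `j θ_i = η_i - C η_i` with `η_i ∈ L1`.  All local `τ` fix the `j (w l)`
(`l2_split`).  If they all fix `j w0`, each `η_i` lies in `Lv v`; otherwise take `τ` with
`τ (j w0) = j w0 + 1`, it restricts to `σ0` on `K1`, replace `η_i` by `τ ^ i η_0` (`PB.car_map`), the sum lies in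
`Lv v`.  Then `res_car`.  `rep_iso`: write `Tr = ∑ σ0 ^ i = π ^ (p-1)` on `K1`; `Tr (π x * y) = -Tr (σ0 x * π y)`,
so `Tr (π ^ i x * π ^ (p-1-i) y) = (-1) ^ i Tr x * Tr y` (move all `π` to `y`; `π ^ (p-1) y` is fixed), and it
vanishes when the exponents add up to more than `p - 1`.  For `s ≤ p - 3` apply `iso` to `u` and
`π ^ (p-3-s) u'`: the trace is `(-1) ^ (s+1) a w' - a' w` (and `- a a' ϖ` if `s = 0`).  For `s = p - 2` let
`u1, u1'` be the elements of level `n + 1`, `υ = -(1 + ∑ c i π ^ (i+1))` (`pi_pow`); `V (υ u1) = π u`, so by `kV`,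
`kap_diff`, `noT`: `κ (υ u1) = (υ π α, ρ⁻¹ π ^ 2 ω)`; apply `iso` to `υ u1` and `π ^ (p-4) υ u1'`.
`rep_tight`: `κ (π ^ (p-4) u) = (_, ω3)`, `ω3 = π ^ (p-3) ω`; as `vpn = 0` the second component is well defined
(`kap_diff`), so `ω3` is fixed by the stabiliser of `x = we e`, `C (ω3 / A) = ω3`, `π ^ 3 ω3 = 0`, `π ^ 2 ω3 = w ≠ 0`.
Elements fixed by that stabiliser and `σ0` lie in `k(t)`.  So `ω3 = α x ^ 2 + β x + γ`, `2 α = w`; substitute
`x = x ^ p - d` and compare coefficients of `1, x, x ^ 2` (apply `π`).  `π ω3 = 2 α x + α + β` is the second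
component of `κ (π ^ (p-3) u) = (π ^ p α', _) = (0, _)`: `good` (with `wp_int`) and `tight` bound it and its
conjugate; `x` is integral where `d`, `h l` are.
-/

namespace Pool.Agent.ASel

open Polynomial Pool.Agent.Smith

variable {p : ℕ} {k : Type} [Field k] {ι : Type} [Fintype k] [hp : Fact p.Prime] [CharP k p]
  {A F b : k[X]} {v0 : Pl k} {ϖ0 : RatFunc k} {B : ℕ → ℕ} {Φ : ASF p k ι}

theorem LatI_per {M : Type} [AddCommGroup M] (g : ℕ → M) (q : ℕ) (hg : ∀ i, g (q + i) = g i) (m : ℕ) :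
    ∑ i ∈ Finset.range q, g (i + m) = ∑ i ∈ Finset.range q, g i := by
  induction m with
  | zero => rfl
  | succ m ih =>
    have h1 := Finset.sum_range_succ' (fun i => g (i + m)) q
    rw [Finset.sum_range_succ, ih, hg, zero_add] at h1
    rw [add_right_cancel h1]
    exact Finset.sum_congr rfl fun i _ => by rw [add_assoc, add_comm 1 m]

theorem LatI_fin {v : Pl k} {η : Lb v} (h1 : η ∈ Om (Lv v) (Lb v))
    (h2 : ∀ τ : Lb v ≃ₐ[Lv v] Lb v, τ η = η) {θ : Lv v}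
    (h : algebraMap _ _ θ = η - car p (Om (Lv v) (Lb v)) (tv k (Lb v)) η) : res p v θ = 0 := by
  obtain ⟨y, rfl⟩ := om_fix h1 h2
  have e : algebraMap (Lv v) (Lb v) (tv k (Lv v)) = tv k (Lb v) :=
    (IsScalarTower.algebraMap_apply _ _ _ _).symm
  have hc := (pb_L (p := p) v).car_map (algebraMap (Lv v) (Lb v)) (fun x _ => om_alg x)
    (e ▸ (sc_Lb v).1) (Subfield.mem_top y)
  rw [e] at hc
  rw [← hc, ← map_sub] at h
  rw [(algebraMap (Lv v) (Lb v)).injective h, map_sub]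
  exact sub_eq_zero.2 (res_car v y).symm

theorem LatI_car {v : Pl k} (τ : Lb v ≃ₐ[Lv v] Lb v) {η : Lb v} (h : η ∈ Om (Lv v) (Lb v)) :
    τ (car p (Om (Lv v) (Lb v)) (tv k (Lb v)) η) = car p (Om (Lv v) (Lb v)) (tv k (Lb v)) (τ η) := by
  have e : (τ : Lb v →+* Lb v) (tv k (Lb v)) = tv k (Lb v) := by
    have : tv k (Lb v) = algebraMap (Lv v) (Lb v) (tv k (Lv v)) :=
      IsScalarTower.algebraMap_apply _ _ _ _
    rw [this]
    exact τ.commutes _
  have hc := (sc_Lb (p := p) v).1.car_map (τ : Lb v →+* Lb v) (fun x hx => om_act τ hx)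
    (e.symm ▸ (sc_Lb v).1) h
  rw [e] at hc
  exact hc

theorem tr_res (hS : Stg A F b Φ) {v : Pl k} (hv : InS p A F b v) (j : Kb k →ₐ[RatFunc k] Lb v)
    {θ0 : Kb k} (h0 : Φ.K1 θ0) (h : ∀ i : ℕ, ∃ η, Φ.L1 v j η ∧ j ((Φ.σ0 ^ i) θ0) =
      η - car p (Om (Lv v) (Lb v)) (tv k (Lb v)) η) {θ : Lv v}
    (hθ : algebraMap _ _ θ = j (Φ.pi^[p - 1] θ0)) : res p v θ = 0 := by
  have hw : ∀ (τ : Lb v ≃ₐ[Lv v] Lb v) l, τ (j (Φ.w l)) = j (Φ.w l) := fun τ l => by
    obtain ⟨y, hy⟩ := l2_split hS hv (k2_loc (ASF.k2_w (Φ := Φ) l) v j)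
    rw [← hy, τ.commutes]
  rw [h0.pi_tr, map_sum] at hθ
  by_cases hc : ∀ τ : Lb v ≃ₐ[Lv v] Lb v, τ (j Φ.w0) = j Φ.w0
  · choose η h1 h2 using h
    refine LatI_fin (η := ∑ i ∈ Finset.range p, η i) (sum_mem fun i _ => (h1 i).1) (fun τ => ?_) ?_
    · rw [map_sum]
      exact Finset.sum_congr rfl fun i _ => (h1 i).2 τ (hc τ) (hw τ)
    · rw [hθ, map_sum, ← Finset.sum_sub_distrib]
      exact Finset.sum_congr rfl fun i _ => h2 i
  obtain ⟨τ0, h3⟩ := not_forall.1 hc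
  obtain ⟨ρ, hρ⟩ := exists_rst v j
  have mv : ∀ τ : Lb v ≃ₐ[Lv v] Lb v, ∃ m : ℕ, τ (j Φ.w0) = j Φ.w0 + m := fun τ => by
    obtain ⟨m, hm⟩ := Φ.move0 (ρ τ)
    exact ⟨m, by rw [← hρ, hm, map_add, map_natCast]⟩
  have pw : ∀ (τ : Lb v ≃ₐ[Lv v] Lb v) (c : ℕ), τ (j Φ.w0) = j Φ.w0 + c → ∀ i : ℕ,
      (τ ^ i) (j Φ.w0) = j Φ.w0 + i * c := fun τ c hτ i => by
    induction i with
    | zero => simp
    | succ i ih =>
      rw [pow_succ', AlgEquiv.mul_apply, ih, map_add, hτ, map_mul, map_natCast, map_natCast]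
      push_cast
      ring
  obtain ⟨τ, hτ⟩ : ∃ τ : Lb v ≃ₐ[Lv v] Lb v, τ (j Φ.w0) = j Φ.w0 + (1 : ℕ) := by
    obtain ⟨m, hm⟩ := mv τ0
    have m0 : (m : Lb v) ≠ 0 := fun e => h3 (by rw [hm, e, add_zero])
    refine ⟨τ0 ^ m ^ (p - 2), ?_⟩
    have e1 : (m : Lb v) ^ p = m := map_natCast (frobenius (Lb v) p) m
    have e2 : p = p - 2 + 1 + 1 := by
      have := hp.out.two_le
      omega
    rw [pw τ0 m hm, Nat.cast_pow, ← pow_succ, Nat.cast_one, add_right_inj]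
    apply mul_right_cancel₀ m0
    rw [← pow_succ, ← e2, e1, one_mul]
  obtain ⟨η, h1, h2⟩ := h 0
  rw [pow_zero, AlgEquiv.one_apply] at h2
  have k1 : ∀ τ1 τ2 : Lb v ≃ₐ[Lv v] Lb v, τ1 (j Φ.w0) = τ2 (j Φ.w0) → τ1 η = τ2 η := fun τ1 τ2 e => by
    have := h1.2 (τ2⁻¹ * τ1) (by rw [AlgEquiv.mul_apply, e, AlgEquiv.aut_inv, AlgEquiv.symm_apply_apply]) (hw _)
    rw [AlgEquiv.mul_apply, AlgEquiv.aut_inv, AlgEquiv.symm_apply_eq] at this
    exact this
  have ji : Function.Injective j := j.injective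
  have k2 : ∀ x, Φ.K1 x → τ (j x) = j (Φ.σ0 x) := fun x hx => by
    have := hx.2 (Φ.σ0⁻¹ * ρ τ) (by
      rw [AlgEquiv.mul_apply, AlgEquiv.aut_inv, AlgEquiv.symm_apply_eq, Φ.σ_w0]
      apply ji
      rw [hρ, hτ, map_add, map_one, Nat.cast_one]) (fun l => by
      rw [AlgEquiv.mul_apply, AlgEquiv.aut_inv, AlgEquiv.symm_apply_eq, Φ.σ_w]
      apply ji
      rw [hρ, hw])
    rw [AlgEquiv.mul_apply, AlgEquiv.aut_inv, AlgEquiv.symm_apply_eq] at this
    rw [← hρ, this]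
  have k3 : ∀ i : ℕ, (τ ^ i) (j θ0) = j ((Φ.σ0 ^ i) θ0) := fun i => by
    induction i with
    | zero => rfl
    | succ i ih => rw [pow_succ', pow_succ', AlgEquiv.mul_apply, AlgEquiv.mul_apply, ih, k2 _ (h0.act _)]
  refine LatI_fin (η := ∑ i ∈ Finset.range p, (τ ^ i) η) (sum_mem fun i _ => om_act _ h1.1)
    (fun τ' => ?_) ?_
  · obtain ⟨m, hm⟩ := mv τ'
    rw [map_sum, ← LatI_per (fun i => (τ ^ i) η) p (fun i => k1 _ _ (by
      rw [pw τ 1 hτ, pw τ 1 hτ, Nat.cast_add, CharP.cast_eq_zero, zero_add])) m]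
    refine Finset.sum_congr rfl fun i _ => k1 (τ' * τ ^ i) _ ?_
    rw [AlgEquiv.mul_apply, pw τ 1 hτ, pw τ 1 hτ, map_add, hm, map_mul, map_natCast, map_natCast]
    push_cast
    ring
  · rw [hθ, map_sum, ← Finset.sum_sub_distrib]
    exact Finset.sum_congr rfl fun i _ => by rw [← k3, h2, map_sub, LatI_car _ h1.1]

theorem LatI_mul {x y : Kb k} (hx : Φ.K1 x) (hy : Φ.K1 y) : Φ.K1 (x * y) := by
  obtain ⟨S, hS⟩ := ASF.exists_K1 (Φ := Φ)
  exact (hS _).1 (mul_mem ((hS _).2 hx) ((hS _).2 hy))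

theorem LatI_add {x y : Kb k} (hx : Φ.K1 x) (hy : Φ.K1 y) : Φ.K1 (x + y) := by
  obtain ⟨S, hS⟩ := ASF.exists_K1 (Φ := Φ)
  exact (hS _).1 (add_mem ((hS _).2 hx) ((hS _).2 hy))

theorem LatI_fix {z : Kb k} (hz : Φ.pi z = 0) (m : ℕ) (x : Kb k) :
    Φ.pi^[m] (x * z) = Φ.pi^[m] x * z := by
  induction m with
  | zero => rfl
  | succ m ih =>
    rw [Φ.pi_apply, sub_eq_zero] at hz
    rw [Function.iterate_succ_apply', Function.iterate_succ_apply', ih, Φ.pi_apply, Φ.pi_apply,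
      map_mul, hz, sub_mul]

theorem LatI_tr {y : Kb k} (hy : Φ.K1 y) (i : ℕ) : ∀ (x : Kb k) (j : ℕ), Φ.K1 x → p ≤ i + j + 1 →
    Φ.pi^[p - 1] (Φ.pi^[i] x * Φ.pi^[j] y) = (-1) ^ i * (Φ.pi^[p - 1] x * Φ.pi^[i + j] y) := by
  have e : ∀ z, Φ.K1 z → Φ.pi^[p - 1] (Φ.pi z) = 0 := fun z hz =>
    hz.pi_p (i := p - 1 + 1) (by omega)
  induction i with
  | zero =>
    intro x j hx hj
    rw [pow_zero, one_mul, zero_add, LatI_fix]
    · rfl
    · rw [← Function.iterate_succ_apply' Φ.pi]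
      exact hy.pi_p (by omega)
  | succ i ih =>
    intro x j hx hj
    have h1 := e _ (LatI_mul (hx.pi i) (hy.pi j))
    have h2 := ih (x + Φ.pi x) (j + 1) (LatI_add hx (hx.pi 1)) (by omega)
    have h3 : Φ.pi (Φ.pi^[i] x * Φ.pi^[j] y) = Φ.pi^[i] (x + Φ.pi x) * Φ.pi^[j + 1] y +
        Φ.pi^[i + 1] x * Φ.pi^[j] y := by
      rw [iterate_map_add, ← Function.iterate_succ_apply Φ.pi i, Function.iterate_succ_apply',
        Function.iterate_succ_apply']
      simp only [Φ.pi_apply, map_mul]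
      ring
    rw [h3, iterate_map_add, h2, iterate_map_add, e x hx, add_zero, ← add_assoc] at h1
    rw [add_right_comm, pow_succ]
    linear_combination h1

namespace TD

variable {T : TD A F b v0 ϖ0 B Φ} {n s : ℕ} {u u' : T.T n} {a w a' w' : Kb k}

theorem LatI_iso (hS : Stg A F b Φ) (h : T.Kap n u a w) (h' : T.Kap n u' a' w') {v : Pl k}
    (hv : InS p A F b v) (j : Kb k →ₐ[RatFunc k] Lb v) {θ : Lv v} (hθ : algebraMap _ _ θ =
      j (Φ.pi^[p - 1] (a * w') + Φ.pi^[p - 1] (w * a') +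
        Φ.pi^[p - 1] (a * a') * algebraMap _ _ (vpn ϖ0 n))) : res p v θ = 0 := by
  obtain ⟨S, hK⟩ := ASF.exists_K1 (Φ := Φ)
  refine tr_res hS hv j (θ0 := a * w' + a' * w + a * a' * algebraMap _ _ (vpn ϖ0 n)) ?_ (fun i => ?_) ?_
  · exact LatI_add (LatI_add (LatI_mul (T.mem h).1 (T.mem h').2) (LatI_mul (T.mem h').1 (T.mem h).2))
      (LatI_mul (LatI_mul (T.mem h).1 (T.mem h').1) ((hK _).1 (S.algebraMap_mem _)))
  · simpa only [map_add, map_mul, AlgEquiv.commutes] using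
      T.iso (T.act (Φ.σ0 ^ i) h) (T.act (Φ.σ0 ^ i) h') v j
  · rw [hθ, iterate_map_add, iterate_map_add, ASF.pi_mul, mul_comm a' w]

theorem LatI_nsmul (h : T.Kap n u a w) (m : ℕ) : T.Kap n (m • u) (m • a) (m • w) := by
  induction m with
  | zero => simpa only [zero_smul] using kap_zero (T := T) n
  | succ m ih => simpa only [succ_nsmul] using kap_add ih h

theorem LatI_top (hs : s + 2 = p) (h : T.RepL n s u a w) : ∃ (U : T.T (n + 1)) (β W ω : Kb k),
    Φ.K1 β ∧ Φ.K1 ω ∧ T.Kap (n + 1) U (Φ.pi^[1] β) W ∧ T.ρ • W = -Φ.pi^[2] ω ∧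
      a = Φ.pi^[p - 1] β ∧ w = Φ.pi^[p - 1] ω := by
  obtain ⟨u1, α, ω, w1, e1, hα, hω, k1, k0, rfl, rfl⟩ := h
  obtain ⟨c, hc⟩ := T.pi_pow
  obtain ⟨S, hK⟩ := ASF.exists_K1 (Φ := Φ)
  have key : ∀ m : ℕ, ∃ β W, Φ.K1 β ∧ Φ.pi^[p - 1] α = Φ.pi^[p - 1] β ∧ T.Kap (n + 1)
      (u1 + ∑ i ∈ Finset.range m, c i • (T.pi (n + 1))^[i + 1] u1) (Φ.pi β) W := fun m => by
    induction m with
    | zero => exact ⟨α, w1, hα, rfl, by simpa only [Finset.sum_range_zero, add_zero] using k1⟩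
    | succ m ih =>
      obtain ⟨β, W, h1, h2, h3⟩ := ih
      refine ⟨β + c m • Φ.pi^[m + 1] α, W + c m • Φ.pi^[m + 1] w1,
        LatI_add h1 ((hK _).1 (nsmul_mem ((hK _).2 (hα.pi _)) _)), ?_, ?_⟩
      · rw [iterate_map_add, iterate_map_nsmul, ← Function.iterate_add_apply,
          hα.pi_p (i := p - 1 + (m + 1)) (by omega), smul_zero, add_zero, h2]
      · rw [Finset.sum_range_succ, ← add_assoc, map_add, map_nsmul,
          ← Function.iterate_succ_apply' Φ.pi, Function.iterate_succ_apply Φ.pi]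
        exact kap_add h3 (LatI_nsmul (kap_pi k1 (m + 1)) (c m))
  obtain ⟨β, W, h1, h2, h3⟩ := key p
  refine ⟨_, β, W, ω, h1, hω, h3, ?_, h2, rfl⟩
  have h4 := kap_add (T.kV h3) (kap_pi k0 1)
  have e2 : p - 1 = 1 + s := by omega
  have h5 := hc (n + 1) u1
  rw [e2, Function.iterate_add_apply, e1, ← T.F_pi, ← T.FV, eq_neg_iff_add_eq_zero, ← map_add,
    ← map_zero (T.Fr n)] at h5
  rw [add_comm, T.F_inj n h5, ← Function.iterate_add_apply, hα.pi_p (i := 1 + (s + 1)) (by omega)] at h4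
  obtain ⟨y, y1, y2, y3⟩ := kap_diff (kap_zero (T := T) n) h4
  rw [add_zero, zero_add] at y2
  rw [T.noT y y1 y2.symm, zero_pow hp.out.ne_zero, zero_div, zero_mul, sub_zero] at y3
  rw [nsmul_eq_mul]
  exact eq_neg_of_add_eq_zero_left y3

theorem rep_iso (h5 : 5 ≤ p) (hS : Stg A F b Φ) (hs : s + 2 ≤ p) (h : T.RepL n s u a w)
    (h' : T.RepL n s u' a' w') {v : Pl k} (hv : InS p A F b v) (j : Kb k →ₐ[RatFunc k] Lb v)
    {θ : Lv v} (hθ : algebraMap _ _ θ =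
      j (a * w' + ((-1) ^ s : ℤ) • (a' * w) + a * a' * algebraMap _ _ (vps ϖ0 n s))) :
    res p v θ = 0 := by
  rcases hs.eq_or_lt with hs | hs
  · obtain ⟨U, β, W, ω, h1, h2, h3, h4, rfl, rfl⟩ := LatI_top hs h
    obtain ⟨U', β', W', ω', h1', h2', h3', h4', rfl, rfl⟩ := LatI_top hs h'
    refine LatI_iso hS h3 (LatI_nsmul (kap_pi h3' (p - 4)) T.ρ) hv j ?_
    have so : Odd s := by
      have := hp.out.odd_of_ne_two (by omega)
      rw [← hs] at this
      simpa [Nat.odd_add] using this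
    have e : W * T.ρ • Φ.pi^[p - 4] (Φ.pi^[1] β') = -(Φ.pi^[2] ω * Φ.pi^[p - 4 + 1] β') := by
      rw [mul_smul_comm, ← smul_mul_assoc, h4, neg_mul, ← Function.iterate_add_apply]
    have e1 : 1 + (p - 4 + 2) = p - 1 := by omega
    have e2 : 2 + (p - 4 + 1) = p - 1 := by omega
    rw [hθ, e, ← iterate_map_nsmul Φ.pi (p - 4) W', h4', iterate_map_neg,
      ← Function.iterate_add_apply, mul_neg, iterate_map_neg, iterate_map_neg,
      LatI_tr h2' 1 _ _ h1 (by omega), LatI_tr h1' 2 _ _ h2 (by omega), e1, e2, so.neg_one_pow,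
      vps, if_neg (by omega), vpn, if_neg (by omega), map_zero]
    exact congrArg j (by ring)
  obtain ⟨u1, α, ω, w1, -, hα, hω, -, k0, rfl, rfl⟩ := h
  obtain ⟨u1', α', ω', w1', -, hα', hω', -, k0', rfl, rfl⟩ := h'
  have key := LatI_iso hS k0 (kap_pi k0' (p - 3 - s)) hv j (θ := ((-1) ^ (s + 1) : ℤ) • θ) (by
    have e1 : s + 1 + (p - 3 - s + 1) = p - 1 := by omega
    have e2 : 1 + (p - 3 - s + (s + 1)) = p - 1 := by omega
    have e3 : s + 1 + (p - 3 - s + (s + 1)) = p - 1 + s := by omega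
    have e4 := LatI_tr hα' 1 _ (p - 3 - s + (s + 1)) hω (by omega)
    rw [Function.iterate_one] at e4
    rw [map_zsmul, hθ, ← map_zsmul, ← Function.iterate_succ_apply Φ.pi (p - 3 - s),
      ← Function.iterate_add_apply, e4, LatI_tr hω' _ _ _ hα (by omega),
      LatI_tr hα' _ _ _ hα (by omega), e1, e2, e3, vps]
    refine congrArg j ?_
    have e5 : ((-1 : Kb k) ^ s) ^ 2 = 1 := by rw [← pow_mul, mul_comm, pow_mul, neg_one_sq, one_pow]
    split_ifs with h0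
    · subst h0
      simp only [add_zero, zero_add, pow_zero, pow_one, one_smul, neg_smul]
      ring
    · rw [hα'.pi_p (i := p - 1 + s) (by omega), map_zero]
      simp only [zsmul_eq_mul, Int.cast_pow, Int.cast_neg, Int.cast_one]
      linear_combination (-(Φ.pi^[p - 1] α' * Φ.pi^[p - 1] ω)) * e5)
  rw [map_zsmul] at key
  rcases neg_one_pow_eq_or ℤ (s + 1) with e | e
  · rwa [e, one_smul] at key
  · rwa [e, neg_smul, one_smul, neg_eq_zero] at key

end TD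

end Pool.Agent.ASel
end

-- merged part: Pool.Agent.Work.MP_60d5ce_nt.AG.LatT
section
/-!
# Tightness (plan in the header of `LatI.lean`)
-/

namespace Pool.Agent.ASel

open Polynomial Pool.Agent.Smith

variable {p : ℕ} {k : Type} [Field k] {ι : Type} [Fintype k] [hp : Fact p.Prime] [CharP k p]
  {A F b : k[X]} {v0 : Pl k} {ϖ0 : RatFunc k} {B : ℕ → ℕ} {Φ : ASF p k ι}

set_option linter.unusedSectionVars false

theorem LatT_two (h5 : 5 ≤ p) (M : Type) [Field M] [CharP M p] : (2 : M) ≠ 0 := fun h => by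
  have := Nat.le_of_dvd two_pos ((CharP.cast_eq_zero_iff M p 2).1 (by exact_mod_cast h))
  omega

theorem LatT_s0 [Fintype ι] (e : ι → ZMod p) : Φ.σ0 (Φ.we e) = Φ.we e + 1 := by
  simp only [ASF.we, map_add, map_sum, map_mul, map_natCast, Φ.σ_w0, Φ.σ_w]
  ring

theorem LatT_move [Fintype ι] (e : ι → ZMod p) (σ : Gk k) :
    ∃ m : ℕ, σ (Φ.we e) = Φ.we e + m := by
  obtain ⟨m0, h0⟩ := Φ.move0 σ
  choose m hm using Φ.move σ
  refine ⟨m0 + ∑ l, (e l).val * m l, ?_⟩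
  simp only [ASF.we, map_add, map_sum, map_mul, map_natCast, h0, hm, mul_add,
    Finset.sum_add_distrib, Nat.cast_add, Nat.cast_sum, Nat.cast_mul]
  ring

theorem LatT_k1 [Fintype ι] (e : ι → ZMod p) : Φ.K1 (Φ.we e) := by
  obtain ⟨S, hS⟩ := ASF.exists_K1 (Φ := Φ)
  exact (hS _).1 (add_mem ((hS _).2 ASF.k1_w0) (sum_mem fun l _ =>
    mul_mem (natCast_mem S _) ((hS _).2 (ASF.k2_w l).k1)))

theorem LatT_wp [Fintype ι] (e : ι → ZMod p) :
    Φ.we e ^ p - Φ.we e = algebraMap _ _ (Φ.de e) := by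
  have h : ∀ n : ℕ, (n : Kb k) ^ p = n := fun n => map_natCast (frobenius (Kb k) p) n
  simp only [ASF.we, ASF.de, map_add, map_sum, map_mul, map_natCast, ← Φ.hw0, ← Φ.hw,
    add_pow_char, sum_pow_char, mul_pow, h, mul_sub, Finset.sum_sub_distrib]
  ring

theorem LatT_fix [Fintype ι] (e : ι → ZMod p) {z : Kb k} (hz : z ∈ Om (RatFunc k) (Kb k))
    (h : ∀ σ : Gk k, σ (Φ.we e) = Φ.we e → σ z = z) (h0 : Φ.σ0 z = z) :
    ∃ a : RatFunc k, algebraMap _ _ a = z := by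
  have key : ∀ (m : ℕ) (σ : Gk k), σ (Φ.we e) = Φ.we e + m → σ z = z := by
    intro m
    induction m with
    | zero => exact fun σ hσ => h σ (by simpa using hσ)
    | succ m ih =>
      intro σ hσ
      have := ih (Φ.σ0⁻¹ * σ) (Φ.σ0.injective (by
        rw [← AlgEquiv.mul_apply, mul_inv_cancel_left, hσ, map_add, LatT_s0, map_natCast]
        push_cast
        ring))
      have e := congrArg Φ.σ0 this
      rwa [← AlgEquiv.mul_apply, mul_inv_cancel_left, h0] at e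
  exact om_fix hz fun σ => (LatT_move e σ).elim fun m hm => key m σ hm

theorem LatT_int [Fintype ι] (hS : Stg A F b Φ) (e : ι → ZMod p) {v : Pl k} {r : ℝ} (hr : 1 ≤ r)
    (hd : av v Φ.d ≤ r) (hv : v = none ∨ ¬ plp v ∣ b) : av v (Φ.de e) ≤ r :=
  Hasse_add hd ((PF_sum zero_le_one fun l _ =>
    (Hasse_nat v _ _).trans (hS.h_int l v hv)).trans hr)

theorem LatT_bd (h5 : 5 ≤ p) {v : Pl k} (j : Kb k →ₐ[RatFunc k] Lb v) {x : Kb k}
    {d α β : RatFunc k} (hx : x ^ p - x = algebraMap _ _ d) {r : ℝ} (hr : 1 ≤ r)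
    (hd : av v d ≤ r) {C : ℝ}
    (h1 : nm v (j (algebraMap _ _ α * (2 * x + 1) + algebraMap _ _ β)) ≤ C)
    (h2 : nm v (j (2 * algebraMap _ _ α)) ≤ C) : av v α ≤ C * r ∧ av v β ≤ C * r := by
  have a0 : C ≤ C * r := le_mul_of_one_le_right ((AbsoluteValue.nonneg _ _).trans h1) hr
  have a2 : nm v (2 : Lb v) = 1 := by
    have := (nm_algK v _).trans (av_const v (LatT_two h5 k))
    rwa [map_ofNat, map_ofNat] at this
  have a3 : nm v (j x) ≤ r := wp_le (p := p) (nm_na v) one_ne_zero hr ((map_one _).trans_le hr) (by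
    rwa [div_one, ← map_pow, ← map_sub, hx, j.commutes, nm_algK])
  rw [map_mul, map_ofNat, map_mul, a2, one_mul, j.commutes, nm_algK] at h2
  refine ⟨h2.trans a0, ?_⟩
  have a4 : nm v (j (2 * x + 1)) ≤ r := by
    rw [map_add, map_one]
    refine (nm_na v _ _).trans (max_le ?_ ((map_one _).trans_le hr))
    rwa [map_mul, map_ofNat, map_mul, a2, one_mul]
  have a5 : nm v (-j (algebraMap _ _ α * (2 * x + 1))) ≤ C * r := by
    rw [AbsoluteValue.map_neg, map_mul, map_mul, j.commutes, nm_algK]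
    exact mul_le_mul h2 a4 (AbsoluteValue.nonneg _ _) ((AbsoluteValue.nonneg _ _).trans h2)
  have := (nm_na v _ _).trans (max_le a5 (h1.trans a0))
  rwa [map_add j, neg_add_cancel_left, j.commutes, nm_algK] at this

theorem LatT_cmp (h5 : 5 ≤ p) (σ : Gk k) {x : Kb k} (hx : σ x = x + 1) {α β γ : RatFunc k}
    (h : algebraMap _ _ α * x ^ 2 + algebraMap _ _ β * x + algebraMap _ _ γ = 0) :
    α = 0 ∧ β = 0 ∧ γ = 0 := by
  have h1 := congrArg σ h
  simp only [map_add, map_mul, map_pow, map_zero, hx, AlgEquiv.commutes] at h1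
  have h2 := congrArg σ h1
  simp only [map_add, map_mul, map_pow, map_zero, map_one, hx, AlgEquiv.commutes] at h2
  have a1 : algebraMap _ (Kb k) α = 0 :=
    (mul_eq_zero.1 (by linear_combination h2 - 2 * h1 + h)).resolve_left (LatT_two h5 _)
  have a2 : algebraMap _ (Kb k) β = 0 := by linear_combination h1 - h - (2 * x + 1) * a1
  have a3 : algebraMap _ (Kb k) γ = 0 := by linear_combination h - x ^ 2 * a1 - x * a2
  exact ⟨(map_eq_zero _).1 a1, (map_eq_zero _).1 a2, (map_eq_zero _).1 a3⟩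

theorem LatT_quad [Fintype ι] (h5 : 5 ≤ p) (e : ι → ZMod p) {W : Kb k} (hW : Φ.K1 W)
    (h : ∀ σ : Gk k, σ (Φ.we e) = Φ.we e → σ W = W) (h3 : Φ.pi (Φ.pi (Φ.pi W)) = 0) :
    ∃ α β γ : RatFunc k, W = algebraMap _ _ α * Φ.we e ^ 2 + algebraMap _ _ β * Φ.we e +
      algebraMap _ _ γ ∧ Φ.pi W = algebraMap _ _ α * (2 * Φ.we e + 1) + algebraMap _ _ β ∧
      Φ.pi (Φ.pi W) = 2 * algebraMap _ _ α := by
  have st : ∀ {z : Kb k}, Φ.K1 z → (∀ σ : Gk k, σ (Φ.we e) = Φ.we e → σ z = z) →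
      ∀ σ : Gk k, σ (Φ.we e) = Φ.we e → σ (Φ.pi z) = Φ.pi z := fun hz k σ hσ => by
    rw [Φ.pi_apply, map_sub, hz.comm, k σ hσ]
  have k1 : Φ.K1 (Φ.pi W) := hW.pi 1
  have k2 : Φ.K1 (Φ.pi (Φ.pi W)) := hW.pi 2
  have kx := (LatT_k1 (Φ := Φ) e).1
  have s0 := LatT_s0 (Φ := Φ) e
  obtain ⟨α0, h0⟩ := LatT_fix e k2.1 (st k1 (st hW h)) (sub_eq_zero.1 h3)
  obtain ⟨α, hα⟩ : ∃ α : RatFunc k, Φ.pi (Φ.pi W) = 2 * algebraMap _ _ α :=
    ⟨α0 / 2, by rw [← h0, map_div₀, map_ofNat, mul_div_cancel₀ _ (LatT_two h5 _)]⟩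
  obtain ⟨β, hβ⟩ := LatT_fix (Φ := Φ) e (z := Φ.pi W - algebraMap _ _ α * (2 * Φ.we e + 1))
    (sub_mem k1.1 (mul_mem (om_alg _) (add_mem (mul_mem (ofNat_mem _ 2) kx) (one_mem _))))
    (fun σ hσ => by
      simp only [map_sub, map_mul, map_add, map_one, map_ofNat, AlgEquiv.commutes, hσ,
        st hW h σ hσ]) (by
      simp only [map_sub, map_mul, map_add, map_one, map_ofNat, AlgEquiv.commutes, s0]
      linear_combination hα - Φ.pi_apply (Φ.pi W))
  obtain ⟨γ, hγ⟩ := LatT_fix (Φ := Φ) e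
    (z := W - algebraMap _ _ α * Φ.we e ^ 2 - algebraMap _ _ β * Φ.we e)
    (sub_mem (sub_mem hW.1 (mul_mem (om_alg _) (pow_mem kx 2))) (mul_mem (om_alg _) kx))
    (fun σ hσ => by simp only [map_sub, map_mul, map_pow, AlgEquiv.commutes, hσ, h σ hσ]) (by
      simp only [map_sub, map_mul, map_pow, AlgEquiv.commutes, s0]
      linear_combination -hβ - Φ.pi_apply W)
  exact ⟨α, β, γ, by linear_combination -hγ, by linear_combination -hβ, hα⟩

theorem LatT_car (h5 : 5 ≤ p) (σ : Gk k) {x : Kb k} (hx : σ x = x + 1)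
    (hO : x ∈ Om (RatFunc k) (Kb k)) {d α β γ : RatFunc k} (hd : x ^ p - x = algebraMap _ _ d)
    {W : Kb k} (hW : W = algebraMap _ _ α * x ^ 2 + algebraMap _ _ β * x + algebraMap _ _ γ)
    (hc : cB p (W / pk _ A) = W) : cK p (α / pk _ A) = α ∧ cK p ((β - 2 * d * α) / pk _ A) = β ∧
      cK p ((γ - d * β + d ^ 2 * α) / pk _ A) = γ := by
  have e0 : algebraMap (RatFunc k) (Kb k) (pk _ A) = pk _ A := rfl
  have e1 : W / pk _ A = (x ^ 2) ^ p * algebraMap _ _ (α / pk _ A) +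
      x ^ p * algebraMap _ _ ((β - 2 * d * α) / pk _ A) +
      algebraMap _ _ ((γ - d * β + d ^ 2 * α) / pk _ A) := by
    rw [← pow_mul, mul_comm 2 p, pow_mul, sub_eq_iff_eq_add.1 hd, hW]
    simp only [map_div₀, map_sub, map_add, map_mul, map_pow, map_ofNat, e0]
    ring
  have e2 : ∀ {g : Kb k} (f : RatFunc k), g ∈ Om (RatFunc k) (Kb k) →
      cB p (g ^ p * algebraMap _ _ f) = g * algebraMap _ _ (cK p f) := fun f hg => by
    rw [alg_cB]
    exact (sc_Kb (k := k) (p := p)).1.car_frob_mul hg (om_alg f)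
  rw [e1, map_add, map_add, e2 _ (pow_mem hO 2), e2 _ hO, ← alg_cB, hW] at hc
  have := LatT_cmp h5 σ hx (α := cK p (α / pk _ A) - α)
    (β := cK p ((β - 2 * d * α) / pk _ A) - β) (γ := cK p ((γ - d * β + d ^ 2 * α) / pk _ A) - γ)
    (by simp only [map_sub]; linear_combination hc)
  exact ⟨sub_eq_zero.1 this.1, sub_eq_zero.1 this.2.1, sub_eq_zero.1 this.2.2⟩

theorem TD.rep_tight [Fintype ι] {T : TD A F b v0 ϖ0 B Φ} (h5 : 5 ≤ p) (hS : Stg A F b Φ)
    (h0 : InS0 F v0) (e : ι → ZMod p) {n Mx : ℕ} (hn : B (Mx + F.natDegree) ≤ n)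
    {u : T.T (n + 1)} {a w : Kb k} (hu : ∀ σ : Gk k, σ (Φ.we e) = Φ.we e → T.ac (n + 1) σ u = u)
    (h : T.RepL (n + 1) 2 u a w) (hw : w ≠ 0) : Tight p A F b v0 Mx (Φ.de e) := by
  obtain ⟨u', α1, ω, w', -, hα1, hω, -, hk, -, rfl⟩ := h
  have hv : algebraMap (RatFunc k) (Kb k) (vpn ϖ0 (n + 1)) = 0 := map_zero _
  have k0 := TD.kap_pi hk (p - 4)
  have k1 := TD.kap_pi k0 1
  rw [← Function.iterate_add_apply Φ.pi, ← Function.iterate_add_apply Φ.pi,
    hα1.pi_p (by omega)] at k1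
  have k2 := TD.kap_pi k1 1
  rw [Function.iterate_one Φ.pi, map_zero] at k2
  rw [Function.iterate_one Φ.pi] at k1
  have e2 : Φ.pi (Φ.pi (Φ.pi^[p - 4] (Φ.pi ω))) = Φ.pi^[p - 1] ω := by
    rw [show p - 1 = 2 + (p - 4) + 1 by omega, Function.iterate_add_apply,
      Function.iterate_add_apply]
    rfl
  have hc := T.coc k0
  rw [hv, mul_zero, add_zero, sub_eq_zero] at hc
  obtain ⟨α, β, γ, q0, q1, q2⟩ := LatT_quad h5 e (T.mem k0).2 (fun σ hσ => by
    have := T.act σ k0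
    rw [T.ac_pi, hu σ hσ] at this
    obtain ⟨y, -, -, hy⟩ := TD.kap_diff k0 this
    rw [hy, hv, mul_zero, sub_zero]) (by
      rw [e2, ← Function.iterate_succ_apply' Φ.pi]
      exact hω.pi_p (by omega))
  obtain ⟨c1, c2, c3⟩ := LatT_car h5 Φ.σ0 (LatT_s0 e) (LatT_k1 e).1 (LatT_wp e) q0 hc.symm
  rw [q2] at k2
  rw [q1] at k1
  refine ⟨α, β, γ, fun h => hw (by rw [← e2, q2, h, map_zero, mul_zero]), c1, c2, c3,
    fun v v1 v2 => ?_, ?_⟩
  · obtain ⟨j⟩ := exists_emb v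
    have hv' : algebraMap (RatFunc k) (Lb v) (vpn ϖ0 (n + 1)) = 0 := map_zero _
    obtain ⟨y1, -, -, b1⟩ := T.good k1 v v1 v2 j
    obtain ⟨y2, -, -, b2⟩ := T.good k2 v v1 v2 j
    rw [hv', mul_zero, add_zero] at b1 b2
    have v3 : ¬ plp v ∣ b := fun h => v2 (h.mul_left F)
    simpa only [mul_one] using LatT_bd h5 j (LatT_wp e) le_rfl (LatT_int hS e le_rfl
      (hS.d_int v (fun h => h.elim v1 fun h => v2 (h.mul_right b)) v3) (Or.inr v3)) b1 b2
  · obtain ⟨j⟩ := exists_emb v0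
    have r1 : (1 : ℝ) ≤ 2 ^ F.natDegree := one_le_pow₀ one_le_two
    have := LatT_bd h5 j (LatT_wp e) r1 (LatT_int hS e r1 (hS.d_le v0)
      (or_iff_not_imp_left.2 fun g h =>
        (PF_irr g).not_isUnit (hS.cop.isUnit_of_dvd' h (h0.resolve_left g))))
      (T.tight _ hn k1 j) (T.tight _ hn k2 j)
    rwa [pow_add, mul_assoc, ← mul_pow, inv_mul_cancel₀ two_ne_zero, one_pow, mul_one] at this

end Pool.Agent.ASel
end

-- merged part: Pool.Agent.Work.MP_60d5ce_nt.AG.LatM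
section
/-!
# From Tate data to lattice data

PLAN.  `exists_lat`: `M = Lat n s`, `ac` restricted (`lat_ac`), `Rep = RepL`.  `et0`: `rep_kap` (second part),
`TD.et0`, `desc_unr` with `C = 2 ^ max (B (n+1)) c`, `l2_split`; the new bound is `C ^ p / |A|`.  `et1`, `na`:
`TD.et1`, `desc_anom`, `desc_na` (`b` is prime to `F`).  `good`: for `s = 0` use `TD.good` for `π ^ (p-2) u` and
`desc_unr` with `C = 1` (`ϖ` is integral); for `s ≥ 1`, `TD.good` with first component `0` shows that `j w` is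
integral (`wp_int`), and `TD.et1`, `desc_unr` give `y`.  `sec2_of_TD`: given `Mx` take `N = Mx + 1`, the
lattices `(n, s)`, `n ≤ N`, `s ≤ p - 2` (`finProdFinEquiv`), `chain` with `Γ` the stabiliser of `we e`;
`γ g * σ0 ^ (-m)` fixes `we e` for `m = (∑ e l * g l).val`, so `u` is an eigenvector.
-/

namespace Pool.Agent.ASel

open Polynomial Pool.Agent.Smith

variable {p : ℕ} {k : Type} [Field k] {ι : Type} [Fintype k] [hp : Fact p.Prime] [CharP k p]
  {A F b : k[X]} {v0 : Pl k} {ϖ0 : RatFunc k} {B : ℕ → ℕ} {Φ : ASF p k ι}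

theorem LatM_nmA (v : Pl k) (A : k[X]) : nm v (pk _ A) = av v (pk _ A) := nm_algK v _

theorem LatM_nu {v : Pl k} (hv : v ≠ none) : ¬ IsUnit (plp v) := by
  rcases v with _ | P
  · exact absurd rfl hv
  · exact P.2.2.not_isUnit

theorem LatM_one {v : Pl k} (hv : v ≠ none) {A : k[X]} (h : ¬ plp v ∣ A) : av v (pk _ A) = 1 :=
  le_antisymm (av_poly_le hv A) (not_lt.1 fun h' => h ((av_poly_lt hv A).1 h'))

theorem LatM_sub {v : Pl k} {x y : Lb v} {t : ℝ} (hx : nm v x ≤ t) (hy : nm v y ≤ t) :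
    nm v (x - y) ≤ t := by
  rw [sub_eq_add_neg]
  exact LocA_add_le (nm_na v) hx (by rwa [AbsoluteValue.map_neg])

theorem LatM_unr (hA : A ≠ 0) {v : Pl k} {r : ℝ} (hr : 1 ≤ r) (hd : av v Φ.d ≤ r)
    {j : Kb k →ₐ[RatFunc k] Lb v}
    {a : Kb k} (ha : Φ.K2 a) {y : Lb v} (hy : Φ.L1 v j y) {C0 C D : ℝ} (hC : 1 ≤ C0)
    (hAC : av v (pk _ A) ≤ C0) (hC0 : r ^ (p - 1) * C0 ≤ C) (hD : C ≤ D)
    (hD' : C ^ p * (av v (pk _ A))⁻¹ ≤ D) (h : nm v (j a - (y ^ p / pk _ A - y)) ≤ C0) :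
    ∃ y0, Φ.L2 v j y0 ∧ nm v (y - y0) ≤ C ∧ nm v (j a - (y0 ^ p / pk _ A - y0)) ≤ D := by
  obtain ⟨y0, h0, h1⟩ := desc_bd hA hr hd ha hy hC hAC h
  replace h1 := h1.trans hC0
  replace h := (h.trans (le_mul_of_one_le_left (zero_le_one.trans hC) (one_le_pow₀ hr))).trans hC0
  refine ⟨y0, h0, h1, ?_⟩
  have e : j a - (y0 ^ p / pk _ A - y0) =
      j a - (y ^ p / pk _ A - y) + ((y - y0) ^ p / pk _ A - (y - y0)) := by
    rw [Wp_sub]; ring
  rw [e]
  refine LocA_add_le (nm_na v) (h.trans hD) (LatM_sub ?_ (h1.trans hD))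
  rw [map_div₀, map_pow, LatM_nmA, div_eq_mul_inv]
  exact (mul_le_mul_of_nonneg_right (pow_le_pow_left₀ ((nm v).nonneg _) h1 p)
    (inv_nonneg.2 ((av v).nonneg _))).trans hD'

theorem LatM_nF (hS : Stg A F b Φ) {v : Pl k} (hv : v ≠ none) (hb : plp v ∣ b) : ¬ plp v ∣ F :=
  fun h => LatM_nu hv (hS.cop.isUnit_of_dvd' hb h)

theorem LatM_et0 (h : Ari p A F v0 ϖ0) (hS : Stg A F b Φ) {T : TD A F b v0 ϖ0 B Φ} {c n s n0 : ℕ}
    (hc : ∀ v, InS0 F v → av v (pk _ A) ≤ 2 ^ c ∧ (av v (pk _ A))⁻¹ ≤ 2 ^ c)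
    (hn : p * (max (B (n + 1)) c + p * F.natDegree) + c ≤ n0) {u : T.T n} {a w : Kb k} (hr : T.RepL n s u a w)
    (v : Pl k) (hv : InS0 F v) (j : Kb k →ₐ[RatFunc k] Lb v) : ∃ y : Lv v,
    nm v (j a - algebraMap _ _ (y ^ p / pk _ A - y)) ≤ 2 ^ n0 := by
  have hA : A ≠ 0 := fun h0 => h.F_ne (zero_dvd_iff.1 (h0 ▸ h.dvd))
  obtain ⟨u1, w1, h1⟩ := (TD.rep_kap hr).2
  obtain ⟨y, hy, h2⟩ := T.et0 h1 v hv j
  have hm : max (B (n + 1)) c + p * F.natDegree ≤ n0 :=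
    (Nat.le_mul_of_pos_left _ hp.out.pos).trans ((Nat.le_add_right _ _).trans hn)
  have h12 : (1 : ℝ) ≤ 2 := one_le_two
  obtain ⟨y0, h3, -, h4⟩ := LatM_unr (C0 := 2 ^ max (B (n + 1)) c)
    (C := 2 ^ (max (B (n + 1)) c + p * F.natDegree)) (D := 2 ^ n0) hA (one_le_pow₀ h12) (hS.d_le v)
    (TD.rep_mem hr).1 hy (one_le_pow₀ h12)
    ((hc v hv).1.trans (pow_le_pow_right₀ h12 (le_max_right _ _)))
    (by
      rw [← pow_mul, ← pow_add, add_comm, mul_comm]
      exact pow_le_pow_right₀ h12 (Nat.add_le_add_left (Nat.mul_le_mul_right _ (Nat.sub_le _ _)) _))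
    (pow_le_pow_right₀ h12 hm)
    (by
      refine (mul_le_mul_of_nonneg_left (hc v hv).2 (by positivity)).trans ?_
      rw [← pow_mul, ← pow_add, mul_comm]
      exact pow_le_pow_right₀ h12 hn)
    (h2.trans (pow_le_pow_right₀ h12 (le_max_left _ _)))
  obtain ⟨y1, rfl⟩ := l2_split hS (Or.inl hv) h3
  refine ⟨y1, ?_⟩
  have e : algebraMap (Lv v) (Lb v) (pk _ A) = pk _ A :=
    (IsScalarTower.algebraMap_apply (RatFunc k) (Lv v) (Lb v) _).symm
  rwa [map_sub (algebraMap (Lv v) (Lb v)), map_div₀, map_pow, e]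

theorem LatM_good (h : Ari p A F v0 ϖ0) (hS : Stg A F b Φ) {T : TD A F b v0 ϖ0 B Φ} {n s : ℕ}
    {u : T.T n} {a w : Kb k} (hr : T.RepL n s u a w) (v : Pl k) (hv : v ≠ none)
    (hb : ¬ plp v ∣ F * b) (j : Kb k →ₐ[RatFunc k] Lb v) : ∃ y, Φ.L2 v j y ∧
    nm v (j a - (y ^ p / pk _ A - y)) ≤ 1 ∧
      nm v (j w + y ^ p / pk _ A * algebraMap (RatFunc k) _ (vps ϖ0 n s)) ≤ 1 := by
  have hA : A ≠ 0 := fun h0 => h.F_ne (zero_dvd_iff.1 (h0 ▸ h.dvd))
  have hF : ¬ plp v ∣ F := fun h' => hb (h'.mul_right _)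
  have hS0 : ¬ InS0 F v := fun h' => h'.elim hv hF
  have h1 : av v (pk _ A) = 1 := LatM_one hv fun h' => hF (h'.trans h.dvd)
  have hd : av v Φ.d ≤ 1 := hS.d_int v hS0 fun h' => hb (h'.mul_left _)
  have hD : (1 : ℝ) ^ p * (av v (pk _ A))⁻¹ ≤ 1 := by rw [h1]; simp
  have hm : ∀ z : Lb v, nm v z ≤ 1 →
      nm v (z ^ p / pk _ A * algebraMap (RatFunc k) _ (vpn ϖ0 n)) ≤ 1 := fun z hz => by
    rw [map_mul, map_div₀, map_pow, LatM_nmA, h1, div_one, nm_algK]
    refine mul_le_one₀ (pow_le_one₀ ((nm v).nonneg _) hz) ((av v).nonneg _) ?_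
    unfold vpn
    split_ifs
    · exact h.ϖ_int v hS0
    · simp
  obtain ⟨y, hy, h2, h3⟩ := T.good (TD.rep_kap hr).1 v hv hb j
  by_cases hs : s = 0
  · rw [if_pos hs] at h2
    obtain ⟨y0, h4, h5, h6⟩ := LatM_unr hA le_rfl hd (TD.rep_mem hr).1 hy le_rfl h1.le
      (by rw [one_pow, one_mul]) le_rfl hD h2
    refine ⟨y0, h4, h6, ?_⟩
    have e : j w + y0 ^ p / pk _ A * algebraMap (RatFunc k) _ (vps ϖ0 n s) =
        j w + y ^ p / pk _ A * algebraMap (RatFunc k) _ (vpn ϖ0 n) -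
          (y - y0) ^ p / pk _ A * algebraMap (RatFunc k) _ (vpn ϖ0 n) := by
      rw [vps, if_pos hs, sub_pow_char]; ring
    rw [e]
    exact LatM_sub h3 (hm _ h5)
  · rw [if_neg hs, map_zero, zero_sub, AbsoluteValue.map_neg] at h2
    have h7 := hm y (wp_int (nm_na v) ((LatM_nmA v A).trans h1) h2)
    obtain ⟨u1, w1, h8⟩ := (TD.rep_kap hr).2
    obtain ⟨y', hy', h9⟩ := T.et1 h8 v hS0 j
    obtain ⟨y0, h4, -, h6⟩ := LatM_unr hA le_rfl hd (TD.rep_mem hr).1 hy' le_rfl h1.le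
      (by rw [one_pow, one_mul]) le_rfl hD h9
    refine ⟨y0, h4, h6, ?_⟩
    rw [vps, if_neg hs, map_zero, mul_zero, add_zero]
    have := LatM_sub h3 h7
    rwa [add_sub_cancel_right] at this

/-- the action on a lattice -/
def LatM_ac (T : TD A F b v0 ϖ0 B Φ) (n s : ℕ) (σ : Gk k) : T.Lat n s →+ T.Lat n s :=
  ((T.ac n σ).comp (T.Lat n s).subtype).codRestrict _ fun x => T.lat_ac x.2 σ

theorem LatM_iter (T : TD A F b v0 ϖ0 B Φ) (n s : ℕ) (σ : Gk k) (i : ℕ) (x : T.Lat n s) :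
    (((LatM_ac T n s σ)^[i] x : T.Lat n s) : T.T n) = (T.ac n σ)^[i] x :=
  Function.Semiconj.iterate_right (f := ((↑) : T.Lat n s → T.T n)) (ga := LatM_ac T n s σ)
    (gb := T.ac n σ) (fun _ => rfl) i x

theorem TD.exists_lat (h : Ari p A F v0 ϖ0) (hS : Stg A F b Φ) (T : TD A F b v0 ϖ0 B Φ) {c n s n0 : ℕ}
    (hc : ∀ v, InS0 F v → av v (pk _ A) ≤ 2 ^ c ∧ (av v (pk _ A))⁻¹ ≤ 2 ^ c) (hs : s + 2 ≤ p)
    (hn : p * (max (B (n + 1)) c + p * F.natDegree) + c ≤ n0) :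
    ∃ (L : LatD A F b n0 Φ (vps ϖ0 n s) ((-1) ^ s)) (f : L.M → T.T n), Function.Injective f ∧
      (∀ u ∈ T.Lat n s, ∃ x, f x = u) ∧ (∀ σ x, f (L.ac σ x) = T.ac n σ (f x)) ∧
      ∀ x a w, L.Rep x a w ↔ T.RepL n s (f x) a w := by
  have hS0 : ∀ {v : Pl k}, v ≠ none → plp v ∣ b → ¬ InS0 F v :=
    fun hv hb h' => h'.elim hv (LatM_nF hS hv hb)
  refine ⟨{ M := T.Lat n s
            ac := LatM_ac T n s
            Rep := fun x a w => T.RepL n s x a w
            ac_mul := fun σ τ u => Subtype.ext (T.ac_mul n σ τ u)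
            ac_triv := fun σ u h1 h2 => Subtype.ext (T.ac_triv n σ u h1 h2)
            comm := fun σ τ u => Subtype.ext (T.ac_comm n σ τ u)
            norm := fun u => Subtype.ext ?_
            tf := fun u hu => Subtype.ext (T.pi_inj n 1 ?_)
            ex := fun u => TD.rep_ex u.2
            mem := fun hr => TD.rep_mem hr
            sub := fun hr hr' => TD.rep_sub hr hr'
            act := fun σ hr => TD.rep_act hr σ
            cob := fun hr hy => TD.rep_cob hr hy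
            uniq := fun hr => TD.rep_uniq hr
            ker := fun hr => ?_
            coc := fun hr => TD.rep_coc hr
            et0 := fun hr v hv j => LatM_et0 h hS hc hn hr v hv j
            et1 := fun hr v hv hb han j => ?_
            iso := fun hr hr' v hv j θ hθ => TD.rep_iso h.five hS hs hr hr' hv j hθ
            na := fun hr v hv hb han j => ?_
            good := fun hr v hv hb j => LatM_good h hS hr v hv hb j },
    Subtype.val, Subtype.val_injective, fun u hu => ⟨⟨u, hu⟩, rfl⟩, fun _ _ => rfl,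
    fun _ _ _ => Iff.rfl⟩
  · rw [AddSubgroup.val_finsetSum]
    simp only [LatM_iter]
    exact T.norm n u
  · rw [ZeroMemClass.coe_zero, T.iter_zero, Function.iterate_one, T.pi_apply, sub_eq_zero]
    exact congrArg Subtype.val hu
  · obtain ⟨u2, h2, e⟩ := TD.rep_ker hs hr
    exact ⟨⟨u2, h2⟩, Subtype.ext e⟩
  · obtain ⟨u1, w1, h1⟩ := (TD.rep_kap hr).2
    obtain ⟨y, hy, h2⟩ := T.et1 h1 v (hS0 hv hb) j
    exact desc_anom hS h.dvd hv hb han (TD.rep_mem hr).1 hy h2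
  · obtain ⟨u1, w1, h1⟩ := (TD.rep_kap hr).2
    obtain ⟨y, hy, h2⟩ := T.et1 h1 v (hS0 hv hb) j
    exact desc_na hv (fun h' => LatM_nF hS hv hb (h'.trans h.dvd)) han (TD.rep_mem hr).1 hy h2

theorem LatM_c {A : k[X]} (hA : A ≠ 0) (v : Pl k) :
    av v (pk _ A) ≤ 2 ^ A.natDegree ∧ (av v (pk _ A))⁻¹ ≤ 2 ^ A.natDegree := by
  have h1 : (1 : ℝ) ≤ 2 ^ A.natDegree := one_le_pow₀ one_le_two
  by_cases hv : v = none
  · subst hv
    have e : av (none : Pl k) (pk _ A) = 2 ^ A.natDegree := av_inf hA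
    rw [e]
    exact ⟨le_rfl, (inv_le_one_of_one_le₀ h1).trans h1⟩
  · have e : av v (pk _ A) = 2⁻¹ ^ multiplicity (plp v) A := av_poly_eq hv hA
    refine ⟨(av_poly_le hv A).trans h1, ?_⟩
    rw [e, inv_pow, inv_inv]
    refine pow_le_pow_right₀ one_le_two ?_
    have h2 := natDegree_le_of_dvd (pow_multiplicity_dvd (plp v) A) hA
    rcases v with _ | P
    · exact absurd rfl hv
    · rw [natDegree_pow] at h2
      exact (Nat.le_mul_of_pos_right _ P.2.2.natDegree_pos).trans h2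

theorem LatM_pow (T : TD A F b v0 ϖ0 B Φ) (n : ℕ) (σ : Gk k) (m : ℕ) (u : T.T n) :
    T.ac n (σ ^ m) u = (T.ac n σ)^[m] u := by
  induction m with
  | zero => exact T.ac_triv n _ u rfl fun _ => rfl
  | succ m ih => rw [pow_succ', T.ac_mul, ih, Function.iterate_succ_apply']

theorem LatM_we [Fintype ι] (Φ : ASF p k ι) (e g : ι → ZMod p) :
    Φ.γ g (Φ.we e) = (Φ.σ0 ^ (∑ l, e l * g l).val) (Φ.we e) := by
  have h1 : ∀ m : ℕ, (Φ.σ0 ^ m) (Φ.we e) = Φ.we e + m := fun m => by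
    induction m with
    | zero => simp
    | succ m ih =>
      rw [pow_succ', AlgEquiv.mul_apply, ih]
      simp only [ASF.we, map_add, map_sum, map_mul, map_natCast, Φ.σ_w0, Φ.σ_w]
      push_cast
      ring
  rw [h1, Gal_cast, map_sum]
  simp only [ASF.we, map_add, map_sum, map_mul, map_natCast, Φ.γ_w0, Φ.γ_w, mul_add,
    Finset.sum_add_distrib, add_assoc, ← Gal_cast]

theorem LatM_eig [Fintype ι] (T : TD A F b v0 ϖ0 B Φ) {n : ℕ} {u : T.T n} {e : ι → ZMod p}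
    (hu : ∀ σ : Gk k, σ (Φ.we e) = Φ.we e → T.ac n σ u = u) (g : ι → ZMod p) :
    T.ac n (Φ.γ g) u = (T.ac n Φ.σ0)^[(∑ l, e l * g l).val] u := by
  have h1 := hu ((Φ.σ0 ^ (∑ l, e l * g l).val)⁻¹ * Φ.γ g) (by
    rw [AlgEquiv.mul_apply, LatM_we, ← AlgEquiv.mul_apply, inv_mul_cancel, AlgEquiv.one_apply])
  have h2 := T.ac_mul n (Φ.σ0 ^ (∑ l, e l * g l).val) ((Φ.σ0 ^ (∑ l, e l * g l).val)⁻¹ * Φ.γ g) u
  rwa [h1, mul_inv_cancel_left, LatM_pow] at h2

theorem sec2_of_TD (h : Ari p A F v0 ϖ0) {BadD : RatFunc k → Prop}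
    (hT : ∀ (ι : Type) [Fintype ι] (b : k[X]) (Φ : ASF p k ι), Stg A F b Φ →
      ∃ T : TD A F b v0 ϖ0 B Φ, ∀ e, BadD (Φ.de e) →
        ∃ u : T.T 0, u ≠ 0 ∧ ∀ σ : Gk k, σ (Φ.we e) = Φ.we e → T.ac 0 σ u = u) :
    Sec2 p A F v0 ϖ0 BadD := by
  intro Mx0
  obtain ⟨Mx, hMx⟩ : ∃ Mx, Mx = B (Mx0 + F.natDegree) := ⟨_, rfl⟩
  have hA : A ≠ 0 := fun h0 => h.F_ne (zero_dvd_iff.1 (h0 ▸ h.dvd))
  have h5 := h.five
  let E : Fin ((Mx + 2) * (p - 1)) ≃ Fin (Mx + 2) × Fin (p - 1) := finProdFinEquiv.symm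
  refine ⟨p * (max ((Finset.range (Mx + 3)).sup B) A.natDegree + p * F.natDegree) + A.natDegree, _,
    fun i => vps ϖ0 (E i).1 (E i).2, fun i => (-1) ^ ((E i).2 : ℕ), fun i => ?_,
    fun ι _ b Φ hS => ?_⟩
  · simp only [vps, vpn]
    split_ifs with h1 h2
    · exact Or.inl ⟨rfl, by rw [h1, pow_zero]⟩
    · exact Or.inr ⟨rfl, neg_one_pow_eq_or _ _⟩
    · exact Or.inr ⟨rfl, neg_one_pow_eq_or _ _⟩
  obtain ⟨T, hT⟩ := hT ι b Φ hS
  choose L f hf h1 h2 h3 using fun q : Fin (Mx + 2) × Fin (p - 1) =>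
    T.exists_lat h hS (n := q.1) (s := q.2)
      (n0 := p * (max ((Finset.range (Mx + 3)).sup B) A.natDegree + p * F.natDegree) + A.natDegree)
      (fun v _ => LatM_c hA v) (by have := q.2.2; omega)
      (Nat.add_le_add_right (Nat.mul_le_mul_left _ (Nat.add_le_add_right (max_le_max_right _
        (Finset.le_sup (f := B) (Finset.mem_range.2 (by have := q.1.2; omega)))) _)) _)
  refine ⟨fun i => L (E i), fun e he => ?_⟩
  obtain ⟨u0, h0, hu0⟩ := hT e he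
  rcases TD.chain h5 h.ϖ_ne {σ | σ (Φ.we e) = Φ.we e} h0 hu0 (Mx + 1) with
    ⟨n, hn, s, hs, u, a, w, hu, hr, ha, hw⟩ | ⟨u, a, w, hu, hr, hw⟩
  · left
    have key : ∃ q, (L q).GoodEig e := by
      let q : Fin (Mx + 2) × Fin (p - 1) := (⟨n, by omega⟩, ⟨s, by omega⟩)
      obtain ⟨x, hx⟩ := h1 q u (by obtain ⟨u', -, -, -, h', -⟩ := hr; exact ⟨u', h'⟩)
      refine ⟨q, x, a, w, fun g => hf q ?_, (h3 q x a w).2 (hx ▸ hr), ha, hw⟩
      rw [h2, Function.Semiconj.iterate_right (f := f q) (h2 q Φ.σ0), hx]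
      exact LatM_eig T hu g
    obtain ⟨q, hq⟩ := key
    obtain ⟨i, rfl⟩ := E.surjective q
    exact ⟨i, hq⟩
  · exact Or.inr (TD.rep_tight h5 hS h.v0_mem e hMx.ge hu hr hw)

end Pool.Agent.ASel
end

-- merged part: Pool.Agent.Work.MP_60d5ce_nt.AG.FTm
section
/-!
# Tightness  (AS, function field side)

PLAN.  `TT_inj`: `detect` with `θ = a α`, `ξ v = sl ^ p / A * α` (`res_AA`, `sl_spec`, `cL_frob`; `Su.big`, `WW_split`, `WW_pow`).  If `a ∉ ℘ k(t)` then `P ∈ BadS` with `n = 0`, `x = fun _ => (a, 0)`, `x' = fun _ => (0, α)`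
(`tp_zero_dim`, `sh_empty`; `α` is integral at `P` by `ca_na`, `na_root`; `Su.U_iff`, `Su.an_near`, `Su.S_iff`; `dif = η - φ (y ∅) α`; `sol_lift`).
`tight_bound`: `few_marked'` with `C = Cc \ {0}`, `X = AA`, `X0 = AA0`, `Z α = {e | TgD (Φ.de e) α}`, `T = TT`; `Mx = p * M` with `M` large: `AA_ge`, `AA0_le`, `pdg_pos`, `2 ≤ p`, `2 ≤ card k`.
-/

set_option linter.unusedSectionVars false

namespace Pool.Agent.ASel

open Polynomial Pool.Agent.Smith Finset

variable {p : ℕ} {k : Type} [Field k] [Fintype k] [hp : Fact p.Prime] [CharP k p] {A F : k[X]}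
  {v0 : Pl k} (hT : Ty p A F 0 1) (h1 : InS0 F v0)

theorem FTm_eq1 (W : Fin 0 → Kb k) (a : RatFunc k) :
    (fun _ => algebraMap _ (Kb k) a) ∈ Eq1 p (RatFunc k) W :=
  ⟨fun _ => om_alg a, fun σ χ _ I => by rw [eq_empty_of_isEmpty I, sh_empty, σ.commutes]⟩

theorem FTm_nm (v : Pl k) (a : RatFunc k) : nm v (emb v (algebraMap _ _ a)) = av v a := by
  rw [emb_algK, nm_alg, norm_alg]

theorem FTm_fix {α : RatFunc k} (h : cK p (α / pk _ A) = α) (v : Pl k) :
    cL p v (algebraMap _ _ α / pk _ A) = algebraMap _ _ α := by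
  have e := alg_cK (p := p) v (α / pk _ A)
  rw [h, map_div₀] at e
  exact e.symm

theorem FTm_dif (a α η : Kb k) (η0 : RatFunc k) (y y' : Finset (Fin 0) → Kb k)
    (h : η = algebraMap _ _ η0) : dif p A 0 1 (fun _ => (a, 0)) (fun _ => (0, α)) η0 y y' =
      η - y ∅ ^ p / pk _ A * α := by
  simp only [dif, xiT, tp_zero_dim, map_zero, mul_zero, zero_mul, smul_zero, add_zero, h]

include hT h1

theorem TT_inj {ι : Type} [Fintype ι] {b' : k[X]} {P : Pl k} {d' : RatFunc k} {K Mx : ℕ}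
    {vv : Fin K → Pl k} {Φ : ASF p k ι} (h : Su A F b' P d' vv Φ)
    (hP : P ∉ BadS p A F b' d' 0 1 (Mx + p) vv) {α a : RatFunc k}
    (hα : α ∈ Cc p A F (b' * plp P) v0 (Mx + 2) Φ.d) (hα0 : α ≠ 0)
    (ha : a ∈ AA p A F (b' * plp P) v0 Mx Φ.d) (H : ∀ e, TT A F (b' * plp P) Φ α a e = 0) :
    a ∈ AA0 p A F (b' * plp P) v0 Mx Φ.d := by
  classical
  refine ⟨ha, by_contra fun hn => hP ?_⟩
  have hF := hT.F_ne
  have hA := hT.dvd
  have hb := h.stg.b_ne
  have hc := h.stg.cop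
  have A0 : A ≠ 0 := fun e => hF (zero_dvd_iff.1 (e ▸ hA))
  obtain ⟨c1, c2, c3⟩ := hα
  have hS : ∀ v, ¬ InS p A F (b' * plp P) v → av v a ≤ 1 := fun v => (ha.2 v).2.2
  have hsl := fun v (hv : InNa p A (b' * plp P) v) => sl_spec hA hc hv (hS v (hv.not_S hc))
  obtain ⟨η, e1, e2, e3⟩ := detect hF hb hc (θ := a * α)
    (fun v => sl p A v a ^ p / pk _ A * algebraMap _ _ α)
    (fun v hv => by
      rw [map_mul]
      exact res_AA hF hA ha hv (FTm_fix c1 v) (fun e => by rw [norm_alg, e]; exact c2)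
        (c3 v).2)
    (fun v hv => by
      rw [map_mul (algebraMap (RatFunc k) (Lv v)), ← (hsl v hv).2, div_mul_eq_mul_div, mul_div_assoc,
        cL_frob, FTm_fix c1 v]
      ring)
    (fun v hv => by
      rw [map_mul]
      exact mul_le_one₀ (hS v (inU_iff.1 hv).1) ((av v).nonneg _) ((c3 v).1 hv))
    h.P_na fun c hd hr => by
      obtain ⟨e, he⟩ := h.big c hd hr
      refine ⟨fun v => rt v (emb v (WW Φ e)), fun v hv => ?_, ?_⟩
      · obtain ⟨s, -, hs⟩ := WW_split h.stg e hv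
        refine (algebraMap (Lv v) (Lb v)).injective ?_
        beta_reduce
        rw [← hs, rt_alg, map_sub, map_pow, hs, ← map_pow, ← map_sub, WW_pow, he, emb_algK]
        rfl
      · have e4 := H e
        rw [TT, he] at e4
        exact e4
  have P0 : ¬ InS0 F P := not_S0_of_dvd hc h.P_na.1 h.P_na.2.1
  have P1 : ‖pk (Lv P) A‖ = 1 := norm_pk_one hA P0
  have αP : ‖algebraMap (RatFunc k) (Lv P) α‖ ≤ 1 := (int_iff h.P_na.1 _).1
    (ca_na P1 (na_root hA hc h.P_na) (by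
      rw [FTm_fix c1 P, sub_self, mul_zero, norm_zero]
      exact one_pos))
  have hAn : ∀ v, InAn p A (b' * plp P) v → ∃ t : Lv v, t ^ p / pk _ A - t = 0 ∧ ‖t‖ ≤ 1 ∧
      ‖algebraMap _ _ a - t * algebraMap _ _ Φ.d‖ ≤ 1 := fun v hv => by
    obtain ⟨y, t, y1, t1, e⟩ := (ha.2 v).2.1 hv
    have A1 : ‖pk (Lv v) A‖ = 1 := norm_pk_one hA (not_S0_of_dvd hc hv.1 hv.2.1)
    refine ⟨t, t1, wp_int (p := p) (Wp_na v) A1 (y := t) (by
      rw [t1, map_zero]
      exact zero_le_one), ?_⟩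
    rw [e, add_sub_cancel_right]
    refine PF_sub ?_ y1
    rw [norm_div, A1, div_one, norm_pow]
    exact pow_le_one₀ (norm_nonneg y) y1
  have hbd : ∀ v, av v a ≤ 2 ^ (Mx + p) := fun v => by
    have i0 : (1 : ℝ) ≤ 2 ^ p := one_le_pow₀ one_le_two
    have i1 : (2 : ℝ) ^ p ≤ 2 ^ (Mx + p) := pow_le_pow_right₀ one_le_two (Nat.le_add_left _ _)
    by_cases s1 : InS p A F (b' * plp P) v
    · rcases inS_iff.1 s1 with s2 | s2
      · by_cases s3 : v = v0
        · rw [s3]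
          exact ha.1.trans (pow_le_pow_right₀ one_le_two (Nat.le_add_right _ _))
        · have i2 := (ha.2 v).1 s2 s3
          have i3 := le_mul_of_one_le_right ((av v).nonneg a)
            (one_le_pow₀ (n := A.natDegree) (one_le_two (α := ℝ)))
          linarith
      · obtain ⟨t, -, t2, t3⟩ := hAn v s2
        have i2 : ‖t * algebraMap _ _ Φ.d‖ ≤ 2 ^ p := by
          rw [norm_mul, norm_alg]
          exact (mul_le_of_le_one_left ((av v).nonneg _) t2).trans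
            (h.stg.d_lt v (not_S0_of_dvd hc s2.1 s2.2.1)).le
        have i3 := PF_add (t3.trans i0) i2
        rw [sub_add_cancel, norm_alg] at i3
        linarith
    · linarith [hS v s1]
  refine ⟨0, Nat.zero_le _, Fin.elim0, Fin.elim0, fun i => i.elim0,
    fun _ => (algebraMap _ _ a, 0), ⟨FTm_eq1 _ a, zero_mem _, fun _ => ⟨by simp, fun v =>
      ⟨fun _ => by simp, (FTm_nm v a).trans_le (hbd v), fun hv => ?_,
        fun hv _ => (FTm_nm v a).trans_le (hS v fun e => hv (h.S_iff.1 e))⟩⟩⟩,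
    fun _ => (0, algebraMap _ _ α), ⟨zero_mem _, FTm_eq1 _ α, fun _ => ⟨?_, fun v =>
      ⟨fun hv => (FTm_nm v α).trans_le ?_, by simp, fun _ => ⟨0, by simp [hp.out.ne_zero], by simp⟩,
        fun _ _ => by simp⟩⟩⟩, η, ⟨?_, fun v hv => ?_, fun y y' hy _ e => hn ?_⟩,
    h.U_iff.2 (Or.inr rfl), ?_⟩
  · obtain ⟨t, t1, t2, t3⟩ := hAn v (h.an_iff.2 hv)
    refine ⟨t, t1, ?_⟩
    show nm v (emb v (algebraMap _ _ a) - _) ≤ 1
    rw [emb_algK, ← map_sub, nm_alg, show algebraMap _ _ a - t * algebraMap _ _ d' =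
      algebraMap _ _ a - t * algebraMap _ _ Φ.d + t * algebraMap _ _ (Φ.d - d') by
        rw [map_sub]; ring]
    refine PF_add t3 ?_
    rw [norm_mul, norm_alg]
    exact mul_le_one₀ t2 ((av v).nonneg _) (h.an_near (h.an_iff.2 hv)).2.2
  · have e := alg_cKB (p := p) (α / pk _ A)
    rw [c1, map_div₀] at e
    show algebraMap _ _ α - cB p (algebraMap _ _ α / _) + 0 * _ = 0
    rw [zero_mul, add_zero]
    exact sub_eq_zero.2 e
  · rcases h.U_iff.1 hv with e | e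
    · exact (c3 v).1 e
    · rw [e, ← norm_alg]
      exact αP
  · simp only [thT, tp_zero_dim, e1, map_mul, mul_zero, zero_mul, smul_zero, add_zero]
  · rcases h.U_iff.1 hv with e | e
    · exact e2 v e
    · have i1 : ‖sl p A P a ^ p / pk _ A * algebraMap _ _ α‖ ≤ 1 := by
        rw [norm_mul, norm_div, P1, div_one, norm_pow]
        exact mul_le_one₀ (pow_le_one₀ (norm_nonneg _) (hsl P h.P_na).1) (norm_nonneg _) αP
      have i2 := PF_add e3.le i1
      rwa [sub_add_cancel, norm_alg, ← e] at i2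
  · rw [FTm_dif _ _ _ η y y' rfl, sub_eq_zero, ← div_eq_iff ((_root_.map_ne_zero _).2 hα0),
      ← map_div₀] at e
    have e4 : y ∅ ^ p / pk _ A - y ∅ = algebraMap _ _ a := hy ∅
    have e5 : y ∅ = algebraMap _ _ (η / α - a) := by
      rw [map_sub, e, ← e4, sub_sub_cancel]
    refine ⟨η / α - a, (algebraMap (RatFunc k) (Kb k)).injective ?_⟩
    rw [← e4, map_sub _ (_ / _), map_div₀, map_pow, ← e5]
    rfl
  · obtain ⟨y, y1, y2⟩ := sol_lift (p := p) A0 (a := fun _ : Finset (Fin 0) => algebraMap _ _ a)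
      (v := P) (z := fun _ => algebraMap _ _ (sl p A P a)) fun _ => by
        rw [emb_algK, ← (hsl P h.P_na).2, map_sub, map_div₀, map_pow, alg_pk]
    refine ⟨y, 0, y1, fun _ => by simp [hp.out.ne_zero], ?_⟩
    rw [FTm_dif _ _ _ η y 0 rfl, map_sub, map_mul, map_div₀, map_pow, y2, emb_pk, emb_algK, emb_algK,
      ← alg_pk, ← map_pow, ← map_div₀, ← map_mul, ← map_sub, nm_alg]
    exact e3

theorem tight_bound {δ : ℝ} (hδ : 0 < δ) : ∃ Mx n1 : ℕ, ∀ {ι : Type} [Fintype ι] {b' : k[X]} {P : Pl k}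
    {d' : RatFunc k} {K : ℕ} {vv : Fin K → Pl k} {Φ : ASF p k ι}, Su A F b' P d' vv Φ →
    P ∉ BadS p A F b' d' 0 1 n1 vv →
    ({e | Tight p A F (b' * plp P) v0 Mx (Φ.de e)}.ncard : ℝ) ≤ δ * p ^ Fintype.card ι := by
  classical
  have hF := hT.F_ne
  have hA := hT.dvd
  obtain ⟨c1, g1⟩ := AA0_le (p := p) hF hA h1
  obtain ⟨c2, M0, g2⟩ := AA_ge (p := p) hF hA h1
  obtain ⟨q, hq⟩ : ∃ q, q = Fintype.card k := ⟨_, rfl⟩
  have q2 : 2 ≤ q := hq ▸ Fintype.one_lt_card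
  have p2 := hp.out.two_le
  obtain ⟨M1, hM⟩ := pow_unbounded_of_one_lt ((q : ℝ) ^ (c1 + c2) / δ) (one_lt_two (α := ℝ))
  refine ⟨p * (M0 + M1) + 2, p * (M0 + M1) + p, fun {ι} _ {b' P d' K vv Φ} h hP => ?_⟩
  have hb := h.stg.b_ne
  have hc := h.stg.cop
  have f1 := Cc_fin (p := p) hF hA h1 hb hc (p * (M0 + M1) + 2) Φ.d
  have f2 := AA_fin (p := p) hF hA h1 hb hc (p * (M0 + M1)) Φ.d
  have k1 := few_marked' (p := p) (E := ι → ZMod p)
    ((Cc p A F (b' * plp P) v0 (p * (M0 + M1) + 2) Φ.d : Set (RatFunc k)) \ {0}) f1.diff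
    (AA p A F (b' * plp P) v0 (p * (M0 + M1)) Φ.d) (AA0 p A F (b' * plp P) v0 (p * (M0 + M1)) Φ.d)
    f2 (fun _ hx => hx.1) (fun α => {e | TgD p A F (b' * plp P) v0 (p * (M0 + M1) + 2) (Φ.de e) α})
    (TT A F (b' * plp P) Φ) (fun α _ a ha a' ha' e => TT_add_a hT h.stg α ha ha' e)
    (fun α _ a _ e e' => TT_add_e α a e e')
    (fun α hα a ha H => TT_inj hT h1 h hP hα.1 hα.2 ha H)
    fun α _ e he e' he' a ha => TT_zero hT h.stg he he' ha
  have k2 := g1 _ Φ.d (M0 + M1) hb hc h.stg.d_lt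
  have k3 := g2 _ Φ.d (p * (M0 + M1)) (by nlinarith) hb hc fun v hv => h.pole v (h.an_iff.1 hv)
  have k4 : {e | Tight p A F (b' * plp P) v0 (p * (M0 + M1) + 2) (Φ.de e)}.ncard ≤ _ :=
    Set.ncard_le_ncard (t := {e | ∃ w ∈ (Cc p A F (b' * plp P) v0 (p * (M0 + M1) + 2) Φ.d :
      Set (RatFunc k)) \ {0}, e ∈ {e | TgD p A F (b' * plp P) v0 (p * (M0 + M1) + 2) (Φ.de e) w}})
      (fun e ⟨α, β, γ, a0, a1⟩ => ⟨α, ⟨mem_Cc hT h.stg ⟨β, γ, a1⟩, a0⟩, β, γ, a1⟩) (Set.toFinite _)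
  have k5 : ((Cc p A F (b' * plp P) v0 (p * (M0 + M1) + 2) Φ.d : Set (RatFunc k)) \ {0}).ncard ≤
      Nat.card (Cc p A F (b' * plp P) v0 (p * (M0 + M1) + 2) Φ.d) :=
    Set.ncard_le_ncard Set.diff_subset f1
  have k6 : 0 < Nat.card (AA p A F (b' * plp P) v0 (p * (M0 + M1)) Φ.d) :=
    @Nat.card_pos _ _ f2.to_subtype
  rw [Fintype.card_fun, ZMod.card] at k1
  rw [← hq] at k2 k3
  have f0 := pdg_pos v0
  generalize {e | Tight p A F (b' * plp P) v0 (p * (M0 + M1) + 2) (Φ.de e)}.ncard = N at k4 ⊢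
  generalize Nat.card (AA p A F (b' * plp P) v0 (p * (M0 + M1)) Φ.d) = X at k1 k3 k6
  generalize Nat.card (AA0 p A F (b' * plp P) v0 (p * (M0 + M1)) Φ.d) = X0 at k1 k2
  generalize Nat.card (Cc p A F (b' * plp P) v0 (p * (M0 + M1) + 2) Φ.d) = C at k3 k5
  have k7 : N * X ≤ C * q ^ (c1 + (M0 + M1) * pdg v0) * p ^ Fintype.card ι :=
    ((Nat.mul_le_mul_right _ k4).trans k1).trans (Nat.mul_le_mul_right _ (Nat.mul_le_mul k5 k2))
  have k8 : q ^ M1 * q ^ ((M0 + M1) * pdg v0) ≤ q ^ (p * (M0 + M1) * pdg v0) := by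
    rw [← pow_add]
    refine Nat.pow_le_pow_right (by omega) ?_
    have := Nat.mul_le_mul_right ((M0 + M1) * pdg v0) p2
    have := Nat.le_mul_of_pos_right (M0 + M1) f0
    rw [mul_assoc]
    omega
  have k9 : N * q ^ M1 ≤ q ^ (c1 + c2) * p ^ Fintype.card ι := by
    refine Nat.le_of_mul_le_mul_right (c := X * q ^ ((M0 + M1) * pdg v0)) ?_ (by positivity)
    calc N * q ^ M1 * (X * q ^ ((M0 + M1) * pdg v0))
        = N * X * (q ^ M1 * q ^ ((M0 + M1) * pdg v0)) := by ring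
      _ ≤ C * q ^ (c1 + (M0 + M1) * pdg v0) * p ^ Fintype.card ι * q ^ (p * (M0 + M1) * pdg v0) :=
        Nat.mul_le_mul k7 k8
      _ = C * q ^ (p * (M0 + M1) * pdg v0) *
          (q ^ (c1 + (M0 + M1) * pdg v0) * p ^ Fintype.card ι) := by ring
      _ ≤ q ^ c2 * X * (q ^ (c1 + (M0 + M1) * pdg v0) * p ^ Fintype.card ι) :=
        Nat.mul_le_mul_right _ k3
      _ = _ := by ring
  have r1 : (N : ℝ) * q ^ M1 ≤ q ^ (c1 + c2) * p ^ Fintype.card ι := by exact_mod_cast k9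
  have r2 : (2 : ℝ) ^ M1 ≤ q ^ M1 := pow_le_pow_left₀ zero_le_two (by exact_mod_cast q2) _
  rw [div_lt_iff₀ hδ] at hM
  refine le_of_mul_le_mul_right ?_ (pow_pos (two_pos (α := ℝ)) M1)
  calc (N : ℝ) * 2 ^ M1 ≤ N * q ^ M1 := mul_le_mul_of_nonneg_left r2 (Nat.cast_nonneg N)
    _ ≤ q ^ (c1 + c2) * p ^ Fintype.card ι := r1
    _ ≤ 2 ^ M1 * δ * p ^ Fintype.card ι := mul_le_mul_of_nonneg_right hM.le (by positivity)
    _ = _ := by ring

end Pool.Agent.ASel
end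

-- merged part: Pool.Agent.Work.MP_60d5ce_nt.AG.FMain
section
/-!
# The estimate on cosets
-/

namespace Pool.Agent.ASel

open Polynomial Pool.Agent.Smith Finset

theorem FMain_un {α : Type} {I : ℕ} (S : Fin I → Set α) (T : Set α) {B : ℝ}
    (hS : ∀ i, (S i).Finite ∧ ((S i).ncard : ℝ) ≤ B) (hT : T.Finite ∧ (T.ncard : ℝ) ≤ B) :
    {x | (∃ i, x ∈ S i) ∨ x ∈ T}.Finite ∧
      ({x | (∃ i, x ∈ S i) ∨ x ∈ T}.ncard : ℝ) ≤ (I + 1) * B := by
  have e : {x | (∃ i, x ∈ S i) ∨ x ∈ T} = (⋃ i, S i) ∪ T := by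
    ext x
    simp only [Set.mem_ofPred_eq, Set.mem_union, Set.mem_iUnion]
  rw [e]
  refine ⟨(Set.finite_iUnion fun i => (hS i).1).union hT.1, ?_⟩
  have h1 : ((⋃ i, S i).ncard : ℝ) ≤ ∑ i, ((S i).ncard : ℝ) := by
    exact_mod_cast Set.ncard_iUnion_le_of_fintype S
  have h2 : ∑ i, ((S i).ncard : ℝ) ≤ I * B := by
    simpa using Finset.sum_le_card_nsmul univ _ B fun i _ => (hS i).2
  have h3 : (((⋃ i, S i) ∪ T).ncard : ℝ) ≤ (⋃ i, S i).ncard + T.ncard := by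
    exact_mod_cast Set.ncard_union_le _ _
  linarith [hT.2]

theorem cos_main {p : ℕ} [Fact p.Prime] {k : Type} [Field k] [Fintype k] [CharP k p] {A F : k[X]}
    {v0 : Pl k} {ϖ0 : RatFunc k} (h : Ari p A F v0 ϖ0) (hF : 1 ≤ F.natDegree)
    {BadD : RatFunc k → Prop} (h2 : Sec2 p A F v0 ϖ0 BadD) (ε : ℝ) (hε : 0 < ε) :
    ∃ K a C m0 : ℕ, 1 ≤ a ∧ ∀ m ≥ m0, ∀ (d2 : RatFunc k) (R : k[X]), R ≠ 0 → IsCoprime R F →
      ASW.om R ≤ m → (∀ v, av v d2 ≤ 2 ^ F.natDegree) →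
      (∀ v, ¬ InS0 F v → av v d2 < 2 ^ p ∧ (1 < av v d2 ↔ plp v ∣ R)) →
      ASW.Cos (fun P => ¬ Anom p A P) (F * R)
        (fun a b => BadD (d2 + algebraMap k[X] (RatFunc k) a / algebraMap k[X] _ b))
        ε K a C m R.natDegree := by
  have hp1 : (1 : ℝ) < p := by exact_mod_cast (Fact.out : p.Prime).one_lt
  have hq : 2 ≤ Fintype.card k := Fintype.one_lt_card
  have hT0 : Ty p A F 0 1 := h.ty (Or.inr ⟨rfl, Or.inl rfl⟩)
  obtain ⟨Mx, n2, hMx⟩ := tight_bound hT0 h.v0_mem (half_pos hε)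
  obtain ⟨n0, I, ϖ, ep, hty, hL⟩ := h2 Mx
  have hT : ∀ i, Ty p A F (ϖ i) (ep i) := fun i => h.ty (hty i)
  have hδ : 0 < ε / 4 / (I + 1) := by positivity
  obtain ⟨s, hs⟩ : ∃ s : ℕ, (p : ℝ) / p ^ s ≤ ε / 4 / (I + 1) := by
    obtain ⟨s, hs⟩ := pow_unbounded_of_one_lt (p / (ε / 4 / (I + 1))) hp1
    refine ⟨s, ?_⟩
    rw [div_lt_iff₀ hδ] at hs
    rw [div_le_iff₀ (by positivity)]
    linarith
  choose a0 m0 n1 ha0 hlat using fun i => lat_bound (hT i) n0 s hδ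
  choose C1 hC1 using fun i => bad_card (hT i) (n1 i) (2 * s + 1)
  obtain ⟨C2, hC2⟩ := bad_card hT0 n2 (2 * s + 1)
  refine ⟨2 * s + 1 + 1, 2 * ∑ i, a0 i + 1, ∑ i, C1 i + C2 + (I + 1), ∑ i, m0 i + 2, by omega, ?_⟩
  intro m hm d2 R hR hRF hRm g1 g2 b' v hb1 hb2 hb3 hb4 hv1 hv2
  generalize ha : 2 * ∑ i, a0 i + 1 = a at hv2 ⊢
  have hm1 : 1 ≤ m := by omega
  have hb0 := mul_ne_zero hR hb1.ne_zero
  have hb5 : IsCoprime (R * b') F := hRF.mul_left hb3.of_mul_right_left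
  let vv : Fin (2 * s + 1 + 1) → Pl k := fun i => some ⟨v i, (hv2 i).1⟩
  have hvi : Function.Injective vv := fun i j e =>
    hv1 (congrArg Subtype.val (Option.some.inj e))
  have hvn : ∀ i, InNa p A b' (vv i) := fun i =>
    ⟨Option.some_ne_none _, (hv2 i).2.1, (hv2 i).2.2.1⟩
  let v1 : Fin (2 * s + 1) → Pl k := fun i => vv i.castSucc
  have hY : 1 ≤ m ^ (2 * a) := Nat.one_le_pow _ _ hm1
  have hmm : 2 * m ≤ m ^ 2 := sq m ▸ Nat.mul_le_mul_right m (by omega)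
  have hf : (fac' (R * b')).card ≤ 2 * m := by
    classical
    refine (card_le_card (t := fac' R ∪ fac' b') fun u hu => ?_).trans ((card_union_le _ _).trans ?_)
    · obtain ⟨u1, u2⟩ := (mem_fac' hb0).1 hu
      rw [mem_union, mem_fac' hR, mem_fac' hb1.ne_zero]
      exact ((PF_irr u1).prime.dvd_mul.1 u2).imp (fun c => ⟨u1, c⟩) fun c => ⟨u1, c⟩
    · rw [← om_eq hR, ← om_eq hb1.ne_zero]
      omega
  have hf' : (fac' (R * b')).card ≤ m ^ (2 * a) :=
    hf.trans (hmm.trans (Nat.pow_le_pow_right hm1 (by omega)))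
  have hv3 : ∀ i, InNa p A (R * b') (v1 i) ∧ pdg (v1 i) ≤ m ^ (2 * a) := fun i =>
    ⟨⟨(hvn _).1, (hvn _).2.1.mul_left _, (hvn _).2.2⟩, (hv2 _).2.2.2.2⟩
  have hdg : b'.natDegree + R.natDegree = (R * b').natDegree := by
    rw [natDegree_mul hR hb1.ne_zero, add_comm]
  rw [hdg]
  let BP : k[X] → Set (Pl k) := fun a' =>
    {P | (∃ i, P ∈ BadS p A F (R * b') (d2 + pk _ a' / pk _ b') (ϖ i) (ep i) (n1 i) v1) ∨
      P ∈ BadS p A F (R * b') (d2 + pk _ a' / pk _ b') 0 1 n2 v1}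
  refine ⟨fun a' => plp '' BP a', fun a' => ?_, fun P hP1 hP2 hP3 hP4 => ?_⟩
  · have key : ∀ {c n : ℕ}, c ≤ ∑ i, C1 i + C2 →
        n ≤ Fintype.card k ^ (c * m ^ (2 * a)) * ((R * b').natDegree + 1) →
        (n : ℝ) ≤ ((Fintype.card k ^ ((∑ i, C1 i + C2) * m ^ (2 * a)) * ((R * b').natDegree + 1) : ℕ) : ℝ) :=
      fun hc hn => Nat.cast_le.2 (hn.trans (Nat.mul_le_mul_right _
        (Nat.pow_le_pow_right (by omega) (Nat.mul_le_mul_right _ hc))))
    obtain ⟨k1, k2⟩ := FMain_un _ _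
      (fun i => (hC1 i _ (d2 + pk _ a' / pk _ b') v1 _ hb0 hb5 hv3 hf' hY).imp_right
        (key ((single_le_sum (fun _ _ => Nat.zero_le _) (mem_univ i)).trans (Nat.le_add_right _ _))))
      ((hC2 _ (d2 + pk _ a' / pk _ b') v1 _ hb0 hb5 hv3 hf' hY).imp_right (key (Nat.le_add_left _ _)))
    refine ⟨k1.image _, (Set.ncard_image_le k1).trans ?_⟩
    have k3 : (BP a').ncard ≤ (I + 1) *
        (Fintype.card k ^ ((∑ i, C1 i + C2) * m ^ (2 * a)) * ((R * b').natDegree + 1)) := by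
      exact_mod_cast k2
    refine k3.trans ?_
    rw [add_mul _ (I + 1), pow_add, mul_comm (_ ^ _) (_ ^ ((I + 1) * _)), mul_assoc]
    exact Nat.mul_le_mul_right _ ((Nat.lt_pow_self hq).le.trans
      (Nat.pow_le_pow_right (by omega) (Nat.le_mul_of_pos_right _ hY)))
  obtain ⟨n, nu, hnu, hdeg, hsu⟩ := exists_su (A := A) (P := some ⟨P, hP1⟩) hF hR hRF g1 g2 hb2 hb3
    hvi hvn (Option.some_ne_none _) hP2 hP3 hP4
  refine ⟨nu.range, ?_, fun a' a'' k1 k2 k3 k4 => ?_⟩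
  · rintro _ ⟨e, rfl⟩
    exact hdeg e
  obtain ⟨Φ, hΦ, hde⟩ := hsu a' a'' k1 k2 k3
  have k5 : (some ⟨P, hP1⟩ : Pl k) ∉ BP a' := fun hh => k4 ⟨_, hh, rfl⟩
  obtain ⟨L, hL1⟩ := hL _ _ Φ hΦ.stg
  have k6 : ∀ i, ({e | (L i).GoodEig e}.ncard : ℝ) ≤
      ε / 2 / (I + 1) * p ^ Fintype.card (Fin n) := fun i => by
    refine (hlat i (2 * m) (le_trans (single_le_sum (fun _ _ => Nat.zero_le _) (mem_univ i)) (by omega))
      hΦ hf (fun j => ?_) (fun hh => k5 (Or.inl ⟨i, hh⟩)) (L i)).trans ?_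
    · refine (Nat.pow_le_pow_left hmm _).trans (le_trans ?_ (hv2 _).2.2.2.1.le)
      have := single_le_sum (f := a0) (fun _ _ => Nat.zero_le _) (mem_univ i)
      rw [← pow_mul]
      exact Nat.pow_le_pow_right hm1 (by omega)
    · refine mul_le_mul_of_nonneg_right ?_ (by positivity)
      have : ε / 2 / (I + 1) = ε / 4 / (I + 1) + ε / 4 / (I + 1) := by ring
      linarith
  have k7 := hMx hΦ fun hh => k5 (Or.inr hh)
  have k8 := (FMain_un (fun i => {e | (L i).GoodEig e}) ∅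
    (fun i => ⟨Set.toFinite _, k6 i⟩) ⟨Set.finite_empty, by simp; positivity⟩).2
  have k9 : (Nat.card nu.range : ℝ) = p ^ Fintype.card (Fin n) := by
    rw [← Nat.card_congr (nu.ofInjective hnu).toEquiv, Nat.card_fun, Nat.card_zmod,
      Nat.card_eq_fintype_card, Nat.cast_pow]
  have k10 : {e | e ∈ nu.range ∧ IsCoprime (a' * P + a'' * b' + e) (b' * P) ∧
      BadD (d2 + algebraMap k[X] (RatFunc k) (a' * P + a'' * b' + e) /
        algebraMap k[X] _ (b' * P))} ⊆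
      nu '' ({e | (∃ i, e ∈ {e | (L i).GoodEig e}) ∨ e ∈ (∅ : Set _)} ∪
        {e | Tight p A F (R * b' * P) v0 Mx (Φ.de e)}) := by
    rintro _ ⟨⟨e, rfl⟩, -, he⟩
    exact ⟨e, (hL1 e ((hde e).symm ▸ he)).imp Or.inl id, rfl⟩
  have k11 := (Set.ncard_le_ncard k10 (Set.toFinite _)).trans
    ((Set.ncard_image_le (Set.toFinite _)).trans (Set.ncard_union_le _ _))
  have k12 : ((I : ℝ) + 1) * (ε / 2 / (I + 1) * p ^ Fintype.card (Fin n)) =
      ε / 2 * p ^ Fintype.card (Fin n) := by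
    field_simp
  rw [k9]
  refine (Nat.cast_le.2 k11).trans ?_
  rw [Nat.cast_add]
  exact (add_le_add (k8.trans_eq k12) k7).trans_eq (by ring)

end Pool.Agent.ASel
end

-- merged part: Pool.Agent.Work.MP_60d5ce_nt.AG.NV0
section
/-!
# A potentially supersingular place exists

PLAN.  `hasse_nodal`: write `a = -3 e ^ 2`, so `4 a ^ 3 + 27 b ^ 2 = 27 (b - 2 e ^ 3) (b + 2 e ^ 3)`; replacing `e` by `-e`
we may assume `|b - 2 e ^ 3| < |e| ^ 3`.  With `m = (p-1)/2`, `A(e ^ 2 α, e ^ 3 β) = e ^ m A(α, β)` (substitute `e X` for `X`),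
`A(-3, β) - A(-3, 2)` is small if `β - 2` is (a polynomial in `β` with integer coefficients, `SelD_hasse`), and
`A(-3, 2)` is the coefficient of `X ^ (p-1)` in `(X - 1) ^ (p-1) (X + 2) ^ m = (∑_{i<p} X ^ i) (X + 2) ^ m`, that is the sum
`3 ^ m` of the coefficients of `(X + 2) ^ m`.  `exists_v0`: otherwise `r = D ^ (p-1) / A ^ 12` has `|r| ≤ 1` at all places
(`hasse_nodal` in `Lb v` where `|D| < |a4| ^ 3`, there `|r| < 1`), so `r` is a nonzero constant (`liouville`, `av_inf`) and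
`|a4 ^ 3 / D| ≤ 1` everywhere, `a4 ^ 3 = c D` with `c ∈ k`; differentiating gives `2 a4 a6' = 3 a4' a6`.
-/

namespace Pool.Agent.ASel

open Polynomial Pool.Agent.Smith

theorem NV0_three (p : ℕ) (M : Type) [Field M] [CharP M p] (h5 : 5 ≤ p) : (3 : M) ≠ 0 := fun e =>
  absurd (Nat.le_of_dvd three_pos ((CharP.cast_eq_zero_iff M p 3).1 (by exact_mod_cast e))) (by omega)

theorem NV0_hom {M : Type} [Field M] {p m : ℕ} (hm : p - 1 = 2 * m) {e : M} (he : e ≠ 0) (α β : M) :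
    hasseInv p (e ^ 2 * α) (e ^ 3 * β) = e ^ m * hasseInv p α β := by
  have h : ((X ^ 3 + C (e ^ 2 * α) * X + C (e ^ 3 * β)) ^ m).comp (C e * X) =
      C (e ^ (3 * m)) * (X ^ 3 + C α * X + C β) ^ m := by
    rw [pow_comp, pow_mul, C_pow, ← mul_pow]
    simp only [add_comp, mul_comp, pow_comp, X_comp, C_comp, map_mul, map_pow]
    exact congrArg (· ^ m) (by ring)
  have h1 := congrArg (coeff · (2 * m)) h
  simp only [comp_C_mul_X_coeff, coeff_C_mul] at h1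
  rw [hasseInv, hasseInv, hm, Nat.mul_div_cancel_left _ two_pos]
  exact mul_right_cancel₀ (pow_ne_zero (2 * m) he) (h1.trans (by ring))

theorem NV0_node {M : Type} [Field M] {p m : ℕ} [hp : Fact p.Prime] [CharP M p]
    (hm : p - 1 = 2 * m) : hasseInv p (-3 : M) 2 = 3 ^ m := by
  have h0 : p = 2 * m + 1 := by have := hp.out.pos; omega
  have h1 : (X - 1 : M[X]) ^ (2 * m) = ∑ i ∈ Finset.range p, X ^ i := by
    refine mul_right_cancel₀ (b := X - 1) (by simpa using X_sub_C_ne_zero (1 : M)) ?_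
    rw [geom_sum_mul, ← pow_succ, ← h0, sub_pow_char, one_pow]
  have h2 : (X ^ 3 + C (-3) * X + C 2 : M[X]) = (X - 1) ^ 2 * (X + C 2) := by
    rw [C_neg, show (C 3 : M[X]) = 3 from rfl, show (C 2 : M[X]) = 2 from rfl]
    ring
  have h3 : ((X + C 2 : M[X]) ^ m).natDegree < p := by
    rw [natDegree_pow, natDegree_X_add_C]
    omega
  have h4 := eval_eq_sum_range' h3 1
  rw [eval_pow, eval_add, eval_X, eval_C, ← Finset.sum_range_reflect] at h4
  rw [hasseInv, hm, Nat.mul_div_cancel_left _ two_pos, h2, mul_pow, ← pow_mul, h1, Finset.sum_mul,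
    finsetSum_coeff, show (3 : M) = 1 + 2 by norm_num, h4]
  refine Finset.sum_congr rfl fun i hi => ?_
  rw [coeff_X_pow_mul', if_pos (by rw [Finset.mem_range] at hi; omega), one_pow, mul_one, hm]

theorem NV0_int {M : Type} [Field M] {w : AbsoluteValue M ℝ} (hw : IsNonarchimedean w) {δ : M}
    (h : w δ ≤ 1) (Q : ℤ[X]) : w (aeval δ Q) ≤ 1 := by
  induction Q using Polynomial.induction_on' with
  | add a b ha hb => exact map_add (aeval δ) a b ▸ (hw _ _).trans (max_le ha hb)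
  | monomial n c =>
    rw [aeval_monomial, map_mul, map_pow]
    exact mul_le_one₀ hw.apply_intCast_le_one (by positivity) (pow_le_one₀ (w.nonneg _) h)

theorem NV0_const {k : Type} [Field k] {y : RatFunc k} (h : ∀ v : Pl k, av v y ≤ 1) :
    ∃ c : k, y = algebraMap k[X] _ (C c) := by
  obtain ⟨f, rfl⟩ := liouville fun v _ => h v
  rcases eq_or_ne f 0 with rfl | hf
  · exact ⟨0, by rw [C_0]⟩
  have h1 := h none
  rw [av_inf hf] at h1
  exact ⟨_, congrArg _ (eq_C_of_natDegree_eq_zero (by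
    by_contra h0
    exact h1.not_gt (one_lt_pow₀ one_lt_two h0)))⟩

theorem hasse_nodal {p : ℕ} [Fact p.Prime] {M : Type} [Field M] [CharP M p] [IsAlgClosed M]
    (h5 : 5 ≤ p) {w : AbsoluteValue M ℝ} (hw : IsNonarchimedean w) {a b : M}
    (h : w (4 * a ^ 3 + 27 * b ^ 2) < w a ^ 3) : w (hasseInv p a b) ^ 4 = w a ^ (p - 1) := by
  obtain ⟨m, hm⟩ : ∃ m, p - 1 = 2 * m := by
    obtain ⟨m, hm⟩ := (Fact.out : p.Prime).odd_of_ne_two (by omega)
    exact ⟨m, by omega⟩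
  have h3 := NV0_three p M h5
  have w3 : w 3 = 1 := by
    refine (pow_eq_one_iff_of_nonneg (w.nonneg 3) (by omega : p - 1 ≠ 0)).1
      (mul_right_cancel₀ (w.ne_zero h3) ?_)
    rw [← pow_succ, Nat.sub_add_cancel (by omega), ← map_pow, ← frobenius_def, map_ofNat, one_mul]
  have key : ∀ e : M, w (b - 2 * e ^ 3) < w e ^ 3 →
      w (hasseInv p (-3 * e ^ 2) b) ^ 4 = w (-3 * e ^ 2) ^ (p - 1) := fun e he => by
    have e0 : e ≠ 0 := by
      rintro rfl
      simpa using (w.nonneg _).trans_lt he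
    obtain ⟨δ, rfl⟩ : ∃ δ, b = e ^ 3 * (δ + 2) := ⟨b / e ^ 3 - 2, by field_simp; ring⟩
    rw [show e ^ 3 * (δ + 2) - 2 * e ^ 3 = e ^ 3 * δ by ring, map_mul, map_pow,
      mul_lt_iff_lt_one_right (pow_pos (w.pos e0) 3)] at he
    have h1 : ∀ x : M, x * aeval x (hasseInv p (-3 : ℤ[X]) (X + 2)).divX +
        ((hasseInv p (-3 : ℤ[X]) (X + 2)).coeff 0 : M) = hasseInv p (-3) (x + 2) := fun x => by
      have := SelD_hasse p (aeval x : ℤ[X] →ₐ[ℤ] M).toRingHom (-3) (X + 2)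
      rw [← X_mul_divX_add (hasseInv p (-3 : ℤ[X]) (X + 2))] at this
      simpa [map_ofNat] using this
    have h2 := h1 0
    rw [zero_mul, zero_add, zero_add, NV0_node hm] at h2
    rw [mul_comm (-3), NV0_hom hm e0, ← h1, h2, map_mul, hw.add_eq_right_of_lt, hm]
    · simp only [map_mul, map_pow, map_neg_eq_map, w3]
      ring
    · rw [map_mul, map_pow, w3, one_pow]
      exact mul_lt_one_of_nonneg_of_lt_one_left (w.nonneg _) he (NV0_int hw he.le _)
  obtain ⟨e, he⟩ := IsAlgClosed.exists_pow_nat_eq (-a / 3) two_pos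
  obtain rfl : a = -3 * e ^ 2 := by rw [he]; field_simp
  rw [show 4 * (-3 * e ^ 2) ^ 3 + 27 * b ^ 2 = 3 ^ 3 * ((b - 2 * e ^ 3) * (b - 2 * (-e) ^ 3)) by ring] at h
  simp only [map_mul, map_pow, map_neg_eq_map, w3, one_pow, one_mul] at h
  by_cases h1 : w (b - 2 * e ^ 3) < w e ^ 3
  · exact key e h1
  · rw [← neg_sq e]
    refine key _ (lt_of_not_ge fun h2 => h.not_ge ?_)
    rw [map_neg_eq_map] at h2
    exact (mul_le_mul (not_lt.1 h1) h2 (by positivity) (w.nonneg _)).trans_eq' (by ring)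

theorem Hy.exists_v0 {k : Type} [Field k] {p : ℕ} [Fintype k] [Fact p.Prime] [CharP k p]
    {a4 a6 : k[X]} (h : Hy p a4 a6) : ∃ v : Pl k, InS0 (hasseInv p a4 a6 * Dc a4 a6) v ∧
      av v (pk _ a4) ^ 3 ≤ av v (pk _ (Dc a4 a6)) ∧
      av v (pk _ (hasseInv p a4 a6)) ^ 12 < av v (pk _ (Dc a4 a6)) ^ (p - 1) := by
  by_contra! H
  have h5 := h.five
  have e : ∀ f : k[X], pk (RatFunc k) f = algebraMap k[X] _ f := fun _ => rfl
  simp only [e] at H
  have hD := PF_ne h.disc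
  have hA := PF_ne h.A_ne
  have h1 : ∀ v : Pl k, av v (algebraMap k[X] _ (Dc a4 a6)) < av v (algebraMap k[X] _ a4) ^ 3 →
      av v (algebraMap k[X] _ (Dc a4 a6)) ^ (p - 1) <
        av v (algebraMap k[X] _ (hasseInv p a4 a6)) ^ 12 := fun v hv => by
    have n : ∀ f : k[X], av v (algebraMap k[X] _ f) = nm v (pk _ f) := fun f => (nm_algK v _).symm
    have := hasse_nodal h5 (nm_na v) (a := pk (Lb v) a4) (b := pk (Lb v) a6) (by
      rw [n, n] at hv
      simpa only [Dc, map_add, map_mul, map_pow, map_ofNat] using hv)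
    rw [← SelD_hasse, ← n, ← n] at this
    rw [pow_mul _ 4 3, this, ← pow_mul, mul_comm, pow_mul]
    exact pow_lt_pow_left₀ hv ((av v).nonneg _) (by omega)
  obtain ⟨c, hc⟩ := NV0_const (k := k) (y := algebraMap k[X] _ (Dc a4 a6) ^ (p - 1) /
      algebraMap k[X] _ (hasseInv p a4 a6) ^ 12) fun v => by
    rw [map_div₀, map_pow, map_pow, div_le_one (pow_pos ((av v).pos hA) _)]
    refine (lt_or_ge _ _).elim (fun hv => (h1 v hv).le) fun hv => ?_
    by_cases h0 : InS0 (hasseInv p a4 a6 * Dc a4 a6) v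
    · exact H v h0 hv
    · rw [InS0, not_or] at h0
      rw [PF_one h0.1 fun d => h0.2 (d.mul_left _), PF_one h0.1 fun d => h0.2 (d.mul_right _),
        one_pow, one_pow]
  have c0 : c ≠ 0 := by
    rintro rfl
    rw [C_0, map_zero] at hc
    exact div_ne_zero (pow_ne_zero _ hD) (pow_ne_zero _ hA) hc
  obtain ⟨d, hd⟩ := NV0_const (k := k)
      (y := algebraMap k[X] _ a4 ^ 3 / algebraMap k[X] _ (Dc a4 a6)) fun v => by
    rw [map_div₀, map_pow, div_le_one ((av v).pos hD)]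
    refine le_of_not_gt fun hv => (h1 v hv).ne ?_
    have := congrArg (av v) hc
    rwa [RatFunc.algebraMap_C, ← RatFunc.algebraMap_eq_C, av_const v c0, map_div₀, map_pow, map_pow,
      div_eq_one_iff_eq (pow_pos ((av v).pos hA) _).ne'] at this
  rw [div_eq_iff hD, ← map_pow, ← map_mul, (RatFunc.algebraMap_injective k).eq_iff, Dc] at hd
  have h2 := congrArg derivative hd
  simp only [derivative_mul, derivative_add, derivative_pow, derivative_C, derivative_ofNat,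
    Nat.cast_ofNat, map_ofNat] at h2
  have h3 : (3 : k[X]) ^ 3 * (a4 ^ 2 * (a6 * (2 * a4 * derivative a6 - 3 * derivative a4 * a6))) = 0 := by
    linear_combination (4 * 3 * a4 ^ 2 * derivative a4 + 27 * 2 * a6 * derivative a6) * hd -
      (4 * a4 ^ 3 + 27 * a6 ^ 2) * h2
  have h4 : (3 : k[X]) ≠ 0 := by simpa only [map_ofNat] using C_ne_zero.2 (NV0_three p k h5)
  refine h.kap ?_
  simp only [mul_eq_zero, pow_eq_zero_iff, ne_eq, OfNat.ofNat_ne_zero, not_false_eq_true, h4,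
    false_or, sub_eq_zero] at h3
  rcases h3 with rfl | rfl | h3
  exacts [by simp, by simp, h3]

end Pool.Agent.ASel
end

-- merged part: Pool.Agent.Work.MP_60d5ce_nt.AG.Main
section
/-!
# The main theorem
-/

namespace Pool.Agent.ASel

open Polynomial Filter Pool.Agent.Smith Pool.Agent.ShaAsc Pool.Agent.ASW
open scoped Topology IntermediateField

variable {k : Type} [Field k] {p : ℕ} [Fintype k] [hp : Fact p.Prime] [CharP k p] {a4 a6 : k[X]}

omit [Fintype k] in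
theorem disc_ne (h5 : 5 ≤ p) (h : 2 * a4 * derivative a6 ≠ 3 * derivative a4 * a6) :
    Dc a4 a6 ≠ 0 := fun e => by
  have e0 : 4 * a4 ^ 3 + 27 * a6 ^ 2 = 0 := e
  have e1 := congrArg derivative e0
  simp only [derivative_add, derivative_mul, derivative_pow, derivative_ofNat, derivative_zero,
    map_natCast, Nat.cast_ofNat, map_ofNat] at e1
  have h3 : (3 : k[X]) ≠ 0 := fun e => by
    have := Nat.le_of_dvd three_pos ((CharP.cast_eq_zero_iff k[X] p 3).1 (by exact_mod_cast e))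
    omega
  have h2 : (2 : k[X]) ≠ 0 := fun e => by
    have := Nat.le_of_dvd two_pos ((CharP.cast_eq_zero_iff k[X] p 2).1 (by exact_mod_cast e))
    omega
  have e2 : 3 ^ 3 * (a6 * (2 * a4 * derivative a6 - 3 * derivative a4 * a6)) = 0 := by
    linear_combination a4 * e1 - 3 * derivative a4 * e0
  rcases mul_eq_zero.1 ((mul_eq_zero.1 e2).resolve_left (pow_ne_zero _ h3)) with e3 | e3
  · exact h (by rw [e3, derivative_zero, mul_zero, mul_zero])
  · exact h (sub_eq_zero.1 e3)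

omit [Fintype k] hp [CharP k p] in
theorem exists_R {F m : k[X]} (hm : m ≠ 0) : ∃ R : k[X], R ≠ 0 ∧ R ∣ m ∧ IsCoprime R F ∧
    ∀ P, Prm P → ¬ P ∣ F → P ∣ m → P ∣ R := by
  induction m using UniqueFactorizationMonoid.induction_on_prime with
  | h₁ => exact absurd rfl hm
  | h₂ u hu => exact ⟨1, one_ne_zero, one_dvd _, isCoprime_one_left, fun P _ _ e =>
      (isUnit_of_dvd_unit e hu).dvd⟩
  | h₃ a Q ha hQ ih =>
    obtain ⟨R, h1, h2, h3, h4⟩ := ih ha
    by_cases e : Q ∣ F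
    · refine ⟨R, h1, h2.mul_left Q, h3, fun P hP g1 g2 => h4 P hP g1 ?_⟩
      exact (hP.2.prime.dvd_or_dvd g2).resolve_left fun g => g1 (g.trans e)
    · refine ⟨Q * R, mul_ne_zero hQ.ne_zero h1, mul_dvd_mul_left Q h2,
        (hQ.irreducible.coprime_iff_not_dvd.2 e).mul_left h3, fun P hP g1 g2 => ?_⟩
      exact (hP.2.prime.dvd_or_dvd g2).elim (fun g => g.mul_right R)
        fun g => (h4 P hP g1 g).mul_left Q

theorem Hy.unif (h : Hy p a4 a6) :
    Unif p (hasseInv p a4 a6 * Dc a4 a6) (BadD a4 a6 p) := by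
  intro F hF hAF h1 ε hε
  obtain ⟨v0, g0, g1, g2⟩ := h.exists_v0
  have g3 : InS0 F v0 := g0.imp_right fun e => e.trans hAF
  have hA : Ari p (hasseInv p a4 a6) F v0 (vp0 a4 a6 p) :=
    ⟨h.five, hF, (dvd_mul_right _ _).trans hAF, g3, h.nsq, h.vp0_ne, h.car_vp0,
      fun u hu => h.vp_int fun e => hu (e.imp_right fun e => e.trans hAF)⟩
  obtain ⟨B, hB⟩ := exists_TD h hF hAF g3 g1 g2
  have hε3 : 0 < ε / 3 := by positivity
  obtain ⟨K, a, C, m0, ha, hc⟩ := cos_main hA h1 (sec2_of_TD hA hB) (ε / 3) hε3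
  obtain ⟨N0, hN⟩ := stat_unif (na_lower h.nsq) K a C m0 ha hε3
  refine ⟨a, N0, ha, fun N hN0 d d1 d2 d3 d4 => ?_⟩
  obtain ⟨R, r0, r1, r2, r3⟩ := exists_R (F := F) d.denom_ne_zero
  have r4 : om R ≤ om d.denom :=
    Set.ncard_le_ncard (fun P hP => And.intro hP.1 (hP.2.trans r1)) (fin_prm d.denom_ne_zero)
  have key := hN N hN0 (F * R) _ R.natDegree
    ((natDegree_le_of_dvd r1 d.denom_ne_zero).trans d4) fun m hm hm' => hc m hm d R r0 r2
      (r4.trans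
        (Nat.le_of_lt_succ (lt_of_pow_lt_pow_left₀ _ (Nat.zero_le _) (d3.trans_lt hm')))) d1
      fun v hv => by
        have v0 : v ≠ none := fun e => hv (Or.inl e)
        have v1 : ¬ plp v ∣ F := fun e => hv (Or.inr e)
        have e1 := (av_den v0 d (p - 1)).2 (by
          rw [Nat.sub_add_cancel hp.out.one_le]
          exact d2 _ (pl_prm v0) v1)
        have e2 := av_den v0 d 0
        rw [pow_zero, zero_add, pow_one, ← not_lt, not_iff_not] at e2
        exact ⟨e1.trans_lt (pow_lt_pow_right₀ one_lt_two (Nat.sub_one_lt hp.out.ne_zero)),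
          e2.trans ⟨r3 _ (pl_prm v0) v1, fun e => e.trans r1⟩⟩
  rw [mul_div_cancel₀ _ three_ne_zero] at key
  refine le_trans (Nat.cast_le.2 (Set.ncard_le_ncard (fun x hx => And.intro ?_ ?_)
    ((fin_fam _ N).subset fun x hx => hx.1))) key
  · obtain ⟨x1, x2, x3, x4, x5⟩ := hx.1
    exact ⟨x1, x2, x3, x4.of_isCoprime_of_dvd_right (mul_dvd_mul_left F r1), x5⟩
  · have := hx.2
    rwa [fr, pow_one, add_comm] at this

theorem Hy.main (h : Hy p a4 a6) (Ω : Type) [Field Ω] [Algebra (RatFunc k) Ω]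
    [IsSepClosure (RatFunc k) Ω] [DecidableEq Ω] :
    Tendsto (fun N : ℕ => ({L | L ∈ ASx k p Ω N ∧ FinIdx p (Ew a4 a6) L}.ncard : ℝ) /
      ((ASx k p Ω N).ncard : ℝ)) atTop (𝓝 1) :=
  as_count (by have := h.five; omega) (mul_ne_zero h.A_ne h.disc) h.unif
    fun _ δ h1 h2 h3 => h.bridge h1 h2 δ h3

end Pool.Agent.ASel
end

-- merged part: Pool.Agent.Work.MP_60d5ce_nt.AH.TwE
section
/-!
# Every curve with a nonconstant `j`-invariant is a Frobenius twist of a curve whose `j` is not a `p`-th power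

PLAN.  `pow_root`: induction on `deg num + deg denom` (or `ht`): if `der s = 0` then `s = s1 ^ p` (`pb_K`, `PB.der_eq_zero`), `s1` is not
constant and `num s = num s1 ^ p`, `denom s = denom s1 ^ p` (`RatFunc.num_div_denom`, coprime and monic) have larger degrees.
`exists_tw`: `exists_variableChange_isShortNF` gives `C0 • E = ⟨0, 0, 0, α, β⟩`, with `c₄ (C0 • E) = -48 α = u⁻¹ ^ 4 c₄ E`,
`c₆ (C0 • E) = -864 β = u⁻¹ ^ 6 c₆ E`, `j = 6912 α ^ 3 / (4 α ^ 3 + 27 β ^ 2)` (`variableChange_j`, `j_of_isShortNF`).  As `j` is not constant,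
`α, β ≠ 0` and `s = α ^ 3 / β ^ 2` is not constant; with `l = β / α`, `α = l ^ 2 s`, `β = l ^ 3 s`.  Write `s = s0 ^ q`, `q = p ^ m = 2 e + 1`,
`der s0 ≠ 0`, and take `g ≠ 0` in `k[X]` such that `a4 = g ^ 4 l ^ 2 s0`, `a6 = g ^ 6 l ^ 3 s0` are polynomials.  Then
`a4 ^ q = (g ^ q l ^ e) ^ 4 α`, `a6 ^ q = (g ^ q l ^ e) ^ 6 β`: compose `C0` with the scaling.  `a4 ^ 3 = s0 a6 ^ 2`; if
`2 a4 a6' = 3 a4' a6` then `der s0 = 0` (`der_poly`, `der_mul`, `der_pow`).  The Hasse invariant: `SelD_hasse` (for `algebraMap` and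
`iterateFrobenius`), `NV0_hom` with `e = w ^ 2` gives `A (w ^ 4 a, w ^ 6 b) = w ^ (p-1) A (a, b)`.
-/

namespace Pool.Agent.ASel

open Polynomial Pool.Agent.Smith WeierstrassCurve

variable {k : Type} [Field k] [Fintype k] {p : ℕ} [hp : Fact p.Prime] [CharP k p]

theorem TwE_pw {k : Type} [Field k] (y : RatFunc k) (n : ℕ) :
    (y ^ n).num = y.num ^ n ∧ (y ^ n).denom = y.denom ^ n := by
  have e : y ^ n = algebraMap k[X] (RatFunc k) (y.num ^ n) / algebraMap k[X] _ (y.denom ^ n) := by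
    rw [map_pow, map_pow, ← div_pow, RatFunc.num_div_denom]
  have hd : (y ^ n).denom = y.denom ^ n := by
    rw [e]
    exact CBas_den (y.monic_denom.pow n) y.isCoprime_num_denom.pow
  refine ⟨IsFractionRing.injective k[X] (RatFunc k) ?_, hd⟩
  have e2 := (y ^ n).num_div_denom
  rw [hd] at e2
  exact (div_left_inj' (RatFunc.algebraMap_ne_zero (pow_ne_zero n y.denom_ne_zero))).1 (e2.trans e)

theorem TwE_const {k : Type} [Field k] {y : RatFunc k}
    (h : y.num.natDegree + y.denom.natDegree = 0) : ∃ c : k, y = algebraMap k _ c := by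
  refine ⟨y.num.coeff 0, ?_⟩
  have h1 := eq_C_of_natDegree_eq_zero (p := y.num) (by omega)
  have h2 := y.monic_denom.natDegree_eq_zero.1 (by omega)
  have e := y.num_div_denom
  rw [h2, map_one, div_one, h1] at e
  rw [IsScalarTower.algebraMap_apply k k[X] (RatFunc k)]
  exact e.symm

theorem pow_root {s : RatFunc k} (hs : ∀ c : k, s ≠ algebraMap k _ c) :
    ∃ (m : ℕ) (s0 : RatFunc k), s = s0 ^ p ^ m ∧ der p ⊤ (tv k (RatFunc k)) s0 ≠ 0 := by
  induction h : s.num.natDegree + s.denom.natDegree using Nat.strong_induction_on generalizing s with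
  | _ n ih =>
    by_cases h0 : der p ⊤ (tv k (RatFunc k)) s = 0
    swap
    · exact ⟨0, s, by simp, h0⟩
    obtain ⟨y, -, rfl⟩ := pb_K.der_eq_zero (Subfield.mem_top s) h0
    have hy : ∀ c : k, y ≠ algebraMap k _ c := fun c e => hs (c ^ p) (by rw [e, map_pow])
    have h1 : y.num.natDegree + y.denom.natDegree ≠ 0 := fun e => by
      obtain ⟨c, hc⟩ := TwE_const e
      exact hy c hc
    rw [(TwE_pw y p).1, (TwE_pw y p).2, natDegree_pow, natDegree_pow, ← mul_add] at h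
    obtain ⟨m, s0, e, h2⟩ := ih _ (h ▸ lt_mul_of_one_lt_left (Nat.pos_of_ne_zero h1) hp.out.one_lt) hy rfl
    exact ⟨m + 1, s0, by rw [e, ← pow_mul, ← pow_succ], h2⟩

theorem exists_tw (h5 : 5 ≤ p) (E : WeierstrassCurve (RatFunc k)) [E.IsElliptic]
    (hj : ∀ c : k, E.j ≠ algebraMap k _ c) : ∃ (a4 a6 : k[X]) (m : ℕ),
      2 * a4 * derivative a6 ≠ 3 * derivative a4 * a6 ∧ IsTw p a4 a6 E m ∧
      ∀ y : RatFunc k, y ^ (p - 1) = algebraMap k[X] (RatFunc k) (hasseInv p a4 a6) →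
        ∃ z : RatFunc k, z ^ (p - 1) = hasseInv p (-27 * E.c₄) (-54 * E.c₆) := by
  have : CharP (RatFunc k) p := charP_of_injective_algebraMap (algebraMap k _).injective p
  have h3 : (3 : RatFunc k) ≠ 0 := NV0_three p _ h5
  have h2 : (2 : RatFunc k) ≠ 0 := fun e =>
    absurd (Nat.le_of_dvd two_pos ((CharP.cast_eq_zero_iff (RatFunc k) p 2).1 e)) (by omega)
  let := invertibleOfNonzero h2
  let := invertibleOfNonzero h3
  obtain ⟨C0, hC⟩ := E.exists_variableChange_isShortNF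
  have c4 := (C0 • E).c₄_of_isShortNF
  have c6 := (C0 • E).c₆_of_isShortNF
  have ej := (C0 • E).j_of_isShortNF
  rw [variableChange_c₄] at c4
  rw [variableChange_c₆] at c6
  rw [variableChange_j] at ej
  have eW : C0 • E = ⟨0, 0, 0, (C0 • E).a₄, (C0 • E).a₆⟩ := by
    ext <;> simp only [hC.a₁, hC.a₂, hC.a₃]
  generalize (C0 • E).a₄ = α at c4 ej eW
  generalize (C0 • E).a₆ = β at c6 ej eW
  have hα : α ≠ 0 := fun e => hj 0 (by rw [ej, e, map_zero]; simp)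
  have h4 : (4 : RatFunc k) ≠ 0 := by
    rw [show (4 : RatFunc k) = 2 * 2 by norm_num]
    exact mul_ne_zero h2 h2
  have hβ : β ≠ 0 := fun e => hj 1728 (by
    rw [ej, e, map_ofNat]
    field_simp
    ring)
  obtain ⟨m, s0, es, hd⟩ := pow_root (p := p) (s := α ^ 3 / β ^ 2) fun c e => hj (6912 * c / (4 * c + 27)) (by
    rw [map_div₀, map_mul, map_add, map_mul, ← e, map_ofNat, map_ofNat, map_ofNat, ej,
      ← div_div_div_cancel_right₀ (pow_ne_zero 2 hβ)]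
    congr 1
    · ring
    · field_simp)
  have hs0 : s0 ≠ 0 := fun e => hd (by rw [e, map_zero])
  obtain ⟨n, hn⟩ := hp.out.odd_of_ne_two (by omega)
  obtain ⟨e, he⟩ := (hp.out.odd_of_ne_two (by omega)).pow (n := m)
  obtain ⟨l, hl⟩ : ∃ l, l = β / α := ⟨_, rfl⟩
  have hl0 : l ≠ 0 := hl ▸ div_ne_zero hβ hα
  have e4 : α = l ^ 2 * s0 ^ p ^ m := by
    rw [← es, hl]
    field_simp
  have e6 : β = l ^ 3 * s0 ^ p ^ m := by
    rw [← es, hl]
    field_simp
  have dl := RatFunc.algebraMap_ne_zero l.denom_ne_zero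
  have ds := RatFunc.algebraMap_ne_zero s0.denom_ne_zero
  have nl := (div_eq_iff dl).1 l.num_div_denom
  have ns := (div_eq_iff ds).1 s0.num_div_denom
  obtain ⟨g, hg⟩ : ∃ g, g = algebraMap k[X] (RatFunc k) l.denom * algebraMap k[X] (RatFunc k) s0.denom :=
    ⟨_, rfl⟩
  have hg0 : g ≠ 0 := hg ▸ mul_ne_zero dl ds
  obtain ⟨a4, f4⟩ : ∃ a4 : k[X], algebraMap k[X] (RatFunc k) a4 = g ^ 4 * l ^ 2 * s0 :=
    ⟨l.denom ^ 2 * l.num ^ 2 * s0.denom ^ 3 * s0.num, by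
      simp only [map_mul, map_pow]
      rw [nl, ns, hg]
      ring⟩
  obtain ⟨a6, f6⟩ : ∃ a6 : k[X], algebraMap k[X] (RatFunc k) a6 = g ^ 6 * l ^ 3 * s0 :=
    ⟨l.denom ^ 3 * l.num ^ 3 * s0.denom ^ 5 * s0.num, by
      simp only [map_mul, map_pow]
      rw [nl, ns, hg]
      ring⟩
  obtain ⟨w, hw⟩ : ∃ w, w = g ^ p ^ m * l ^ e := ⟨_, rfl⟩
  have hw0 : w ≠ 0 := hw ▸ mul_ne_zero (pow_ne_zero _ hg0) (pow_ne_zero _ hl0)
  have g4 : algebraMap k[X] (RatFunc k) a4 ^ p ^ m = w ^ 4 * α := by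
    rw [f4, e4, hw, mul_pow, mul_pow, pow_right_comm g, pow_right_comm l]
    nth_rewrite 2 [he]
    ring
  have g6 : algebraMap k[X] (RatFunc k) a6 ^ p ^ m = w ^ 6 * β := by
    rw [f6, e6, hw, mul_pow, mul_pow, pow_right_comm g, pow_right_comm l]
    nth_rewrite 2 [he]
    ring
  have hom : ∀ {v : RatFunc k}, v ≠ 0 →
      hasseInv p (v ^ 4 * α) (v ^ 6 * β) = v ^ (p - 1) * hasseInv p α β := fun {v} hv => by
    have := NV0_hom (p := p) (m := n) (by omega) (pow_ne_zero 2 hv) α β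
    rwa [← pow_mul, ← pow_mul, ← pow_mul, show 2 * n = p - 1 by omega] at this
  refine ⟨a4, a6, m, fun h => hd ?_, ⟨⟨(Units.mk0 w hw0)⁻¹, 0, 0, 0⟩ * C0, ?_⟩, fun y hy => ?_⟩
  · have h1 := congrArg (algebraMap k[X] (RatFunc k)) h
    simp only [map_mul, map_ofNat, ← der_poly (p := p)] at h1
    have h6 : algebraMap k[X] (RatFunc k) a6 ≠ 0 :=
      f6 ▸ mul_ne_zero (mul_ne_zero (pow_ne_zero _ hg0) (pow_ne_zero _ hl0)) hs0
    have r : algebraMap k[X] (RatFunc k) a4 ^ 3 = s0 * algebraMap k[X] (RatFunc k) a6 ^ 2 := by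
      rw [f4, f6]
      ring
    have r' := congrArg (der p ⊤ (tv k (RatFunc k))) r
    rw [pb_K.der_mul trivial trivial, pb_K.der_pow trivial, pb_K.der_pow trivial] at r'
    refine (mul_eq_zero.1 ?_).resolve_left (pow_ne_zero 3 h6)
    norm_num at r'
    linear_combination -algebraMap k[X] (RatFunc k) a6 * r' - algebraMap k[X] (RatFunc k) a4 ^ 2 * h1 +
      2 * der p ⊤ (tv k (RatFunc k)) (algebraMap k[X] (RatFunc k) a6) * r
  · rw [mul_smul, eW, g4, g6]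
    ext <;> simp [variableChange_def]
  · have u0 : (C0.u : RatFunc k) ≠ 0 := C0.u.ne_zero
    have h6 : (6 : RatFunc k) ≠ 0 := by
      rw [show (6 : RatFunc k) = 2 * 3 by norm_num]
      exact mul_ne_zero h2 h3
    rw [Units.val_inv_eq_inv_val] at c4 c6
    have d4 : -27 * E.c₄ = (6 * C0.u) ^ 4 * α := by
      field_simp at c4
      linear_combination -27 * c4
    have d6 : -54 * E.c₆ = (6 * C0.u) ^ 6 * β := by
      field_simp at c6
      linear_combination -54 * c6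
    have hF := SelD_hasse p (iterateFrobenius (RatFunc k) p m) (algebraMap k[X] _ a4) (algebraMap k[X] _ a6)
    rw [iterateFrobenius_def, iterateFrobenius_def, iterateFrobenius_def, g4, g6, hom hw0,
      ← SelD_hasse, ← hy, pow_right_comm] at hF
    refine ⟨6 * C0.u * y ^ p ^ m / w, ?_⟩
    rw [d4, d6, hom (mul_ne_zero h6 u0), div_pow, mul_pow _ (y ^ p ^ m), hF]
    field_simp

end Pool.Agent.ASel
end

-- merged part: Pool.Agent.Work.MP_60d5ce_nt.AH.IgA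
section
/-!
# The companion `B` of the Hasse invariant and the differential equation

PLAN.  `f = X ^ 3 + a X + b`, `m = (p-1)/2`, `2 m + 1 = 0` in characteristic `p`, `D = 4 a ^ 3 + 27 b ^ 2`.
`D = U0 f + V0 f'` with `U0 = -18 a X + 27 b`, `V0 = 6 a X ^ 2 - 9 b X + 4 a ^ 2`, and `D X = U1 f + V1 f'` with `U1 = 27 b X + 6 a ^ 2`,
`V1 = -9 b X ^ 2 - 2 a ^ 2 X - 6 a b`.  Apply the derivation to the coefficients (for instance `Derivation.mapCoeffs`,
`Differential.mapCoeffs`, or induction on `m` for the additive map `g ↦ g.sum fun i c => monomial i (d c)`):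
`(f ^ m)˙ = m f ^ (m-1) (a˙ X + b˙)`, so with `U = a˙ U1 + b˙ U0`, `V = a˙ V1 + b˙ V0`: `D (f ^ m)˙ = m U f ^ m + (V f ^ m)' - V' f ^ m`.  The
coefficient of `X ^ (p-1)` of a derivative is `p * _ = 0`, and `12 (m U - V') = -D˙ - 18 (2 a b˙ - 3 a˙ b) X` if `2 m = -1`.
-/

namespace Pool.Agent.ASel

open Polynomial

/-- the coefficient next to the Hasse invariant -/
noncomputable def hasseB {R : Type} [CommRing R] (p : ℕ) (a b : R) : R :=
  ((X ^ 3 + C a * X + C b : R[X]) ^ ((p - 1) / 2)).coeff (p - 2)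

theorem hasseB_map {R R' : Type} [CommRing R] [CommRing R'] (p : ℕ) (f : R →+* R') (a b : R) :
    f (hasseB p a b) = hasseB p (f a) (f b) := by
  unfold hasseB
  rw [← coeff_map]
  simp

theorem IgA_ode {R : Type} [CommRing R] [Differential R] (a b : R) (n : ℕ)
    (h : ((2 * n + 3 : ℕ) : R) = 0) :
    12 * (4 * a ^ 3 + 27 * b ^ 2) *
        Differential.deriv (((X ^ 3 + C a * X + C b : R[X]) ^ (n + 1)).coeff (2 * n + 2)) +
      Differential.deriv (4 * a ^ 3 + 27 * b ^ 2) *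
        ((X ^ 3 + C a * X + C b : R[X]) ^ (n + 1)).coeff (2 * n + 2) =
      -18 * (2 * a * Differential.deriv b - 3 * Differential.deriv a * b) *
        ((X ^ 3 + C a * X + C b : R[X]) ^ (n + 1)).coeff (2 * n + 1) := by
  have h1 : (2 * n + 3 : R[X]) = 0 := by simpa [map_ofNat] using congrArg C h
  have h2 : Differential.deriv (4 * a ^ 3 + 27 * b ^ 2) =
      12 * a ^ 2 * Differential.deriv a + 54 * b * Differential.deriv b := by
    have e : ∀ m : ℕ, Differential.deriv (m : R) = 0 := Derivation.map_natCast _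
    have e4 : Differential.deriv (4 : R) = 0 := e 4
    have e27 : Differential.deriv (27 : R) = 0 := e 27
    simp [Derivation.leibniz_pow, e4, e27]
    ring
  rw [h2, ← Differential.coeff_mapCoeffs]
  generalize ha : Differential.deriv a = a1
  generalize hb : Differential.deriv b = b1
  have h3 : C (12 * (4 * a ^ 3 + 27 * b ^ 2)) *
        Differential.mapCoeffs ((X ^ 3 + C a * X + C b : R[X]) ^ (n + 1)) +
      C (12 * a ^ 2 * a1 + 54 * b * b1) * (X ^ 3 + C a * X + C b) ^ (n + 1) =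
      C (-18 * (2 * a * b1 - 3 * a1 * b)) * (X * (X ^ 3 + C a * X + C b) ^ (n + 1)) +
      derivative (12 * (C a1 * (-9 * C b * X ^ 2 - 2 * C a ^ 2 * X - 6 * C a * C b) +
        C b1 * (6 * C a * X ^ 2 - 9 * C b * X + 4 * C a ^ 2)) *
        (X ^ 3 + C a * X + C b) ^ (n + 1)) := by
    rw [Derivation.leibniz_pow, derivative_mul, derivative_pow]
    simp [Derivation.leibniz_pow, derivative_pow, ha, hb, map_ofNat]
    linear_combination (6 * (C a1 * (27 * C b * X + 6 * C a ^ 2) +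
      C b1 * (-18 * C a * X + 27 * C b)) * (X ^ 3 + C a * X + C b) ^ (n + 1)) * h1
  have h4 := congrArg (coeff · (2 * n + 2)) h3
  simp only [coeff_add, coeff_C_mul, coeff_X_mul, coeff_derivative] at h4
  rw [h4, show ((2 * n + 2 : ℕ) : R) + 1 = 0 by rw [← h]; push_cast; ring, mul_zero, add_zero]

theorem hasse_ode {k : Type} [Field k] {p : ℕ} [Fact p.Prime] [CharP k p] (h5 : 5 ≤ p)
    (a b : k[X]) :
    12 * (4 * a ^ 3 + 27 * b ^ 2) * derivative (hasseInv p a b) +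
      derivative (4 * a ^ 3 + 27 * b ^ 2) * hasseInv p a b =
        -18 * (2 * a * derivative b - 3 * derivative a * b) * hasseB p a b := by
  obtain ⟨n, rfl⟩ : ∃ n, p = 2 * n + 3 := by
    obtain ⟨m, hm⟩ := (Fact.out : p.Prime).odd_of_ne_two (by omega)
    exact ⟨m - 1, by omega⟩
  let _ : Differential k[X] := ⟨derivative'.restrictScalars ℤ⟩
  have h := IgA_ode a b n (CharP.cast_eq_zero _ _)
  unfold hasseInv hasseB
  rw [show (2 * n + 3 - 1) / 2 = n + 1 by omega]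
  exact h

end Pool.Agent.ASel
end

-- merged part: Pool.Agent.Work.MP_60d5ce_nt.AH.IgB
section
/-!
# `A` and `B` have no common zero

`hasse_cop0`: `g = f ^ m`, `m = (p-1)/2`, satisfies `f g' = m f' g`, a recursion for the coefficients (`IgB_rec`).  If `A = B = 0`
the coefficients of `X ^ j`, `m ≤ j < p`, vanish, so `g = P + X ^ p Q` with `deg P, deg Q < m`.  At a root `e` of `f` the polynomial
`P + e ^ p Q = g - (X - e) ^ p Q` is divisible by `(X - e) ^ m`, so it is `0`; two different roots give `Q = 0`, against the degree.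
`hasse_cop`: choose `l` with `l ^ 12 = 4 a ^ 3 + 27 b ^ 2` (nonzero by `h2`), `a = l ^ 4 α`, `b = l ^ 6 β`, `w α, w β ≤ 1`, `4 α ^ 3 + 27 β ^ 2 = 1`;
`A (a, b) = l ^ (p-1) A (α, β)` (`NV0_hom`), `B (a, b) = l ^ (p+1) B (α, β)` (same proof).  Let `O` be the subring `w ≤ 1` and `I` the ideal
`w < 1`; it is prime (even maximal), map `O` to the algebraic closure of the fraction field of `O ⧸ I` (or of the residue field), of
characteristic `p`; `SelD_hasse`, `hasseB_map`, `hasse_cop0` show `B (α, β) ∉ I`.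
-/

namespace Pool.Agent.ASel

open Polynomial

variable {p : ℕ} [hp : Fact p.Prime] {M : Type} [Field M] [CharP M p] [IsAlgClosed M]

theorem IgB_rec {M : Type} [Field M] (a b : M) (m j : ℕ) :
    ((j : M) - 3 * m) * ((X ^ 3 + C a * X + C b : M[X]) ^ m).coeff j +
      a * ((j : M) + 2 - m) * ((X ^ 3 + C a * X + C b : M[X]) ^ m).coeff (j + 2) +
      b * (((j + 3 : ℕ) : M) * ((X ^ 3 + C a * X + C b : M[X]) ^ m).coeff (j + 3)) = 0 := by
  set g : M[X] := (X ^ 3 + C a * X + C b) ^ m with hg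
  have h1 : (X ^ 3 + C a * X + C b) * derivative g = C (m : M) * (C 3 * X ^ 2 + C a) * g := by
    rcases m with _ | m
    · simp [hg]
    · rw [hg, derivative_pow]
      simp only [derivative_add, derivative_X_pow, derivative_mul, derivative_C, derivative_X,
        Nat.add_sub_cancel, Nat.cast_ofNat]
      ring
  have h2 : ∀ i : ℕ, (X * derivative g).coeff i = i * g.coeff i := by
    intro i
    rcases i with _ | i
    · simp
    · rw [coeff_X_mul, coeff_derivative]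
      push_cast
      ring
  have h3 : X ^ 3 * (X * derivative g) + C a * (X * (X * derivative g)) +
      C b * (X * derivative g) = C (m * 3 : M) * (X ^ 3 * g) + C (m * a : M) * (X * g) := by
    simp only [map_mul]
    linear_combination X * h1
  have h4 := congrArg (coeff · (j + 3)) h3
  simp only [coeff_add, coeff_C_mul, coeff_X_pow_mul, coeff_X_mul (X * derivative g),
    coeff_X_mul g, h2] at h4
  push_cast at h4 ⊢
  linear_combination h4

theorem hasse_cop0 (h5 : 5 ≤ p) {a b : M} (hD : 4 * a ^ 3 + 27 * b ^ 2 ≠ 0)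
    (hA : hasseInv p a b = 0) : hasseB p a b ≠ 0 := by
  intro hB
  obtain ⟨m, hm⟩ : ∃ m, p = 2 * m + 1 := hp.out.odd_of_ne_two (by omega)
  have hm2 : (p - 1) / 2 = m := by omega
  rw [hasseInv, hm2] at hA
  rw [hasseB, hm2] at hB
  have hr := IgB_rec a b m
  set g : M[X] := (X ^ 3 + C a * X + C b) ^ m with hg
  have h1 : ∀ t j : ℕ, j + t = 2 * m → m ≤ j → g.coeff j = 0 := by
    intro t
    induction t using Nat.strong_induction_on with
    | _ t ih =>
      intro j hj hmj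
      rcases t with _ | _ | t
      · rwa [show j = p - 1 by omega]
      · rwa [show j = p - 2 by omega]
      have h2 : ((j + 3 : ℕ) : M) * g.coeff (j + 3) = 0 := by
        rcases t with _ | t
        · rw [show j + 3 = p by omega, CharP.cast_eq_zero, zero_mul]
        · rw [ih t (by omega) (j + 3) (by omega) (by omega), mul_zero]
      have h3 := hr j
      rw [h2, ih t (by omega) (j + 2) (by omega) (by omega), mul_zero, mul_zero, add_zero,
        add_zero] at h3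
      refine (mul_eq_zero.1 h3).resolve_left fun h4 => ?_
      have h6 : ((3 * m - j : ℕ) : M) = 0 := by
        rw [Nat.cast_sub (by omega)]
        push_cast
        linear_combination -h4
      have := Nat.le_of_dvd (by omega) ((CharP.cast_eq_zero_iff M p _).1 h6)
      omega
  set P : M[X] := ∑ j ∈ Finset.range m, monomial j (g.coeff j) with hP
  have hPd : P.natDegree ≤ m - 1 := natDegree_sum_le_of_forall_le _ _ fun j hj =>
    (natDegree_monomial_le _).trans (by have := Finset.mem_range.1 hj; omega)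
  obtain ⟨Q, hQ⟩ : X ^ p ∣ g - P := by
    refine X_pow_dvd_iff.2 fun d hd => ?_
    rw [coeff_sub, hP, finsetSum_coeff]
    simp only [coeff_monomial, Finset.sum_ite_eq', Finset.mem_range]
    split_ifs with h
    · exact sub_self _
    · rw [sub_zero]
      exact h1 (2 * m - d) d (by omega) (by omega)
  have hf : (X ^ 3 + C a * X + C b : M[X]).natDegree = 3 := by compute_degree!
  have hgd : g.natDegree = m * 3 := by rw [hg, natDegree_pow, hf]
  have hQd : Q.natDegree ≤ m - 1 := by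
    rcases eq_or_ne Q 0 with rfl | h0
    · simp
    have h2 := natDegree_sub_le g P
    rw [hQ, natDegree_mul (pow_ne_zero _ X_ne_zero) h0, natDegree_X_pow, hgd] at h2
    omega
  have hroot : ∀ e : M, e ^ 3 + a * e + b = 0 → P + C (e ^ p) * Q = 0 := by
    intro e he
    have h2 : X - C e ∣ X ^ 3 + C a * X + C b := dvd_iff_isRoot.2 (by simpa using he)
    have h3 : P + C (e ^ p) * Q = g - (X - C e) ^ p * Q := by
      rw [sub_pow_char, C_pow]
      linear_combination -hQ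
    refine eq_zero_of_dvd_of_natDegree_lt (p := (X - C e) ^ m) ?_ ?_
    · rw [h3]
      exact dvd_sub (pow_dvd_pow_of_dvd h2 m) ((pow_dvd_pow _ (by omega)).mul_right _)
    · rw [natDegree_pow, natDegree_X_sub_C, mul_one]
      have := (natDegree_add_le P (C (e ^ p) * Q)).trans
        (max_le hPd ((natDegree_C_mul_le _ _).trans hQd))
      omega
  obtain ⟨e, he⟩ := IsAlgClosed.exists_root (X ^ 3 + C a * X + C b : M[X])
    (by rw [degree_eq_natDegree (ne_zero_of_natDegree_gt (n := 0) (by omega)), hf]; norm_num)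
  obtain ⟨e', he'⟩ := IsAlgClosed.exists_root (X ^ 2 + C e * X + C (e ^ 2 + a) : M[X])
    (by
      have : (X ^ 2 + C e * X + C (e ^ 2 + a) : M[X]).degree = 2 := by compute_degree!
      rw [this]; norm_num)
  simp only [IsRoot.def, eval_add, eval_pow, eval_X, eval_mul, eval_C] at he he'
  have h2 := hroot e he
  have h3 := hroot e' (by linear_combination (e' - e) * he' + he)
  have h4 : e ^ p - e' ^ p ≠ 0 := by
    rw [← sub_pow_char]
    refine pow_ne_zero _ (sub_ne_zero.2 ?_)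
    rintro rfl
    refine hD ?_
    have ha : a = -3 * e ^ 2 := by linear_combination he'
    have hb : b = 2 * e ^ 3 := by rw [ha] at he; linear_combination he
    rw [ha, hb]
    ring
  have h6 : Q = 0 := by
    refine (mul_eq_zero.1 (?_ : C (e ^ p - e' ^ p) * Q = 0)).resolve_left (C_ne_zero.2 h4)
    rw [C_sub]
    linear_combination h2 - h3
  rw [h6, mul_zero, sub_eq_zero] at hQ
  rw [← hQ, hgd] at hPd
  omega

theorem IgB_hom {M : Type} [Field M] {p m : ℕ} (hm : p = 2 * (m + 1) + 1) {e : M} (he : e ≠ 0)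
    (α β : M) : hasseB p (e ^ 2 * α) (e ^ 3 * β) = e ^ (m + 2) * hasseB p α β := by
  have h : ((X ^ 3 + C (e ^ 2 * α) * X + C (e ^ 3 * β)) ^ (m + 1)).comp (C e * X) =
      C (e ^ (3 * (m + 1))) * (X ^ 3 + C α * X + C β) ^ (m + 1) := by
    rw [pow_comp, pow_mul, C_pow, ← mul_pow]
    simp only [add_comp, mul_comp, pow_comp, X_comp, C_comp, map_mul, map_pow]
    exact congrArg (· ^ (m + 1)) (by ring)
  have h1 := congrArg (coeff · (2 * m + 1)) h
  simp only [comp_C_mul_X_coeff, coeff_C_mul] at h1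
  rw [hasseB, hasseB, show (p - 1) / 2 = m + 1 by omega, show p - 2 = 2 * m + 1 by omega]
  exact mul_right_cancel₀ (pow_ne_zero (2 * m + 1) he) (h1.trans (by ring))

theorem IgB_unit (h5 : 5 ≤ p) {w : AbsoluteValue M ℝ} (hw : IsNonarchimedean w) {a b : M}
    (ha : w a ≤ 1) (hb : w b ≤ 1) (hD : 4 * a ^ 3 + 27 * b ^ 2 = 1)
    (hA : w (hasseInv p a b) < 1) : w (hasseB p a b) = 1 := by
  let O : Subring M :=
    { carrier := {x | w x ≤ 1}
      mul_mem' := fun {x y} hx hy => by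
        change w (x * y) ≤ 1
        rw [map_mul]
        exact mul_le_one₀ hx (w.nonneg _) hy
      one_mem' := (map_one w).le
      add_mem' := fun {x y} hx hy => (hw x y).trans (max_le hx hy)
      zero_mem' := (map_zero w).trans_le zero_le_one
      neg_mem' := fun {x} hx => (map_neg_eq_map w x).trans_le hx }
  let I : Ideal O :=
    { carrier := {x | w x < 1}
      add_mem' := fun {x y} hx hy => (hw x y).trans_lt (max_lt hx hy)
      zero_mem' := (map_zero w).trans_lt zero_lt_one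
      smul_mem' := fun c x hx => by
        change w (c * x) < 1
        rw [map_mul]
        exact mul_lt_one_of_nonneg_of_lt_one_right c.2 (w.nonneg _) hx }
  have hI : I.IsPrime := by
    refine ⟨(Ideal.ne_top_iff_one I).2 (map_one w).not_lt, fun {x y} h => ?_⟩
    by_contra h0
    have h1 : w (x * y) < 1 := h
    rw [map_mul] at h1
    exact h1.not_ge (one_le_mul_of_one_le_of_one_le (not_lt.1 (not_or.1 h0).1)
      (not_lt.1 (not_or.1 h0).2))
  let φ : O →+* AlgebraicClosure (FractionRing (O ⧸ I)) :=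
    (algebraMap (FractionRing (O ⧸ I)) _).comp
      ((algebraMap (O ⧸ I) _).comp (Ideal.Quotient.mk I))
  have hφ : ∀ x : O, φ x = 0 ↔ w x < 1 := fun x => by
    simp only [φ, RingHom.comp_apply, FaithfulSMul.algebraMap_eq_zero_iff,
      Ideal.Quotient.eq_zero_iff_mem]
    rfl
  have hc : CharP (AlgebraicClosure (FractionRing (O ⧸ I))) p := by
    refine (CharP.charP_iff_prime_eq_zero hp.out).2 ?_
    rw [← map_natCast φ, hφ]
    simp
  have eA := SelD_hasse p O.subtype ⟨a, ha⟩ ⟨b, hb⟩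
  have eB := hasseB_map p O.subtype ⟨a, ha⟩ ⟨b, hb⟩
  simp only [Subring.subtype_apply] at eA eB
  have hD' : 4 * (⟨a, ha⟩ : O) ^ 3 + 27 * (⟨b, hb⟩ : O) ^ 2 = 1 := Subtype.ext hD
  have h1 := hasse_cop0 h5 (a := φ ⟨a, ha⟩) (b := φ ⟨b, hb⟩)
    (by
      have := congrArg φ hD'
      simp only [map_add, map_mul, map_pow, map_ofNat, map_one] at this
      rw [this]
      exact one_ne_zero)
    (by rw [← SelD_hasse, hφ, eA]; exact hA)
  rw [← hasseB_map, Ne, hφ, eB] at h1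
  refine le_antisymm ?_ (not_lt.1 h1)
  rw [← eB]
  exact (hasseB p (⟨a, ha⟩ : O) ⟨b, hb⟩).2

theorem hasse_cop (h5 : 5 ≤ p) {w : AbsoluteValue M ℝ} (hw : IsNonarchimedean w) {a b : M}
    (h1 : w a ^ 3 ≤ w (4 * a ^ 3 + 27 * b ^ 2))
    (h2 : w (hasseInv p a b) ^ 12 < w (4 * a ^ 3 + 27 * b ^ 2) ^ (p - 1)) :
    w (hasseB p a b) ^ 12 = w (4 * a ^ 3 + 27 * b ^ 2) ^ (p + 1) := by
  obtain ⟨m, hm⟩ : ∃ m, p = 2 * (m + 1) + 1 := by
    obtain ⟨m, hm⟩ := hp.out.odd_of_ne_two (by omega)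
    exact ⟨m - 1, by omega⟩
  have h3 := NV0_three p M h5
  have w3 : w 3 = 1 := by
    refine (pow_eq_one_iff_of_nonneg (w.nonneg 3) (by omega : p - 1 ≠ 0)).1
      (mul_right_cancel₀ (w.ne_zero h3) ?_)
    rw [← pow_succ, Nat.sub_add_cancel (by omega), ← map_pow, ← frobenius_def, map_ofNat, one_mul]
  obtain ⟨e, he⟩ := IsAlgClosed.exists_pow_nat_eq (4 * a ^ 3 + 27 * b ^ 2) (by norm_num : 0 < 6)
  have e0 : e ≠ 0 := by
    rintro rfl
    rw [← he, zero_pow (by norm_num), map_zero, zero_pow (by omega)] at h2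
    exact h2.not_ge (by positivity)
  have we := w.pos e0
  obtain ⟨α, rfl⟩ : ∃ α, a = e ^ 2 * α := ⟨a / e ^ 2, by field_simp⟩
  obtain ⟨β, rfl⟩ : ∃ β, b = e ^ 3 * β := ⟨b / e ^ 3, by field_simp⟩
  have hD : 4 * α ^ 3 + 27 * β ^ 2 = 1 :=
    mul_left_cancel₀ (pow_ne_zero 6 e0) (by linear_combination -he)
  rw [← he] at h1 h2 ⊢
  rw [NV0_hom (m := m + 1) (by omega) e0, show p - 1 = 2 * (m + 1) by omega] at h2
  rw [IgB_hom hm e0]
  simp only [map_mul, map_pow, mul_pow, ← pow_mul] at h1 h2 ⊢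
  have hα : w α ≤ 1 := (pow_le_one_iff_of_nonneg (w.nonneg _) three_ne_zero).1
    ((mul_le_iff_le_one_right (pow_pos we _)).1 h1)
  have hβ : w β ≤ 1 := by
    have h4 : w (3 ^ 3 * β ^ 2) ≤ 1 := by
      rw [show 3 ^ 3 * β ^ 2 = 1 + ((-4 : ℤ) : M) * α ^ 3 by push_cast; linear_combination hD]
      refine (hw _ _).trans (max_le (map_one w).le ?_)
      rw [map_mul, map_pow]
      exact mul_le_one₀ hw.apply_intCast_le_one (by positivity) (pow_le_one₀ (w.nonneg _) hα)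
    rw [map_mul, map_pow, map_pow, w3, one_pow, one_mul] at h4
    exact (pow_le_one_iff_of_nonneg (w.nonneg _) two_ne_zero).1 h4
  rw [show 6 * (2 * (m + 1)) = (m + 1) * 12 by ring, mul_lt_iff_lt_one_right (pow_pos we _)] at h2
  rw [IgB_unit h5 hw hα hβ hD ((pow_lt_one_iff_of_nonneg (w.nonneg _) (by norm_num)).1 h2),
    one_pow, mul_one, hm]
  exact congrArg _ (by ring)

end Pool.Agent.ASel
end

-- merged part: Pool.Agent.Work.MP_60d5ce_nt.AH.IgC
section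
/-!
# For `p ≥ 13` the Hasse invariant is not a `(p-1)`-th power (the Igusa curve is not rational)

PLAN.  Suppose `A = y ^ (p-1)`; `y` is a polynomial (`liouville`).  Put `D = 4 a ^ 3 + 27 b ^ 2`, `δ = 2 a b' - 3 a' b ≠ 0`.  `D ≠ 0` (if `D = 0`
then `27 b δ = 0`, see `disc_ne` in `AG/Main.lean`; copy it) and `y ≠ 0` (if `A = 0`, `hasse_ode` gives `B = 0`, against `hasse_cop0` in `Kb k`).
`hasse_ode` gives `-18 δ B = y ^ (p-2) (D' y - 12 D y')`.  Claim: `z = δ / y ^ 10` has `av v z ≤ 1` at finite `v` and `< 1` at `∞`, so `z = 0`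
(`eq_zero_of_small`).  Let `η = av v y`, `c = 2` at finite `v` and `c = 1 / 2` at `∞`; `av v g' ≤ c * av v g` for polynomials `g`
(`norm_der` with `av_uu`, `der_poly`, `PB.der_map`; or directly).  Case 1: `|a| ≤ η ^ 4`, `|b| ≤ η ^ 6`.  At `∞`, `|δ| ≤ η ^ 10 / 2`.  At finite `v`,
`η = 2⁻¹ ^ e`, `a = P ^ (4 e) a1`, `b = P ^ (6 e) b1` (`av_poly_eq`) and `δ = P ^ (10 e) δ(a1, b1)`.  Case 2: otherwise `|a| ^ 3 ≤ |D|` (else
`hasse_nodal` in `Lb v` gives `|a| = η ^ 4`, and `|b| ^ 2 = |a| ^ 3`) and `η ^ 12 < |D|`; `hasse_cop` in `Lb v` gives `|B| ^ 12 = |D| ^ (p+1)`, so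
`|δ| ^ 12 |D| ^ (p+1) ≤ c ^ 12 η ^ (12 (p-1)) |D| ^ 12`, hence `|z| < c` as `p > 11`, and `av_disc` gives `|z| ≤ 1` at finite `v`.
-/

namespace Pool.Agent.ASel

open Polynomial Pool.Agent.Smith

section

variable {k : Type} [Field k]

theorem IgC_dvd {v : Pl k} (hv : v ≠ none) (n : ℕ) (f : k[X]) :
    av v (algebraMap k[X] _ f) ≤ 2⁻¹ ^ n ↔ plp v ^ n ∣ f := by
  constructor
  · intro h
    rcases eq_or_ne f 0 with rfl | hf
    · exact dvd_zero _
    rw [av_poly_eq hv hf, pow_le_pow_iff_right_of_lt_one₀ (by norm_num) (by norm_num)] at h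
    exact pow_dvd_of_le_multiplicity h
  · rintro ⟨g, rfl⟩
    rw [map_mul, map_mul, map_pow, map_pow, av_plp hv]
    exact mul_le_of_le_one_right (by positivity) (av_poly_le hv g)

theorem IgC_der (v : Pl k) (g : k[X]) : av v (algebraMap k[X] _ (derivative g)) ≤
    (if v = none then 2⁻¹ else 2) * av v (algebraMap k[X] _ g) := by
  rcases eq_or_ne (derivative g) 0 with h0 | h0
  · rw [h0, map_zero, map_zero]
    exact mul_nonneg (by split_ifs <;> norm_num) ((av v).nonneg _)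
  have hg : g ≠ 0 := fun e => h0 (by rw [e, derivative_zero])
  split_ifs with hv
  · subst hv
    have h1 := natDegree_derivative_lt fun e => h0 (derivative_of_natDegree_zero e)
    rw [av_inf h0, av_inf hg, le_inv_mul_iff₀ two_pos, ← pow_succ']
    exact pow_le_pow_right₀ one_le_two h1
  · have h1 := (IgC_dvd hv _ _).2
      (pow_sub_one_dvd_derivative_of_pow_dvd (pow_multiplicity_dvd (plp v) g))
    rw [av_poly_eq hv hg]
    refine h1.trans ?_
    rw [← inv_mul_le_iff₀ two_pos, ← pow_succ']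
    exact pow_le_pow_of_le_one (by norm_num) (by norm_num) (by omega)

theorem IgC_cast {R : Type} [Semiring R] (p : ℕ) [Fact p.Prime] [CharP R p] (h5 : 5 ≤ p) (i j : ℕ) :
    ((2 ^ i * 3 ^ j : ℕ) : R) ≠ 0 := fun e => by
  have hp : p.Prime := Fact.out
  rcases hp.dvd_mul.1 ((CharP.cast_eq_zero_iff R p _).1 e) with h | h
  · exact absurd (Nat.le_of_dvd two_pos (hp.dvd_of_dvd_pow h)) (by omega)
  · exact absurd (Nat.le_of_dvd three_pos (hp.dvd_of_dvd_pow h)) (by omega)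

theorem IgC_disc (p : ℕ) [Fact p.Prime] [CharP k p] (h5 : 5 ≤ p) {a b : k[X]}
    (h : 2 * a * derivative b ≠ 3 * derivative a * b) : 4 * a ^ 3 + 27 * b ^ 2 ≠ 0 := fun e0 => by
  have e1 := congrArg derivative e0
  simp only [derivative_add, derivative_mul, derivative_pow, derivative_ofNat, derivative_zero,
    Nat.cast_ofNat, map_ofNat] at e1
  have h3 : (27 : k[X]) ≠ 0 := by simpa using IgC_cast (R := k[X]) p h5 0 3
  have h2 : (4 : k[X]) ≠ 0 := by simpa using IgC_cast (R := k[X]) p h5 2 0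
  have e2 : 27 * (b * (2 * a * derivative b - 3 * derivative a * b)) = 0 := by
    linear_combination a * e1 - 3 * derivative a * e0
  rcases mul_eq_zero.1 ((mul_eq_zero.1 e2).resolve_left h3) with rfl | e3
  · have : a = 0 := by simpa [h2] using e0
    exact h (by simp [this])
  · exact h (sub_eq_zero.1 e3)

theorem IgC_loc {p : ℕ} [Fact p.Prime] [CharP k p] (h13 : 13 ≤ p) {a b y : k[X]} (hy : y ≠ 0)
    (hA : y ^ (p - 1) = hasseInv p a b) (v : Pl k) :
    av v (algebraMap k[X] _ (2 * a * derivative b - 3 * derivative a * b)) <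
      (if v = none then 1 else 2) * av v (algebraMap k[X] _ y) ^ 10 := by
  have h5 : 5 ≤ p := by omega
  obtain ⟨N, hN⟩ : ∃ N : k[X] → ℝ, ∀ f, N f = av v (algebraMap k[X] _ f) := ⟨_, fun _ => rfl⟩
  have n : ∀ f : k[X], nm v (pk _ f) = N f := fun f => (nm_algK v _).trans (hN f).symm
  have N0 : ∀ f, 0 ≤ N f := fun f => hN f ▸ (av v).nonneg _
  have Nm : ∀ f g, N (f * g) = N f * N g := fun f g => by simp only [hN, map_mul]
  have Np : ∀ f i, N (f ^ i) = N f ^ i := fun f g => by simp only [hN, map_pow]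
  have Ns : ∀ f g c, N f ≤ c → N g ≤ c → N (f - g) ≤ c := fun f g c h1 h2 => by
    rw [hN] at h1 h2 ⊢
    rw [map_sub]
    exact PF_sub' h1 h2
  have Nc : ∀ i j : ℕ, N ((2 ^ i * 3 ^ j : ℕ) : k[X]) = 1 := fun i j => by
    rw [hN, map_natCast, ← map_natCast (algebraMap k (RatFunc k))]
    exact av_const v (IgC_cast p h5 i j)
  have N2 : N 2 = 1 := by simpa using Nc 1 0
  have N3 : N 3 = 1 := by simpa using Nc 0 1
  have N4 : N 4 = 1 := by simpa using Nc 2 0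
  have N12 : N 12 = 1 := by simpa using Nc 2 1
  have N18 : N 18 = 1 := by simpa using Nc 1 2
  have N27 : N 27 = 1 := by simpa using Nc 0 3
  have Nd := IgC_der v
  have hη : 0 < N y := hN y ▸ (av v).pos (PF_ne hy)
  simp only [← hN] at Nd ⊢
  by_cases h1 : N a ≤ N y ^ 4 ∧ N b ≤ N y ^ 6
  · split_ifs at Nd ⊢ with hv
    · refine (Ns _ _ (2⁻¹ * N y ^ 10) ?_ ?_).trans_lt (by gcongr; norm_num)
      · rw [Nm, Nm, N2, one_mul]
        exact (mul_le_mul h1.1 ((Nd b).trans (mul_le_mul_of_nonneg_left h1.2 (by norm_num)))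
          (N0 _) (by positivity)).trans_eq (by ring)
      · rw [Nm, Nm, N3, one_mul]
        exact (mul_le_mul ((Nd a).trans (mul_le_mul_of_nonneg_left h1.1 (by norm_num))) h1.2
          (N0 _) (by positivity)).trans_eq (by ring)
    · simp only [hN, av_poly_eq hv hy, ← pow_mul, IgC_dvd hv] at h1 ⊢
      obtain ⟨⟨a1, ha⟩, b1, hb⟩ := h1
      refine ((IgC_dvd hv (multiplicity (plp v) y * 10) _).2
        ⟨2 * a1 * derivative b1 - 3 * derivative a1 * b1, ?_⟩).trans_lt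
        (lt_two_mul_self (by positivity))
      rw [pow_mul] at ha hb ⊢
      generalize plp v ^ multiplicity (plp v) y = Q at ha hb
      subst ha hb
      simp only [derivative_mul, derivative_pow, Nat.cast_ofNat, map_ofNat]
      ring
  · obtain ⟨D, hD⟩ : ∃ D, D = 4 * a ^ 3 + 27 * b ^ 2 := ⟨_, rfl⟩
    have eD : 4 * pk (Lb v) a ^ 3 + 27 * pk (Lb v) b ^ 2 = pk _ D := by
      simp only [hD, map_add, map_mul, map_pow, map_ofNat]
    have hb : ∀ c, N D ≤ c → N a ^ 3 ≤ c → N b ^ 2 ≤ c := fun c c1 c2 => by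
      have := Ns D (4 * a ^ 3) c c1 (by rwa [Nm, N4, one_mul, Np])
      rwa [hD, add_sub_cancel_left, Nm, N27, one_mul, Np] at this
    have h2 : N a ^ 3 ≤ N D := le_of_not_gt fun h2 => by
      have h3 := hasse_nodal h5 (nm_na v) (a := pk (Lb v) a) (b := pk (Lb v) b) (by rwa [eD, n, n])
      rw [← SelD_hasse, n, n, ← hA, Np, ← pow_mul, mul_comm, pow_mul,
        pow_left_inj₀ (by positivity) (N0 _) (by omega)] at h3
      refine h1 ⟨h3.ge, (pow_le_pow_iff_left₀ (N0 _) (by positivity) two_ne_zero).1 ?_⟩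
      exact (hb _ h2.le le_rfl).trans_eq (by rw [← h3]; ring)
    have h3 : N y ^ 12 < N D := by
      rcases not_and_or.1 h1 with h3 | h3
      · exact ((pow_lt_pow_left₀ (not_le.1 h3) (by positivity) three_ne_zero).trans_le h2).trans_eq'
          (by ring)
      · exact ((pow_lt_pow_left₀ (not_le.1 h3) (by positivity) two_ne_zero).trans_le
          (hb _ le_rfl h2)).trans_eq' (by ring)
    have h4 := hasse_cop h5 (nm_na v) (a := pk (Lb v) a) (b := pk (Lb v) b) (by rwa [eD, n, n]) (by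
      rw [eD, ← SelD_hasse, n, n, ← hA, Np, ← pow_mul, mul_comm, pow_mul]
      exact pow_lt_pow_left₀ h3 (by positivity) (by omega))
    rw [eD, ← hasseB_map, n, n] at h4
    obtain ⟨c, hc⟩ : ∃ c : ℝ, c = if v = none then 2⁻¹ else 2 := ⟨_, rfl⟩
    have c0 : 0 < c := by rw [hc]; split_ifs <;> norm_num
    rw [← hc] at Nd
    have h6 : N (2 * a * derivative b - 3 * derivative a * b) * N (hasseB p a b) ≤
        c * N D * N y ^ (p - 1) := by
      have e := hasse_ode h5 a b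
      rw [← hD] at e
      have e' : 18 * ((2 * a * derivative b - 3 * derivative a * b) * hasseB p a b) =
          (0 - 12 * D * derivative (hasseInv p a b)) - derivative D * hasseInv p a b := by
        linear_combination e
      rw [← Nm, ← one_mul (N _), ← N18, ← Nm, e', ← Np, hA]
      refine Ns _ _ _ (Ns _ _ _ ?_ ?_) ?_
      · rw [hN, map_zero, map_zero]
        exact mul_nonneg (mul_nonneg c0.le (N0 _)) (N0 _)
      · rw [Nm, Nm, N12, one_mul]
        exact (mul_le_mul_of_nonneg_left (Nd _) (N0 _)).trans_eq (by ring)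
      · rw [Nm]
        exact mul_le_mul_of_nonneg_right (Nd _) (N0 _)
    have D0 : 0 < N D := (pow_pos hη _).trans h3
    obtain ⟨q, rfl⟩ : ∃ q, p = q + 12 := ⟨p - 12, by omega⟩
    have h7 := pow_le_pow_left₀ (mul_nonneg (N0 _) (N0 _)) h6 12
    rw [mul_pow, h4] at h7
    have h8 := pow_lt_pow_left₀ h3 (by positivity) q.succ_ne_zero
    have h9 : c * N D * N y ^ (q + 12 - 1) = c * N y ^ 10 * N D * N y ^ (q + 1) := by
      rw [show q + 12 - 1 = 10 + (q + 1) by omega]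
      ring
    refine lt_of_lt_of_le (b := c * N y ^ 10) (lt_of_pow_lt_pow_left₀ 12 (by positivity)
      (lt_of_mul_lt_mul_right (h7.trans_lt ?_) (pow_pos D0 _).le)) ?_
    · rw [h9, mul_pow, mul_pow, mul_assoc, pow_right_comm, add_right_comm, pow_add (N D), mul_comm (N D ^ _)]
      gcongr
    · refine mul_le_mul_of_nonneg_right ?_ (by positivity)
      rw [hc]
      split_ifs <;> norm_num

end

theorem igusa {k : Type} [Field k] [Fintype k] {p : ℕ} [Fact p.Prime] [CharP k p] (h13 : 13 ≤ p)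
    {a b : k[X]} (h : 2 * a * derivative b ≠ 3 * derivative a * b) (y : RatFunc k) :
    y ^ (p - 1) ≠ algebraMap k[X] (RatFunc k) (hasseInv p a b) := fun e => by
  have h5 : 5 ≤ p := by omega
  obtain ⟨y, rfl⟩ := liouville (y := y) fun v hv => by
    have := av_poly_le hv (hasseInv p a b)
    rwa [← e, map_pow, pow_le_one_iff_of_nonneg ((av v).nonneg _) (by omega)] at this
  rw [← map_pow, (RatFunc.algebraMap_injective k).eq_iff] at e
  have hy : y ≠ 0 := by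
    rintro rfl
    rw [zero_pow (by omega)] at e
    have h1 := hasse_ode h5 a b
    rw [← e, derivative_zero, mul_zero, mul_zero, add_zero] at h1
    have h2 : (18 : k[X]) ≠ 0 := by simpa using IgC_cast (R := k[X]) p h5 1 2
    refine hasse_cop0 h5 (a := pk (Kb k) a) (b := pk (Kb k) b) (fun h3 => IgC_disc p h5 h
      (SelD_inj (Kb k) ?_)) (by rw [← SelD_hasse, ← e, map_zero]) ?_
    · simpa only [map_add, map_mul, map_pow, map_ofNat, map_zero] using h3
    · rw [← hasseB_map, (mul_eq_zero.1 h1.symm).resolve_left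
        (mul_ne_zero (neg_ne_zero.2 h2) (sub_ne_zero.2 h)), map_zero]
  have h0 : algebraMap k[X] (RatFunc k) (2 * a * derivative b - 3 * derivative a * b) /
      algebraMap k[X] _ y ^ 10 ≠ 0 := div_ne_zero (PF_ne (sub_ne_zero.2 h)) (pow_ne_zero _ (PF_ne hy))
  have h1 := fun v => (div_lt_iff₀ (pow_pos ((av v).pos (PF_ne hy)) 10)).2 (IgC_loc h13 hy e v)
  simp only [← map_pow (av _), ← map_div₀] at h1
  refine h0 (eq_zero_of_small (fun v hv => ?_) (by simpa only [if_true] using h1 none))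
  obtain ⟨n, hn⟩ := av_disc v _ h0
  have h2 := h1 v
  rw [if_neg hv, hn] at h2
  rw [hn]
  exact zpow_le_one_of_nonpos₀ one_le_two (by
    have := (zpow_lt_zpow_iff_right₀ (one_lt_two (α := ℝ)) (m := n) (n := 1)).1 (by rwa [zpow_one])
    omega)

end Pool.Agent.ASel
end

-- merged part: Pool.Agent.Work.MP_60d5ce_nt.AH.Main
section
/-!
# The main theorem for every curve with a nonconstant `j`-invariant
-/

namespace Pool.Agent.ASel

open Polynomial Filter Pool.Agent.Smith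
open scoped Topology IntermediateField

theorem main_all {k : Type} [Field k] {p : ℕ} [Fintype k] [Fact p.Prime] [CharP k p] (h5 : 5 ≤ p)
    (E : WeierstrassCurve (RatFunc k)) [E.IsElliptic] (hj : ∀ c : k, E.j ≠ algebraMap k _ c)
    (hA : 13 ≤ p ∨ ∀ y : RatFunc k, y ^ (p - 1) ≠ hasseInv p (-27 * E.c₄) (-54 * E.c₆))
    (Ω : Type) [Field Ω] [Algebra (RatFunc k) Ω] [IsSepClosure (RatFunc k) Ω] [DecidableEq Ω] :
    Tendsto (fun N : ℕ => ({L | L ∈ ASx k p Ω N ∧ FinIdx p E L}.ncard : ℝ) /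
      ((ASx k p Ω N).ncard : ℝ)) atTop (𝓝 1) := by
  obtain ⟨a4, a6, m, h1, h2, h3⟩ := exists_tw h5 E hj
  obtain ⟨T⟩ := h2.twD
  have h : Hy p a4 a6 := ⟨h5, disc_ne h5 h1, h1, fun y e => hA.elim (fun h13 => igusa h13 h1 y e)
    fun h4 => (h3 y e).elim h4⟩
  exact as_count (by omega) (mul_ne_zero h.A_ne h.disc) h.unif
    fun _ δ g1 g2 g3 => h.bridgeN T g1 g2 δ g3

end Pool.Agent.ASel
end
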